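import Pool.Agent.H426.Ru.Step

/-!
The inequality for all points.
-/

set_option autoImplicit false

namespace Pool.Agent.H426.Ru

open MvPolynomial Finset NumberField IsDedekindDomain Height Module
open Pool.Agent.W180.OP Pool.Agent.W180.TP Pool.Agent.NH28
open Pool.Agent.TH875 (not_all form_ub comb_le alg_ind)

section

variable {K : Type} [Field K] [NumberField K] {n q : ℕ}

lemma Bd.glue {r : ℕ} {kk : ℝ → ℝ} {ε : ℝ} {F : Fin q → MvPolynomial (Fin n) K} {d : Fin q → ℕ}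
    {J : Ideal (MvPolynomial (Fin n) K)} {Z : MvPolynomial (Fin n) K}
    (h1 : Bd r kk ε F d J Z) (h2 : Bd r kk ε F d (J ⊔ Ideal.span {Z}) 1) :
    Bd r kk ε F d J 1 := by
  intro S
  obtain ⟨C1, hC1, h1⟩ := h1 S
  obtain ⟨C2, hC2, h2⟩ := h2 S
  refine ⟨C1 + C2, by positivity, ?_⟩
  intro L _ _ _ hrL x hx hJ hadj h1x hFx T V hT
  by_cases hZ : aeval x Z = 0
  · have h3 := h2 L hrL x hx (by
      intro p hp
      rw [sup_comm, Ideal.mem_span_singleton_sup] at hp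
      obtain ⟨a, b, hb, rfl⟩ := hp
      rw [map_add, map_mul, hZ, mul_zero, hJ b hb, add_zero]) hadj h1x hFx T V hT
    linarith
  · have h3 := h1 L hrL x hx hJ hadj hZ hFx T V hT
    linarith

lemma Bd.red {r : ℕ} {kk : ℝ → ℝ} {ε : ℝ} {F : Fin q → MvPolynomial (Fin n) K} {d : Fin q → ℕ}
    {J : Ideal (MvPolynomial (Fin n) K)} {a b : MvPolynomial (Fin n) K} (hab : a * b ∈ J)
    (h1 : Bd r kk ε F d (J ⊔ Ideal.span {a}) 1) (h2 : Bd r kk ε F d (J ⊔ Ideal.span {b}) 1) :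
    Bd r kk ε F d J 1 := by
  intro S
  obtain ⟨C1, hC1, h1⟩ := h1 S
  obtain ⟨C2, hC2, h2⟩ := h2 S
  refine ⟨C1 + C2, by positivity, ?_⟩
  intro L _ _ _ hrL x hx hJ hadj h1x hFx T V hT
  have h3 := hJ _ hab
  rw [map_mul, mul_eq_zero] at h3
  rcases h3 with h3 | h3
  · have h3 := h1 L hrL x hx (by
      intro p hp
      rw [sup_comm, Ideal.mem_span_singleton_sup] at hp
      obtain ⟨a, b, hb, rfl⟩ := hp
      rw [map_add, map_mul, h3, mul_zero, hJ b hb, add_zero]) hadj h1x hFx T V hT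
    linarith
  · have h3 := h2 L hrL x hx (by
      intro p hp
      rw [sup_comm, Ideal.mem_span_singleton_sup] at hp
      obtain ⟨a, b, hb, rfl⟩ := hp
      rw [map_add, map_mul, h3, mul_zero, hJ b hb, add_zero]) hadj h1x hFx T V hT
    linarith

/-- few hypersurfaces -/
lemma Bd.few {r : ℕ} {kk : ℝ → ℝ} {ε : ℝ} (F : Fin q → MvPolynomial (Fin n) K) (d : Fin q → ℕ)
    (hd : ∀ i, 1 ≤ d i) (hF : ∀ i, (F i).IsHomogeneous (d i)) (hε : 0 < ε)
    (hk : ∀ s : ℝ, 1 ≤ s → s ≤ r → (q : ℝ) ≤ kk s ∧ 1 ≤ kk s)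
    (J : Ideal (MvPolynomial (Fin n) K)) (Z : MvPolynomial (Fin n) K) : Bd r kk ε F d J Z := by
  classical
  choose Cb hCb0 hCb using fun i : Fin q => liou_u (F i) (d i) (hF i)
  have hCbs : 0 ≤ ∑ i, Cb i := Finset.sum_nonneg fun e _ => hCb0 e
  set Q : ℝ := (finrank ℚ K : ℝ) * r with hQ
  have hQ0 : 0 ≤ Q := by positivity
  intro S
  refine ⟨(∑ i, Cb i) * Q, by positivity, ?_⟩
  intro L _ _ _ hrL x hx hJ hadj h1x hFx T V hT
  have hfq : (finrank ℚ L : ℝ) ≤ Q := by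
    have h1 : finrank ℚ K * finrank K L = finrank ℚ L := finrank_mul_finrank ℚ K L
    rw [hQ, ← h1]
    push_cast
    exact mul_le_mul_of_nonneg_left (by exact_mod_cast hrL) (Nat.cast_nonneg _)
  have hd0 : ∀ i, (1 : ℝ) ≤ d i := fun i => by exact_mod_cast hd i
  have hh := logHeight_nonneg x
  rcases Nat.eq_zero_or_pos q with hq0 | hq0
  · subst hq0
    simp only [Finset.univ_eq_empty, Finset.sum_empty, mul_zero, zero_div, Finset.sum_const_zero,
      zero_mul, add_zero]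
    positivity
  have hq : (0 : ℝ) < q := by exact_mod_cast hq0
  have e1 : ∀ w ∈ T, wt w * (∑ i, lam (av w) (d i) (bc L (F i)) x / d i) /
      kk (finrank K L / nn (V w) w) ≤
      ∑ i, (wt w * max 0 (lam (av w) (d i) (bc L (F i)) x)) / d i / q := by
    intro w hw
    have hρw : 1 ≤ (finrank K L : ℝ) / nn (V w) w :=
      RR_one_le (rho_mem hrL (mem_ab.2 (hT w hw).2))
    obtain ⟨hk1, hk2⟩ := hk _ hρw (ratio_le hrL (hT w hw).2)
    set kw : ℝ := kk (finrank K L / nn (V w) w) with hkw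
    rw [Finset.mul_sum, Finset.sum_div]
    refine Finset.sum_le_sum fun i _ => ?_
    have hdi := hd0 i
    have hw0 := wt_nonneg w
    have h1 : wt w * (lam (av w) (d i) (bc L (F i)) x / d i) ≤
        wt w * max 0 (lam (av w) (d i) (bc L (F i)) x) / d i := by
      rw [mul_div_assoc]
      refine mul_le_mul_of_nonneg_left ?_ hw0
      exact div_le_div_of_nonneg_right (le_max_right _ _) (by linarith)
    have h2 : 0 ≤ wt w * max 0 (lam (av w) (d i) (bc L (F i)) x) / d i := by positivity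
    exact (div_le_div_of_nonneg_right h1 (by linarith)).trans
      (div_le_div_of_nonneg_left h2 hq hk1)
  refine (Finset.sum_le_sum e1).trans ?_
  rw [Finset.sum_comm]
  have h1 : ∀ i ∈ Finset.univ, ∑ w ∈ T, (wt w * max 0 (lam (av w) (d i) (bc L (F i)) x)) / d i / q ≤
      logHeight x / q + Cb i * Q := by
    intro i _
    have hdi := hd0 i
    have hq1 : (1 : ℝ) ≤ q := by exact_mod_cast hq0
    rw [← Finset.sum_div, ← Finset.sum_div, div_le_iff₀ hq, div_le_iff₀ (by linarith)]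
    have h3 := hCb i L T x hx (hFx i)
    have h4 : Cb i * finrank ℚ L ≤ Cb i * Q := mul_le_mul_of_nonneg_left hfq (hCb0 i)
    have h6 : 0 ≤ Cb i * Q := mul_nonneg (hCb0 i) hQ0
    have h5 : Cb i * Q ≤ Cb i * Q * q := le_mul_of_one_le_right h6 hq1
    have h7 : Cb i * Q * q ≤ Cb i * Q * q * d i := le_mul_of_one_le_right (h6.trans h5) hdi
    have h8 : (logHeight x / q + Cb i * Q) * q * d i = d i * logHeight x + Cb i * Q * q * d i := by
      field_simp
    rw [h8]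
    linarith
  refine (Finset.sum_le_sum h1).trans ?_
  rw [Finset.sum_add_distrib, Finset.sum_const, Finset.card_univ, Fintype.card_fin, nsmul_eq_mul,
    ← Finset.sum_mul, mul_div_cancel₀ _ hq.ne']
  refine add_le_add ?_ le_rfl
  have := mul_nonneg hε.le hh
  linarith

/-- forms without zeros -/
lemma Bd.one {m r : ℕ} {kk : ℝ → ℝ} {ε : ℝ} (G : Fin m → MvPolynomial (Fin n) K) (g : Fin m → ℕ)
    (hG : ∀ k, (G k).IsHomogeneous (g k)) (F : Fin q → MvPolynomial (Fin n) K) (d : Fin q → ℕ)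
    (hd : ∀ i, 1 ≤ d i) (hF : ∀ i, (F i).IsHomogeneous (d i)) (hε : 0 < ε)
    (hk : ∀ s : ℝ, 1 ≤ s → s ≤ r → 1 ≤ kk s)
    (h0 : ∀ i, ∀ (L : Type) [Field L] [Algebra K L] (x : Fin n → L),
      (∀ k, aeval x (G k) = 0) → aeval x (F i) = 0 → x = 0)
    (Z : MvPolynomial (Fin n) K) : Bd r kk ε F d (Ideal.span (Set.range G)) Z := by
  classical
  choose Cb hCb0 hCb using fun i : Fin q => not_all one_pos G g hG (fun _ : Fin 1 => F i)
    (D := d i) (fun _ => hF i) (fun L _ _ x h1 h2 => h0 i L x h1 (h2 0))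
  have hCbs : 0 ≤ ∑ i, Cb i := Finset.sum_nonneg fun e _ => hCb0 e
  set Q : ℝ := (finrank ℚ K : ℝ) * r with hQ
  have hQ0 : 0 ≤ Q := by positivity
  intro S
  refine ⟨S.card * (r * ((∑ i, Cb i) * Q)), by positivity, ?_⟩
  intro L _ _ _ hrL x hx hJ hadj h1x hFx T V hT
  have hGx : ∀ k, aeval x (G k) = 0 := fun k => hJ _ (Ideal.subset_span ⟨k, rfl⟩)
  have hfq : (finrank ℚ L : ℝ) ≤ Q := by
    have h1 : finrank ℚ K * finrank K L = finrank ℚ L := finrank_mul_finrank ℚ K L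
    rw [hQ, ← h1]
    push_cast
    exact mul_le_mul_of_nonneg_left (by exact_mod_cast hrL) (Nat.cast_nonneg _)
  have hd0 : ∀ i, (1 : ℝ) ≤ d i := fun i => by exact_mod_cast hd i
  have hh := logHeight_nonneg x
  have hcard : (T.card : ℝ) ≤ S.card * r := by
    have h1 : T ⊆ S.biUnion fun v => ab L v := by
      intro w hw
      obtain ⟨hv, hvw⟩ := hT w hw
      exact Finset.mem_biUnion.2 ⟨V w, hv, mem_ab.2 hvw⟩
    have h2 := (Finset.card_le_card h1).trans Finset.card_biUnion_le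
    have h3 : ∑ v ∈ S, (ab L v).card ≤ ∑ _v ∈ S, r :=
      Finset.sum_le_sum fun v _ => (card_ab_le L v).trans hrL
    rw [Finset.sum_const, smul_eq_mul] at h3
    exact_mod_cast h2.trans h3
  have h1 : ∀ w ∈ T, wt w * (∑ i, lam (av w) (d i) (bc L (F i)) x / d i) /
      kk (finrank K L / nn (V w) w) ≤ (∑ i, Cb i) * Q := by
    intro w hw
    have hρw : 1 ≤ (finrank K L : ℝ) / nn (V w) w :=
      RR_one_le (rho_mem hrL (mem_ab.2 (hT w hw).2))
    have hk1 := hk _ hρw (ratio_le hrL (hT w hw).2)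
    set kw : ℝ := kk (finrank K L / nn (V w) w) with hkw
    have hX : 0 ≤ (∑ i, Cb i) * Q := by positivity
    rw [div_le_iff₀ (by linarith)]
    refine le_trans ?_ (le_mul_of_one_le_right hX hk1)
    rw [Finset.mul_sum, Finset.sum_mul]
    refine Finset.sum_le_sum fun i _ => ?_
    obtain ⟨_, h2⟩ := hCb i L w x hx hGx (fun _ => hFx i)
    have h3 : wt w * (lam (av w) (d i) (bc L (F i)) x / d i) =
        (wt w * lam (av w) (d i) (bc L (F i)) x) / d i := by ring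
    have hdi := hd0 i
    rw [h3, div_le_iff₀ (by linarith)]
    have h4 : Cb i * finrank ℚ L ≤ Cb i * Q := mul_le_mul_of_nonneg_left hfq (hCb0 i)
    have h5 : Cb i * Q ≤ Cb i * Q * d i :=
      le_mul_of_one_le_right (mul_nonneg (hCb0 i) hQ0) hdi
    exact (h2.trans h4).trans h5
  refine (Finset.sum_le_sum h1).trans ?_
  rw [Finset.sum_const, nsmul_eq_mul]
  have h2 : (T.card : ℝ) * ((∑ i, Cb i) * Q) ≤ S.card * (r * ((∑ i, Cb i) * Q)) := by
    have := mul_le_mul_of_nonneg_right hcard (by positivity : 0 ≤ (∑ i, Cb i) * Q)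
    linarith
  have h3 : 0 ≤ (1 + ε) * logHeight x := mul_nonneg (by linarith) hh
  linarith

theorem bd_all {m N ν0 r : ℕ} (hr : 1 ≤ r) (G : Fin m → MvPolynomial (Fin n) K) (g : Fin m → ℕ)
    (hG : ∀ k, (G k).IsHomogeneous (g k))
    (hdim : ∀ P : Ideal (MvPolynomial (Fin n) K), P.IsPrime → Ideal.span (Set.range G) ≤ P →
      Algebra.trdeg K (MvPolynomial (Fin n) K ⧸ P) ≤ (ν0 : Cardinal) + 1)
    (F : Fin q → MvPolynomial (Fin n) K) (d : Fin q → ℕ) (hd : ∀ i, 1 ≤ d i)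
    (hF : ∀ i, (F i).IsHomogeneous (d i))
    (hgp : ∀ e : Fin (N + 1) ↪ Fin q, ∀ (L : Type) [Field L] [Algebra K L] (x : Fin n → L),
      (∀ k, aeval x (G k) = 0) → (∀ k, aeval x (F (e k)) = 0) → x = 0)
    (kk : ℝ → ℝ) (ε : ℝ) (hε : 0 < ε) (hk1 : ∀ s : ℝ, 1 ≤ s → s ≤ r → 1 ≤ kk s)
    (hk : ∀ ν : ℕ, 1 ≤ ν → ν ≤ ν0 → ∀ s : ℝ, 1 ≤ s → s ≤ r →
      ((N : ℝ) + 1 - ν) * cstR ν s ≤ kk s) :
    Bd r kk ε F d (Ideal.span (Set.range G)) 1 := by
  classical
  refine noeth (fun J => Bd r kk ε F d J 1) (Ideal.span (Set.range G)) ⟨m, G, g, hG, rfl⟩ ?_ ?_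
    fun I a b _ _ hab => Bd.red hab
  · intro S
    refine ⟨0, le_rfl, ?_⟩
    intro L _ _ _ hrL x hx hJ
    have h1 := hJ 1 trivial
    rw [map_one] at h1
    exact absurd h1 one_ne_zero
  intro P hP hprime hle
  have hHG := hP
  obtain ⟨m', G', g', hG', rfl⟩ := hP
  have h1P : (1 : MvPolynomial (Fin n) K) ∉ Ideal.span (Set.range G') := fun h =>
    hprime.ne_top ((Ideal.eq_top_iff_one _).2 h)
  by_cases hFP : ∃ i, F i ∈ Ideal.span (Set.range G')
  · obtain ⟨i, hi⟩ := hFP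
    refine ⟨1, 0, isHomogeneous_one _ _, h1P, fun _ S => ⟨0, le_rfl, ?_⟩⟩
    intro L _ _ _ hrL x hx hJ hadj _ hFx
    exact absurd (hJ _ hi) (hFx i)
  push Not at hFP
  have hgp' : ∀ e : Fin (N + 1) ↪ Fin q, ∀ (L : Type) [Field L] [Algebra K L] (x : Fin n → L),
      (∀ k, aeval x (G' k) = 0) → (∀ k, aeval x (F (e k)) = 0) → x = 0 := by
    intro e L _ _ x h1 h2
    refine hgp e L x (fun k => ?_) h2
    have h3 : G k ∈ Ideal.span (Set.range G') := hle (Ideal.subset_span ⟨k, rfl⟩)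
    have h4 : Ideal.span (Set.range G') ≤ RingHom.ker (aeval x : MvPolynomial (Fin n) K →ₐ[K] L) := by
      rw [Ideal.span_le]
      rintro _ ⟨k, rfl⟩
      exact h1 k
    exact h4 h3
  have hvan : ∀ (L : Type) [Field L] [Algebra K L] (x : Fin n → L),
      (∀ k, aeval x (G' k) = 0) → ∀ p ∈ Ideal.span (Set.range G'), aeval x p = 0 := by
    intro L _ _ x h1 p hp
    have h4 : Ideal.span (Set.range G') ≤ RingHom.ker (aeval x : MvPolynomial (Fin n) K →ₐ[K] L) := by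
      rw [Ideal.span_le]
      rintro _ ⟨k, rfl⟩
      exact h1 k
    exact h4 hp
  have key : ∃ (Z : MvPolynomial (Fin n) K) (t : ℕ), Z.IsHomogeneous t ∧
      Z ∉ Ideal.span (Set.range G') ∧ Bd r kk ε F d (Ideal.span (Set.range G')) Z := by
    have htr0 := hdim _ hprime hle
    have hlt : Algebra.trdeg K (MvPolynomial (Fin n) K ⧸ Ideal.span (Set.range G')) <
        Cardinal.aleph0 := by
      refine htr0.trans_lt ?_
      exact_mod_cast Cardinal.natCast_lt_aleph0 (n := ν0 + 1)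
    obtain ⟨τ, hτ⟩ := Cardinal.lt_aleph0.1 hlt
    rw [hτ] at htr0
    have hτ' : τ ≤ ν0 + 1 := by exact_mod_cast htr0
    match τ, hτ, hτ' with
    | 0, hτ, _ =>
      refine ⟨1, 0, isHomogeneous_one _ _, h1P, fun S => ⟨0, le_rfl, ?_⟩⟩
      intro L _ _ _ hrL x hx hJ
      exact absurd (eq_zero_of_trdeg_zero hHG (by rw [hτ]; simp) x hJ) hx
    | 1, hτ, _ =>
      refine ⟨1, 0, isHomogeneous_one _ _, h1P, ?_⟩
      refine Bd.one G' g' hG' F d hd hF hε hk1 ?_ 1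
      intro i L _ _ x hx hFx
      exact eq_zero_of_trdeg_one hHG (by rw [hτ]; simp) (hF i) (hFP i) x (hvan L x hx) hFx
    | ν + 2, hτ, hτ' =>
      rcases Nat.lt_or_ge q (N + 1) with hq | hq
      · refine ⟨1, 0, isHomogeneous_one _ _, h1P, ?_⟩
        refine Bd.few F d hd hF hε (fun s hs hsr => ⟨?_, hk1 s hs hsr⟩) _ 1
        have h1 := hk 1 le_rfl (by omega) s hs hsr
        have h2 := one_le_cstR (ν := 1) le_rfl hs
        have h3 : (q : ℝ) ≤ N := by exact_mod_cast Nat.lt_succ_iff.1 hq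
        have h4 : (0 : ℝ) ≤ N := Nat.cast_nonneg _
        push_cast at h1 h2
        nlinarith
      · exact step_big (ν := ν + 1) (by omega) hr hq G' g' hG' hprime (by rw [hτ]) F d hd hF hFP
          hgp' kk ε hε (hk (ν + 1) (by omega) (by omega))
  obtain ⟨Z, t, hZ, hZP, hB⟩ := key
  exact ⟨Z, t, hZ, hZP, fun h => hB.glue h⟩

lemma pow_le_quad {τ : ℝ} (h0 : 0 ≤ τ) (h1 : τ ≤ 1) (m : ℕ) :
    (1 - τ) ^ m ≤ 1 - m * τ + m * (m - 1) / 2 * τ ^ 2 := by
  induction m with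
  | zero => simp
  | succ m ih =>
    have h2 := mul_le_mul_of_nonneg_left ih (by linarith : (0 : ℝ) ≤ 1 - τ)
    rw [pow_succ, mul_comm]
    refine h2.trans ?_
    rcases Nat.eq_zero_or_pos m with hm | hm
    · subst hm
      simp
    · have hm1 : (1 : ℝ) ≤ m := by exact_mod_cast hm
      have h3 : 0 ≤ (m : ℝ) * (m - 1) / 2 * τ ^ 3 := by
        have : (0 : ℝ) ≤ m - 1 := by linarith
        positivity
      push_cast
      nlinarith

/-- `c(ν, ρ) ≤ 2 ν ρ` -/
theorem cstR_le {ν : ℕ} (hν : 1 ≤ ν) {ρ : ℝ} (hρ : 1 ≤ ρ) : cstR ν ρ ≤ 2 * ν * ρ := by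
  have hν1 : (1 : ℝ) ≤ ν := by exact_mod_cast hν
  have hνρ : 1 ≤ (ν : ℝ) * ρ := one_le_mul_of_one_le_of_one_le hν1 hρ
  have hc := one_le_cstR hν hρ
  have hc0 : 0 < cstR ν ρ := by linarith
  have hτ1 : 1 / ((ν : ℝ) * ρ) ≤ 1 := by
    rw [div_le_one (by linarith)]
    exact hνρ
  have h1 := ggR_le hν hρ hτ1
  have h2 := pow_le_quad (by positivity : (0 : ℝ) ≤ 1 / (ν * ρ)) hτ1 (ν + 1)
  have h3 : 1 / (2 * ν * ρ) ≤ ggR ν ρ (1 / (ν * ρ)) := by
    unfold ggR
    set τ : ℝ := 1 / (ν * ρ) with hτ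
    have h4 : τ - ν * τ ^ 2 / 2 ≤ (1 - (1 - τ) ^ (ν + 1)) / (ν + 1) := by
      rw [le_div_iff₀ (by linarith)]
      push_cast at h2
      nlinarith
    have h5 := mul_le_mul_of_nonneg_left h4 (by linarith : (0 : ℝ) ≤ ρ)
    have h6 : 1 / (2 * ν * ρ) = τ * (1 - ρ) + ρ * (τ - ν * τ ^ 2 / 2) := by
      rw [hτ]
      have : (ν : ℝ) ≠ 0 := by linarith
      have : ρ ≠ 0 := by linarith
      field_simp
      ring
    rw [h6]
    linarith
  have h4 := h3.trans h1
  rwa [one_div_le_one_div (by positivity) hc0] at h4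

/-- a uniform version -/
lemma Bd.unif {r : ℕ} {kk : ℝ → ℝ} (hk1 : ∀ s : ℝ, 1 ≤ s → s ≤ r → 1 ≤ kk s) {ε1 : ℝ}
    (F : Fin q → MvPolynomial (Fin n) K) (d : Fin q → ℕ)
    (hd : ∀ i, 1 ≤ d i) (hF : ∀ i, (F i).IsHomogeneous (d i)) (κ0 ε : ℝ) (hκ0 : 0 ≤ κ0)
    (hεε : ε1 * κ0 ≤ ε) (hε1 : 0 ≤ ε1) (S : Finset (Pl K)) (C : ℝ) (hC : 0 ≤ C) :
    ∃ C' : ℝ, 0 ≤ C' ∧
      ∀ (L : Type) [Field L] [NumberField L] [Algebra K L], finrank K L ≤ r →
        ∀ x : Fin n → L, x ≠ 0 → (∀ i, aeval x (F i) ≠ 0) →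
        ∀ (T : Finset (Pl L)) (V : Pl L → Pl K), (∀ w ∈ T, V w ∈ S ∧ Ov (V w) w) →
        ∑ w ∈ T, wt w * (∑ i, lam (av w) (d i) (bc L (F i)) x / d i) /
          kk (finrank K L / nn (V w) w) ≤ (1 + ε1) * logHeight x + C →
        ∀ κ : ℝ, 0 ≤ κ → κ ≤ κ0 → (∀ w ∈ T, kk (finrank K L / nn (V w) w) ≤ κ) →
        ∑ w ∈ T, wt w * ∑ i, lam (av w) (d i) (bc L (F i)) x / d i ≤
          (κ + ε) * logHeight x + C' := by
  classical
  choose Cb hCb0 hCb using fun i : Fin q => form_ub (F i) (hF i)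
  have hCbs : 0 ≤ ∑ i, Cb i := Finset.sum_nonneg fun e _ => hCb0 e
  set Q : ℝ := (finrank ℚ K : ℝ) * r with hQ
  have hQ0 : 0 ≤ Q := by positivity
  set W : ℝ := (∑ i, Cb i) * Q with hW
  have hW0 : 0 ≤ W := by positivity
  refine ⟨κ0 * (C + S.card * (r * W)), by positivity, ?_⟩
  intro L _ _ _ hrL x hx hFx T V hT hmain κ hκ hκκ hkκ
  have hfq : (finrank ℚ L : ℝ) ≤ Q := by
    have h1 : finrank ℚ K * finrank K L = finrank ℚ L := finrank_mul_finrank ℚ K L
    rw [hQ, ← h1]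
    push_cast
    exact mul_le_mul_of_nonneg_left (by exact_mod_cast hrL) (Nat.cast_nonneg _)
  have hd0 : ∀ i, (1 : ℝ) ≤ d i := fun i => by exact_mod_cast hd i
  have hlow : ∀ w : Pl L, -W ≤ wt w * (∑ i, lam (av w) (d i) (bc L (F i)) x / d i) := by
    intro w
    rw [Finset.mul_sum, neg_le, ← Finset.sum_neg_distrib]
    have h1 : ∀ i ∈ Finset.univ, -(wt w * (lam (av w) (d i) (bc L (F i)) x / d i)) ≤ Cb i * Q := by
      intro i _
      have h2 := hCb i L w x hx (hFx i)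
      have h3 : Cb i * finrank ℚ L ≤ Cb i * Q := mul_le_mul_of_nonneg_left hfq (hCb0 i)
      have h4 : 0 ≤ Cb i * Q := mul_nonneg (hCb0 i) hQ0
      have h5 : -(wt w * (lam (av w) (d i) (bc L (F i)) x / d i)) =
          -(wt w * lam (av w) (d i) (bc L (F i)) x) / d i := by ring
      rw [h5, div_le_iff₀ (by have := hd0 i; linarith)]
      have h6 : Cb i * Q ≤ Cb i * Q * d i := le_mul_of_one_le_right h4 (hd0 i)
      linarith
    refine (Finset.sum_le_sum h1).trans (le_of_eq ?_)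
    rw [← Finset.sum_mul]
  have hh := logHeight_nonneg x
  have hcard : (T.card : ℝ) ≤ S.card * r := by
    have h1 : T ⊆ S.biUnion fun v => ab L v := by
      intro w hw
      obtain ⟨hv, hvw⟩ := hT w hw
      exact Finset.mem_biUnion.2 ⟨V w, hv, mem_ab.2 hvw⟩
    have h2 := (Finset.card_le_card h1).trans Finset.card_biUnion_le
    have h3 : ∑ v ∈ S, (ab L v).card ≤ ∑ _v ∈ S, r :=
      Finset.sum_le_sum fun v _ => (card_ab_le L v).trans hrL
    rw [Finset.sum_const, smul_eq_mul] at h3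
    exact_mod_cast h2.trans h3
  have hterm : ∀ w ∈ T, wt w * ∑ i, lam (av w) (d i) (bc L (F i)) x / d i ≤
      κ * (wt w * (∑ i, lam (av w) (d i) (bc L (F i)) x / d i) /
          kk (finrank K L / nn (V w) w) + W) := by
    intro w hw
    obtain ⟨hv, hvw⟩ := hT w hw
    have hρw : 1 ≤ (finrank K L : ℝ) / nn (V w) w :=
      RR_one_le (rho_mem (r := r) hrL (mem_ab.2 hvw))
    have hc1 := hk1 _ hρw (ratio_le hrL hvw)
    have hc2 := hkκ w hw
    set a : ℝ := wt w * (∑ i, lam (av w) (d i) (bc L (F i)) x / d i) with ha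
    set kw : ℝ := kk (finrank K L / nn (V w) w) with hkw
    have h1 := hlow w
    have hcw : 0 < kw := by linarith
    have h2 : (a + W) ≤ κ * ((a + W) / kw) := by
      have h3 : a + W = kw * ((a + W) / kw) := by field_simp
      have h4 : 0 ≤ (a + W) / kw := div_nonneg (by linarith) hcw.le
      have h5 := mul_le_mul_of_nonneg_right hc2 h4
      linarith
    have h3 : (a + W) / kw ≤ a / kw + W := by
      rw [add_div]
      exact add_le_add le_rfl (div_le_self hW0 hc1)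
    have h4 := mul_le_mul_of_nonneg_left h3 hκ
    linarith
  have h1 := Finset.sum_le_sum hterm
  rw [← Finset.mul_sum, Finset.sum_add_distrib, Finset.sum_const, nsmul_eq_mul] at h1
  refine h1.trans ?_
  have h2 : (T.card : ℝ) * W ≤ S.card * (r * W) := by
    have := mul_le_mul_of_nonneg_right hcard hW0
    linarith
  have h3 : κ * (∑ w ∈ T, wt w * (∑ i, lam (av w) (d i) (bc L (F i)) x / d i) /
          kk (finrank K L / nn (V w) w) + T.card * W) ≤
      κ * ((1 + ε1) * logHeight x + (C + S.card * (r * W))) :=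
    mul_le_mul_of_nonneg_left (by linarith) hκ
  refine h3.trans ?_
  have hCS : 0 ≤ C + S.card * (r * W) := by positivity
  have h4 : κ * (C + S.card * (r * W)) ≤ κ0 * (C + S.card * (r * W)) :=
    mul_le_mul_of_nonneg_right hκκ hCS
  have h5 : ε1 * κ ≤ ε := (mul_le_mul_of_nonneg_left hκκ hε1).trans hεε
  have h6 : ε1 * κ * logHeight x ≤ ε * logHeight x := mul_le_mul_of_nonneg_right h5 hh
  nlinarith

end

end Pool.Agent.H426.Ru
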