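import Pool.Agent.H426.Ru.All

set_option autoImplicit false

/-!
# Proximity to hypersurfaces for ALL points of bounded degree of a projective variety

`X = {G = 0}` is any projective scheme of dimension at most `ν0` over a number field `K`, in
`ℙ^(n-1)`, and `D i = X ∩ {F i = 0}`, `i < q`, are hypersurface sections of degrees `d i` in
`N`-subgeneral position: no `N + 1` of them have a common point. Let
`c(ν, ρ) = (ν + 1) / (1 - ν (ρ - 1) (1 - (1 - 1 / ρ) ^ (1 / ν)))` and `k(ρ) ≥ (N + 1 - ν) c(ν, ρ)` for
`1 ≤ ν ≤ ν0`, for instance `k(ρ) = 2 ρ max ν (N + 1 - ν)`. For a point `x` of `X` with residue field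
`L` of degree at most `r` over `K` and a place `w` of `L` over the place `v` of `K` let
`ρ_w = [L : K] / [L_w : K_v] ≤ r`. Then
`∑ w, (∑ i, λ_{D i, w}(x) / d i) / k(ρ_w) ≤ (1 + ε) h(x) + C` and
`∑ i, m_{D i}(x) / d i ≤ (max k(ρ_w) + ε) h(x) + C` for ALL points `x` of degree at most `r` which are
in no `D i`: there is no exceptional set. For curves this is the constant `2 r N`, and for plane
curves in general position in the plane (`N = 2`) it is the constant `4 r`.

Method: Noetherian induction on the subvarieties. For an irreducible subvariety of dimension `ν` and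
each place one takes combinations `y_0, …, y_ν` without common point of the `N + 1` forms which are
smallest at the place, `y_0` the smallest form and `y_j` a combination of the `N - ν + j + 1` smallest
ones; then the theorem on systems of parameters for the points of bounded degree is applied (the
library's `main_w`, behind `SubspaceLocalDegrees`).
-/

namespace Pool.Agent.Results.MP_651af7_nt.AllPoints

open NumberField IsDedekindDomain

/-- The point with homogeneous coordinates `x` lies on the projective scheme `{G = 0}`. -/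
def On {K L : Type} [Field K] [Field L] [Algebra K L] {m n : ℕ}
    (G : Fin m → MvPolynomial (Fin n) K) (x : Fin n → L) : Prop :=
  ∀ k, MvPolynomial.aeval x (G k) = 0

/-- The places of a number field: the archimedean places and the primes. -/
abbrev Place (L : Type) [Field L] [NumberField L] : Type :=
  InfinitePlace L ⊕ HeightOneSpectrum (𝓞 L)

/-- The place is archimedean or lies over a prime in `S`. -/
def Above {K L : Type} [Field K] [NumberField K] [Field L] [NumberField L] [Algebra K L]
    (S : Finset (HeightOneSpectrum (𝓞 K))) : Place L → Prop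
  | Sum.inl _ => True
  | Sum.inr w => ∃ v ∈ S, w.asIdeal.LiesOver v.asIdeal

/-- The absolute value of a place. At a prime it is the normalised one, with the value
`(N v) ^ (-ord_v x)` at `x ≠ 0`. -/
noncomputable def absv {L : Type} [Field L] [NumberField L] : Place L → L → ℝ
  | Sum.inl w => fun x => w x
  | Sum.inr v => fun x => FinitePlace.mk v x

/-- The exponent of the absolute value of a place in the product formula: `1` at real places and at
primes, `2` at complex places. -/
noncomputable def weight {L : Type} [Field L] [NumberField L] : Place L → ℝ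
  | Sum.inl w => w.mult
  | Sum.inr _ => 1

/-- The degree of the completion of `L` at a place over the completion of `K` at the place below:
the quotient of the degrees over `ℝ` at an archimedean place, `e f` at a prime. -/
noncomputable def localDegree (K : Type) {L : Type} [Field K] [NumberField K] [Field L]
    [NumberField L] [Algebra K L] : Place L → ℝ
  | Sum.inl w => w.mult / (w.comap (algebraMap K L)).mult
  | Sum.inr w => ((w.asIdeal.under (𝓞 K)).ramificationIdx' w.asIdeal *
      (w.asIdeal.under (𝓞 K)).inertiaDeg' w.asIdeal : ℕ)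

/-- `ρ_w = [L : K] / [L_w : K_v]`. -/
noncomputable def ratio (K : Type) {L : Type} [Field K] [NumberField K] [Field L] [NumberField L]
    [Algebra K L] (p : Place L) : ℝ :=
  Module.finrank K L / localDegree K p

/-- The local height of the hypersurface `F = 0` of degree `d` at the point with homogeneous
coordinates `x`. -/
noncomputable def weil {K L : Type} [Field K] [Field L] [NumberField L] [Algebra K L] {n : ℕ}
    (p : Place L) (d : ℕ) (F : MvPolynomial (Fin n) K) (x : Fin n → L) : ℝ :=
  Real.log ((⨆ j, absv p (x j)) ^ d / absv p (MvPolynomial.aeval x F))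

/-- The sum over `i` of `1 / d i` times the proximity function of `F i = 0` at `x`, in absolute
normalisation, for the finite set `T` of places of `L`, with factors `a p`. -/
noncomputable def proximity {K L : Type} [Field K] [Field L] [NumberField L] [Algebra K L]
    {n q : ℕ} (T : Finset (Place L)) (a : Place L → ℝ) (F : Fin q → MvPolynomial (Fin n) K)
    (d : Fin q → ℕ) (x : Fin n → L) : ℝ :=
  (∑ p ∈ T, a p * (weight p * ∑ i, weil p (d i) (F i) x / d i)) / Module.finrank ℚ L

/-- The absolute logarithmic height. -/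
noncomputable def height {L : Type} [Field L] [NumberField L] {n : ℕ} (x : Fin n → L) : ℝ :=
  Height.logHeight x / Module.finrank ℚ L

/-- The residue field over `K` of the point with homogeneous coordinates `x` in `L` is `L`. -/
def ResidueField (K : Type) {L : Type} [Field K] [Field L] [Algebra K L] {n : ℕ}
    (x : Fin n → L) : Prop :=
  IntermediateField.adjoin K {z : L | ∃ i j, z = x i / x j} = ⊤

/-- The constant `c(ν, ρ) = (ν + 1) / (1 - ν (ρ - 1) (1 - (1 - 1 / ρ) ^ (1 / ν)))`. -/
noncomputable def c (ν : ℕ) (ρ : ℝ) : ℝ :=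
  (ν + 1) / (1 - ν * (ρ - 1) * (1 - (1 - 1 / ρ) ^ (1 / (ν : ℝ))))

/-- Let `X = {G = 0}` be a projective scheme in `ℙ^(n-1)` over a number field `K`, all of whose
irreducible closed subsets have dimension at most `ν0` (`hdim`, for the affine cone), let
`D i = X ∩ {F i = 0}`, `i < q`, be hypersurface sections of degrees `d i ≥ 1`, no `N + 1` of which
have a common point, and let `r ≥ 1`. Let `k ≥ 1` be a function on `[1, r]` with
`(N + 1 - ν) c(ν, ρ) ≤ k(ρ)` for `1 ≤ ν ≤ ν0`. For every `ε > 0` and every finite set `S` of primes of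
`K` there is `C` such that for EVERY point `x` of `X` of degree at most `r` over `K` (with residue
field `L`) which is in no `D i`, and every finite set `T` of places of `L` which are archimedean or
lie over `S`:

* the sum over the places `w` in `T` of `(∑ i, λ_{D i, w}(x) / d i) / k(ρ_w)` is at most
  `(1 + ε) h(x) + C`;
* `∑ i, m_{T, D i}(x) / d i ≤ (κ + ε) h(x) + C` for all `κ ≤ κ0` with `k(ρ_w) ≤ κ` for `w ∈ T`.

Here `2 ν ρ` is an upper bound for `c(ν, ρ)`, with equality for `ν = 1`. -/
theorem result (K : Type) [Field K] [NumberField K] (m n q N ν0 r : ℕ) (hr : 1 ≤ r)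
    (G : Fin m → MvPolynomial (Fin n) K) (g : Fin m → ℕ) (hG : ∀ k, (G k).IsHomogeneous (g k))
    (hdim : ∀ P : Ideal (MvPolynomial (Fin n) K), P.IsPrime → Ideal.span (Set.range G) ≤ P →
      Algebra.trdeg K (MvPolynomial (Fin n) K ⧸ P) ≤ (ν0 : Cardinal) + 1)
    (F : Fin q → MvPolynomial (Fin n) K) (d : Fin q → ℕ) (hd : ∀ i, 1 ≤ d i)
    (hF : ∀ i, (F i).IsHomogeneous (d i))
    (hsub : ∀ (e : Fin (N + 1) ↪ Fin q) (L : Type) [Field L] [Algebra K L] (x : Fin n → L),
      On G x → (∀ k, MvPolynomial.aeval x (F (e k)) = 0) → x = 0)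
    (k : ℝ → ℝ) (hk1 : ∀ ρ : ℝ, 1 ≤ ρ → ρ ≤ r → 1 ≤ k ρ)
    (hk : ∀ ν : ℕ, 1 ≤ ν → ν ≤ ν0 → ∀ ρ : ℝ, 1 ≤ ρ → ρ ≤ r → (N + 1 - ν) * c ν ρ ≤ k ρ) :
    ((∀ ρ : ℝ, 1 ≤ ρ → c 1 ρ = 2 * ρ) ∧
      ∀ (ν : ℕ) (ρ : ℝ), 1 ≤ ν → 1 ≤ ρ → c ν ρ ≤ 2 * ν * ρ) ∧
    ∀ (κ0 ε : ℝ), 0 < ε → ∀ S : Finset (HeightOneSpectrum (𝓞 K)), ∃ C : ℝ,
      ∀ (L : Type) [Field L] [NumberField L] [Algebra K L], Module.finrank K L ≤ r →
        ∀ x : Fin n → L, x ≠ 0 → ResidueField K x → On G x →
          (∀ i, MvPolynomial.aeval x (F i) ≠ 0) →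
          ∀ T : Finset (Place L), (∀ p ∈ T, Above S p) →
            proximity T (fun p => (k (ratio K p))⁻¹) F d x ≤ (1 + ε) * height x + C ∧
            ∀ κ : ℝ, 0 ≤ κ → κ ≤ κ0 → (∀ p ∈ T, k (ratio K p) ≤ κ) →
              proximity T (fun _ => 1) F d x ≤ (κ + ε) * height x + C := by
  classical
  have hweil : ∀ (L : Type) [Field L] [NumberField L] [Algebra K L] (p : Place L) (e : ℕ)
      (H : MvPolynomial (Fin n) K) (x : Fin n → L), weil p e H x =
      Pool.Agent.W180.OP.lam (Pool.Agent.W180.OP.av p) e (Pool.Agent.W180.OP.bc L H) x := by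
    intro L _ _ _ p e H x
    unfold weil Pool.Agent.W180.OP.lam
    rw [Pool.Agent.W180.OP.eval_bc]
    cases p <;> rfl
  have hw : ∀ (L : Type) [Field L] [NumberField L] (p : Place L),
      weight p = Pool.Agent.W180.OP.wt p := by
    intro L _ _ p
    cases p <;> rfl
  have hprox : ∀ (L : Type) [Field L] [NumberField L] [Algebra K L] (T : Finset (Place L))
      (a : Place L → ℝ) (x : Fin n → L), proximity T a F d x =
      (∑ p ∈ T, a p * (Pool.Agent.W180.OP.wt p * ∑ i,
      Pool.Agent.W180.OP.lam (Pool.Agent.W180.OP.av p) (d i)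
        (Pool.Agent.W180.OP.bc L (F i)) x / d i)) / Module.finrank ℚ L := by
    intro L _ _ _ T a x
    unfold proximity
    congr 1
    refine Finset.sum_congr rfl fun p _ => ?_
    rw [hw]
    congr 2
    exact Finset.sum_congr rfl fun i _ => by rw [hweil]
  have hlo : ∀ (L : Type) [Field L] [NumberField L] [Algebra K L] (p : Place L),
      localDegree K p = Pool.Agent.NH28.lo K p := by
    intro L _ _ _ p
    cases p <;> rfl
  refine ⟨⟨?_, fun ν ρ hν hρ => Pool.Agent.H426.Ru.cstR_le hν hρ⟩, ?_⟩
  · intro ρ hρ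
    have h0 : ρ ≠ 0 := by linarith
    unfold c
    push_cast
    rw [div_one, Real.rpow_one]
    have e1 : 1 - 1 * (ρ - 1) * (1 - (1 - 1 / ρ)) = 1 / ρ := by
      field_simp
      ring
    rw [e1]
    field_simp
    norm_num
  intro κ0 ε hε S
  set κ1 : ℝ := max κ0 1 with hκ1
  have hκ11 : 1 ≤ κ1 := le_max_right _ _
  have hκ10 : 0 < κ1 := by linarith
  set ε1 : ℝ := ε / κ1 with hε1
  have hε10 : 0 < ε1 := div_pos hε hκ10
  have hεε : ε1 * κ1 ≤ ε := by
    rw [hε1, div_mul_cancel₀ _ hκ10.ne']
  have hε1ε : ε1 ≤ ε := div_le_self hε.le hκ11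
  set S' : Finset (Pool.Agent.W180.OP.Pl K) := Finset.univ.image Sum.inl ∪ S.image Sum.inr with hS'
  obtain ⟨C, hC0, hC⟩ := Pool.Agent.H426.Ru.bd_all hr G g hG hdim F d hd hF
    (fun e L _ _ x h1 h2 => hsub e L x h1 h2) k ε1 hε10 hk1 hk S'
  obtain ⟨C', hC'0, hC'⟩ := Pool.Agent.H426.Ru.Bd.unif (r := r) hk1 F d hd hF κ1 ε hκ10.le hεε
    hε10.le S' C hC0
  refine ⟨C + C', ?_⟩
  intro L _ _ _ hrL x hx hres hGx hFx T hT
  have hN : (1 : ℝ) ≤ Module.finrank ℚ L := by
    exact_mod_cast (Module.finrank_pos : 0 < Module.finrank ℚ L)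
  have hN0 : (0 : ℝ) < Module.finrank ℚ L := by linarith
  have hh := Height.logHeight_nonneg x
  obtain ⟨V, hV⟩ := Pool.Agent.NH28.exists_V S' T (by
    intro w hw
    have h2 := hT w hw
    cases w with
    | inl w =>
      refine ⟨Sum.inl (w.comap (algebraMap K L)), ?_, rfl⟩
      exact Finset.mem_union_left _ (Finset.mem_image_of_mem _ (Finset.mem_univ _))
    | inr w =>
      obtain ⟨v, hv, hvw⟩ := h2
      exact ⟨Sum.inr v, Finset.mem_union_right _ (Finset.mem_image_of_mem _ hv), hvw⟩)
    (Sum.inl (Classical.arbitrary _))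
  have hratio : ∀ w ∈ T, (Module.finrank K L : ℝ) / Pool.Agent.NH28.nn (V w) w = ratio K w := by
    intro w hw
    rw [Pool.Agent.NH28.nn_eq_lo (hV w hw).2, ← hlo]
    rfl
  have hIx : ∀ p ∈ Ideal.span (Set.range G), MvPolynomial.aeval x p = 0 := by
    intro p hp
    have h4 : Ideal.span (Set.range G) ≤
        RingHom.ker (MvPolynomial.aeval x : MvPolynomial (Fin n) K →ₐ[K] L) := by
      rw [Ideal.span_le]
      rintro _ ⟨k, rfl⟩
      exact hGx k
    exact h4 hp
  have h1 := hC L hrL x hx hIx hres (by rw [map_one]; exact one_ne_zero) hFx T V hV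
  have hle : ∀ {A B : ℝ}, A ≤ B * Height.logHeight x + C →
      A / Module.finrank ℚ L ≤ B * height x + (C + C') := by
    intro A B h
    rw [div_le_iff₀ hN0]
    have e1 : (B * height x + (C + C')) * Module.finrank ℚ L =
        B * Height.logHeight x + (C + C') * Module.finrank ℚ L := by
      unfold height
      field_simp
    rw [e1]
    have h2 : C + C' ≤ (C + C') * Module.finrank ℚ L := le_mul_of_one_le_right (by linarith) hN
    linarith
  have hle' : ∀ {A B : ℝ}, A ≤ B * Height.logHeight x + C' →
      A / Module.finrank ℚ L ≤ B * height x + (C + C') := by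
    intro A B h
    rw [div_le_iff₀ hN0]
    have e1 : (B * height x + (C + C')) * Module.finrank ℚ L =
        B * Height.logHeight x + (C + C') * Module.finrank ℚ L := by
      unfold height
      field_simp
    rw [e1]
    have h2 : C + C' ≤ (C + C') * Module.finrank ℚ L := le_mul_of_one_le_right (by linarith) hN
    linarith
  refine ⟨?_, ?_⟩
  · rw [hprox]
    have h2 : (1 + ε1) * Height.logHeight x + C ≤ (1 + ε) * Height.logHeight x + C := by
      have h4 := mul_le_mul_of_nonneg_right hε1ε hh
      linarith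
    refine hle (le_trans (le_of_eq ?_) (h1.trans h2))
    refine Finset.sum_congr rfl fun w hw => ?_
    rw [hratio w hw, div_eq_inv_mul]
  · intro κ hκ hκκ hkκ
    have h2 := hC' L hrL x hx hFx T V hV h1 κ hκ (hκκ.trans (le_max_left _ _)) (by
      intro w hw
      rw [hratio w hw]
      exact hkκ w hw)
    rw [hprox]
    simp only [one_mul]
    exact hle' h2

end Pool.Agent.Results.MP_651af7_nt.AllPoints
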