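import Pool.Agent.H426.Ru.Fam2

/-!
The estimate for bases of forms of one degree, in a convenient form.
-/

set_option autoImplicit false

namespace Pool.Agent.H426.Ru

open MvPolynomial Finset NumberField IsDedekindDomain Height Module
open Pool.Agent.W180.OP Pool.Agent.W180.TP Pool.Agent.TH875 Pool.Agent.NH28

theorem main_f {K : Type} [Field K] [NumberField K] {n m M r : ℕ} (hr : 1 ≤ r)
    (G : Fin m → MvPolynomial (Fin n) K)
    (hprime : (Ideal.span (Set.range G)).IsPrime) {Sy : Type} [Fintype Sy]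
    {κ : Sy → Type} [∀ e, Fintype (κ e)] (P : ∀ e, κ e → MvPolynomial (Fin n) K)
    (hPh : ∀ e s, (P e s).IsHomogeneous M)
    (hind : ∀ e, LinearIndependent K (fun s =>
      Ideal.Quotient.mkₐ K (Ideal.span (Set.range G)) (P e s)))
    (hN1 : 1 ≤ finrank K (VM (Ideal.span (Set.range G)) M))
    (hcard : ∀ e, Fintype.card (κ e) = finrank K (VM (Ideal.span (Set.range G)) M))
    (C1 : ℝ) (hC1 : ThetaP K n r C1) (c0 : ℝ) (hc0 : 0 ≤ c0) :
    ∃ Z : MvPolynomial (Fin n) K, Z ∉ Ideal.span (Set.range G) ∧ (∃ t, Z.IsHomogeneous t) ∧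
      ∀ (S : Finset (Pl K)) (Jb : ℝ), 0 ≤ Jb → ∃ C : ℝ, 0 ≤ C ∧
        ∀ (L : Type) [Field L] [NumberField L] [Algebra K L],
        finrank K L ≤ r → ∀ x : Fin n → L, x ≠ 0 → (∀ k, aeval x (G k) = 0) →
        IntermediateField.adjoin K {z | ∃ i j, z = x i / x j} = ⊤ → aeval x Z ≠ 0 →
        ∀ e : Pl L → Sy, ∀ (T : Finset (Pl L)) (V : Pl L → Pl K),
        (∀ w ∈ T, V w ∈ S ∧ Ov (V w) w) → ∀ l : ∀ w, κ (e w) → ℝ,
        (∀ w ∈ T, ∀ s, 0 ≤ l w s ∧
          nn (V w) w * l w s ≤ wt w * lam (av w) M (bc L (P (e w) s)) x + c0) →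
        ∀ b : Pl L → ℝ, (∀ w ∈ T, 0 ≤ b w ∧ b w ≤ Jb * (logHeight x + 1)) →
        ∑ w ∈ T, (nn (V w) w * b w - finrank K L /
          (finrank K (VM (Ideal.span (Set.range G)) M) : ℝ) * ∑ s, max (b w - l w s) 0) ≤
            (M + C1 + 1) * logHeight x + C := by
  classical
  obtain ⟨I, hI⟩ : ∃ I, I = Ideal.span (Set.range G) := ⟨_, rfl⟩
  rw [← hI] at hprime hind hN1 hcard ⊢
  have hfin : FiniteDimensional K (VM I M) := VM_finite I M
  obtain ⟨N, hN⟩ : ∃ N, N = Module.finrank K (VM I M) := ⟨_, rfl⟩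
  rw [← hN] at hN1 hcard ⊢
  obtain ⟨sec, hsec⟩ := exists_sec I M
  set b0 : Module.Basis (Fin N) K (VM I M) := Module.finBasisOfFinrankEq K (VM I M) hN.symm with hb0
  have hmemV : ∀ e, ∀ s : κ e, Ideal.Quotient.mkₐ K I (P e s) ∈ VM I M :=
    fun e s => ⟨_, hPh e s, rfl⟩
  set u : ∀ e, κ e → VM I M := fun e s => ⟨Ideal.Quotient.mkₐ K I (P e s), hmemV e s⟩ with hu
  have hindu : ∀ e, LinearIndependent K (u e) := fun e =>
    LinearIndependent.of_comp (VM I M).subtype (hind e)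
  -- the constants
  choose Cf hCf0 hCf using fun (t : Σ e, κ e) => form_ub (P t.1 t.2) (hPh t.1 t.2)
  have hCfs : 0 ≤ ∑ t, Cf t := Finset.sum_nonneg fun t _ => hCf0 t
  set Q : ℝ := (finrank ℚ K : ℝ) * r with hQ
  have hQ0 : 0 ≤ Q := by positivity
  set c1 : ℝ := c0 + (∑ t, Cf t) * Q with hc1
  have hc10 : 0 ≤ c1 := by positivity
  obtain ⟨Z, hZI, ⟨tZ, hZh⟩, hmain⟩ := glob_f hN1 I hprime G hI P sec hsec u (fun _ _ => rfl) hindu
    hN.symm b0 r hr C1 hC1 c1 hc10
  have hPI : ∀ e s, P e s ∉ I := by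
    intro e s h
    exact (hind e).ne_zero s (Ideal.Quotient.eq_zero_iff_mem.2 h)
  refine ⟨Z * ∏ e, ∏ s, P e s, ?_, ⟨_, hZh.mul (IsHomogeneous.prod _ _ _ fun e _ =>
    IsHomogeneous.prod _ _ _ fun s _ => hPh e s)⟩, ?_⟩
  · intro h
    rcases hprime.mem_or_mem h with h | h
    · exact hZI h
    · rw [hprime.prod_mem_iff] at h
      obtain ⟨e, _, h⟩ := h
      rw [hprime.prod_mem_iff] at h
      obtain ⟨s, _, h⟩ := h
      exact hPI e s h
  intro S Jb hJb
  -- enlarge `S`
  choose Tb hTb using fun j => exists_bad (sec (b0 j))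
  set S' : Finset (Pl K) := S ∪ (Finset.univ.image Sum.inl ∪
    Finset.univ.biUnion fun j => (Tb j).image Sum.inr) with hS'
  obtain ⟨C, hC0, hC⟩ := hmain S' (fun v => by
    rw [hS']
    exact Finset.mem_union_right _ (Finset.mem_union_left _
      (Finset.mem_image_of_mem _ (Finset.mem_univ v)))) (fun v hv j => by
    refine hTb j v fun hvT => hv ?_
    rw [hS']
    refine Finset.mem_union_right _ (Finset.mem_union_right _ ?_)
    exact Finset.mem_biUnion.2 ⟨j, Finset.mem_univ j, Finset.mem_image_of_mem _ hvT⟩) Jb hJb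
  refine ⟨C, hC0, ?_⟩
  intro L _ _ _ hrL x hx hGx hadj hZx e T V hT l hl b hb
  rw [map_mul] at hZx
  have hPx : ∀ e s, aeval x (P e s) ≠ 0 := by
    have h1 := right_ne_zero_of_mul hZx
    rw [map_prod, Finset.prod_ne_zero_iff] at h1
    intro e k
    have h2 := h1 e (Finset.mem_univ _)
    rw [map_prod, Finset.prod_ne_zero_iff] at h2
    exact h2 k (Finset.mem_univ _)
  have hfq : (finrank ℚ L : ℝ) ≤ Q := by
    have h1 : finrank ℚ K * finrank K L = finrank ℚ L := finrank_mul_finrank ℚ K L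
    rw [hQ, ← h1]
    push_cast
    exact mul_le_mul_of_nonneg_left (by exact_mod_cast hrL) (Nat.cast_nonneg _)
  have hfq0 : (0 : ℝ) ≤ finrank ℚ L := Nat.cast_nonneg _
  have hh := logHeight_nonneg x
  have hlow : ∀ w e s, 0 ≤ wt w * lam (av w) M (bc L (P e s)) x + c1 := by
    intro w e s
    have h1 := hCf ⟨e, s⟩ L w x hx (hPx e s)
    have h2 : Cf ⟨e, s⟩ ≤ ∑ t, Cf t :=
      Finset.single_le_sum (f := Cf) (fun t _ => hCf0 t) (Finset.mem_univ _)
    have h3 : Cf ⟨e, s⟩ * finrank ℚ L ≤ (∑ t, Cf t) * Q := mul_le_mul h2 hfq hfq0 hCfs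
    have h4 : -(wt w * lam (av w) M (bc L (P e s)) x) ≤ Cf ⟨e, s⟩ * finrank ℚ L := h1
    rw [hc1]
    linarith
  set l' : ∀ w, κ (e w) → ℝ := fun w s => if w ∈ T then l w s else 0 with hl'
  set b' : Pl L → ℝ := fun w => if w ∈ T then b w else 0 with hb'
  have h1 := hC L hrL x hx hGx hadj (left_ne_zero_of_mul hZx) e (fun w s => hPx _ _) l' (by
    intro w s
    simp only [hl']
    split_ifs with h
    · exact (hl w h s).1
    · exact le_rfl) (by
    intro v hv w hw s
    simp only [hl']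
    split_ifs with h
    · have h2 := (hl w h s).2
      have h3 : V w = v := ov_unique (hT w h).2 (mem_ab.1 hw)
      rw [h3] at h2
      refine h2.trans ?_
      have : 0 ≤ (∑ t, Cf t) * Q := by positivity
      rw [hc1]
      linarith
    · rw [mul_zero]
      exact hlow w _ s) b' (by
    intro w
    simp only [hb']
    split_ifs with h
    · exact hb w h
    · exact ⟨le_rfl, by positivity⟩)
  refine le_trans (le_of_eq ?_) h1
  -- the sum over `T`
  have hTS : T = S'.biUnion fun v => (ab L v).filter fun w => w ∈ T := by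
    ext w
    rw [Finset.mem_biUnion]
    constructor
    · intro hw
      obtain ⟨hv, hvw⟩ := hT w hw
      exact ⟨V w, Finset.mem_union_left _ hv, Finset.mem_filter.2 ⟨mem_ab.2 hvw, hw⟩⟩
    · rintro ⟨v, _, hw⟩
      exact (Finset.mem_filter.1 hw).2
  have hdisj : (S' : Set (Pl K)).PairwiseDisjoint fun v => (ab L v).filter fun w => w ∈ T := by
    intro v _ v' _ hne
    rw [Function.onFun, Finset.disjoint_left]
    intro w hw hw'
    exact hne (ov_unique (mem_ab.1 (Finset.mem_filter.1 hw).1) (mem_ab.1 (Finset.mem_filter.1 hw').1))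
  conv_lhs => rw [hTS]
  rw [Finset.sum_biUnion hdisj]
  refine Finset.sum_congr rfl fun v _ => ?_
  rw [Finset.sum_filter]
  refine Finset.sum_congr rfl fun w hw => ?_
  split_ifs with h
  · have h3 : V w = v := ov_unique (hT w h).2 (mem_ab.1 hw)
    simp only [hb', hl', if_pos h]
    rw [hcard, sub_self, zero_mul, add_zero, h3]
  · simp only [hb', hl', if_neg h]
    simp

end Pool.Agent.H426.Ru
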