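import Pool.Agent.H426.Ru.P3

/-!
The inequality for linear forms on `ℙ^n`, `1 ≤ n ≤ 3`.
-/

set_option autoImplicit false

namespace Pool.Agent.H426.Ru

open MvPolynomial Finset NumberField IsDedekindDomain Height Module
open Pool.Agent.W180.OP Pool.Agent.W180.TP Pool.Agent.NH28

/-- the linear form with coefficients `a` -/
noncomputable def lin {K : Type} [Field K] {n : ℕ} (a : Fin n → K) : MvPolynomial (Fin n) K :=
  ∑ j, C (a j) * X j

lemma lin_hom {K : Type} [Field K] {n : ℕ} (a : Fin n → K) : (lin a).IsHomogeneous 1 := by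
  refine IsHomogeneous.sum _ _ _ fun i _ => ?_
  have := (isHomogeneous_C (Fin n) (a i)).mul (isHomogeneous_X K i)
  rwa [zero_add] at this

lemma aeval_lin {K L : Type} [Field K] [Field L] [Algebra K L] {n : ℕ} (a : Fin n → K)
    (x : Fin n → L) : aeval x (lin a) = ∑ j, algebraMap K L (a j) * x j := by
  simp [lin]

lemma emb_ind {K : Type} [Field K] {n q m : ℕ} {a : Fin q → Fin n → K}
    (hgp : ∀ s : Finset (Fin q), s.card ≤ m → LinearIndependent K (fun i : s => a i))
    {k : ℕ} (hk : k ≤ m) (e : Fin k ↪ Fin q) : LinearIndependent K (fun i => a (e i)) := by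
  have h1 := hgp (Finset.univ.map e) (by simpa using hk)
  exact h1.comp (fun i : Fin k => ⟨e i, Finset.mem_map_of_mem _ (Finset.mem_univ _)⟩)
    (fun i j hij => e.injective (Subtype.ext_iff.1 hij))

lemma lin_ind {K : Type} [Field K] {n k : ℕ} {b : Fin k → Fin n → K}
    (hb : LinearIndependent K b) : LinearIndependent K (fun i => lin (b i)) := by
  classical
  rw [Fintype.linearIndependent_iff] at hb ⊢
  intro g hg
  refine hb g ?_
  funext j
  have h1 : (fun i => lin (b i)) = fun i => ∑ j, b i j • (X j : MvPolynomial (Fin n) K) := by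
    funext i
    unfold lin
    exact Finset.sum_congr rfl fun j _ => by rw [MvPolynomial.smul_eq_C_mul]
  have h2 : ∑ j, (∑ i, g i * b i j) • (X j : MvPolynomial (Fin n) K) = 0 := by
    have h3 : ∑ i, g i • lin (b i) = ∑ i, g i • ∑ j, b i j • (X j : MvPolynomial (Fin n) K) :=
      Finset.sum_congr rfl fun i _ => congrArg _ (congrFun h1 i)
    rw [← hg, h3]
    simp_rw [Finset.smul_sum, smul_smul, Finset.sum_smul]
    rw [Finset.sum_comm]
  have h3 : coeff (Finsupp.single j 1) (∑ j, (∑ i, g i * b i j) • (X j : MvPolynomial (Fin n) K)) =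
      ∑ i, g i * b i j := by
    rw [coeff_sum, Finset.sum_eq_single j]
    · simp
    · intro j' _ hj'
      rw [coeff_smul, coeff_X, if_neg, smul_zero]
      intro h
      exact hj' ((Finsupp.single_left_inj one_ne_zero).1 h)
    · intro h
      exact absurd (Finset.mem_univ j) h
  rw [h2, coeff_zero] at h3
  rw [Finset.sum_apply]
  simpa using h3.symm

lemma lin_no_zero {K L : Type} [Field K] [Field L] [Algebra K L] {n : ℕ}
    {b : Fin n → Fin n → K} (hb : LinearIndependent K b) (x : Fin n → L)
    (h : ∀ i, aeval x (lin (b i)) = 0) : x = 0 := by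
  classical
  set A : Matrix (Fin n) (Fin n) K := Matrix.of b with hA
  have hdet : A.det ≠ 0 := by
    have h1 : IsUnit A := Matrix.linearIndependent_rows_iff_isUnit.1 hb
    exact ((Matrix.isUnit_iff_isUnit_det A).1 h1).ne_zero
  have hdet' : (A.map (algebraMap K L)).det ≠ 0 := by
    have : (A.map (algebraMap K L)).det = algebraMap K L A.det := (RingHom.map_det _ _).symm
    rw [this]
    simpa using hdet
  refine Matrix.eq_zero_of_mulVec_eq_zero hdet' ?_
  funext i
  have := h i
  rw [aeval_lin] at this
  simpa [Matrix.mulVec, dotProduct, hA] using this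

section

variable {K : Type} [Field K] [NumberField K]

theorem pn_all {n q r : ℕ} (hn1 : 1 ≤ n) (hn : n ≤ 3) (hr : 1 ≤ r) (a : Fin q → Fin (n + 1) → K)
    (hgp : ∀ s : Finset (Fin q), s.card ≤ n + 1 → LinearIndependent K (fun i : s => a i))
    (ρ : ℝ) (hρ : 1 ≤ ρ) (ε : ℝ) (hε : 0 < ε) :
    BdC r ρ (2 * n * ρ) ε (fun i => lin (a i)) (fun _ => 1) ⊥ 1 := by
  classical
  rcases Nat.lt_or_ge n 3 with h3 | h3
  · have hn1' : (1 : ℝ) ≤ n := by exact_mod_cast hn1
    set ε1 : ℝ := ε / (2 * n * ρ) with hε1
    have hε10 : 0 < ε1 := by positivity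
    have hεε : ε1 * (2 * n * ρ) ≤ ε := by
      rw [hε1]
      exact le_of_eq (by field_simp)
    have hk1 : ∀ s : ℝ, 1 ≤ s → s ≤ r → 1 ≤ 2 * n * s := fun s hs _ => by nlinarith
    have hd : ∀ i : Fin q, 1 ≤ (fun _ : Fin q => 1) i := fun _ => le_rfl
    have hbot : (Ideal.span (Set.range (Fin.elim0 : Fin 0 → MvPolynomial (Fin (n + 1)) K))) = ⊥ := by
      simp
    have h1 := bd_all (n := n + 1) (N := n) (ν0 := n) hr
      (Fin.elim0 : Fin 0 → MvPolynomial (Fin (n + 1)) K)
      Fin.elim0 (fun k => k.elim0) (by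
        intro P _ _
        have h1 : ((n + 1 : ℕ) : Cardinal) = (n : Cardinal) + 1 := by push_cast; rfl
        rw [← h1, ← trdeg_poly (K := K) (n := n + 1)]
        exact _root_.trdeg_le_of_surjective (Ideal.Quotient.mkₐ K _)
          (Ideal.Quotient.mkₐ_surjective K _)) (fun i => lin (a i)) (fun _ => 1) hd
      (fun i => lin_hom _) (by
        intro e L _ _ x _ h2
        exact lin_no_zero (emb_ind hgp le_rfl e) x h2) (fun s => 2 * n * s) ε1 hε10 hk1 (by
        intro ν hν1 hν2 s hs _
        have h2 := cstR_le hν1 hs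
        have h4 : (0 : ℝ) ≤ (n : ℝ) + 1 - ν := by
          have : (ν : ℝ) ≤ n := by exact_mod_cast hν2
          linarith
        refine (mul_le_mul_of_nonneg_left h2 h4).trans ?_
        have h5 : (ν : ℝ) = 1 ∨ (ν : ℝ) = n := by
          rcases Nat.lt_or_ge ν 2 with h | h
          · left
            have : ν = 1 := by omega
            rw [this]
            norm_num
          · right
            have : ν = n := by omega
            rw [this]
        rcases h5 with h5 | h5
        · rw [h5]
          exact le_of_eq (by ring)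
        · rw [h5]
          exact le_of_eq (by ring))
    rw [hbot] at h1
    exact h1.toC hk1 hd (fun i => lin_hom _) (by positivity)
      (fun s _ hs => mul_le_mul_of_nonneg_left hs (by positivity)) hεε hε10.le
  · have hn3 : n = 3 := by omega
    subst hn3
    have h1 := p3_all hr (fun i => lin (a i)) (fun i => lin_hom _)
      (fun k hk e => lin_ind (emb_ind hgp hk e)) ρ hρ ε hε
    have h2 : (2 * ((3 : ℕ) : ℝ) * ρ) = 6 * ρ := by
      push_cast
      ring
    rw [h2]
    exact h1

end

end Pool.Agent.H426.Ru
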