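import Pool.Graph.R_pool_sql_team_seeded_3dad9d7b.NH28.Mono

/-!
Noetherian induction over homogeneous ideals; primes of transcendence degree at most one.
-/

set_option autoImplicit false

namespace Pool.Agent.H426.Ru

open MvPolynomial Finset Module

/-- the ideal is generated by finitely many forms -/
def HG {K : Type} [Field K] {n : ℕ} (I : Ideal (MvPolynomial (Fin n) K)) : Prop :=
  ∃ (m : ℕ) (G : Fin m → MvPolynomial (Fin n) K) (g : Fin m → ℕ),
    (∀ k, (G k).IsHomogeneous (g k)) ∧ I = Ideal.span (Set.range G)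

section

attribute [local instance] MvPolynomial.gradedAlgebra

variable {K : Type} [Field K] {n : ℕ}

lemma HG.add {I : Ideal (MvPolynomial (Fin n) K)} (h : HG I) {Z : MvPolynomial (Fin n) K} {t : ℕ}
    (hZ : Z.IsHomogeneous t) : HG (I ⊔ Ideal.span {Z}) := by
  obtain ⟨m, G, g, hG, rfl⟩ := h
  refine ⟨m + 1, Fin.cons Z G, Fin.cons t g, ?_, ?_⟩
  · intro k
    refine Fin.cases ?_ (fun k => ?_) k
    · simpa using hZ
    · simpa using hG k
  · rw [Fin.range_cons, Set.insert_eq, Ideal.span_union, sup_comm]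

lemma HG.isHomogeneous {I : Ideal (MvPolynomial (Fin n) K)} (h : HG I) :
    I.IsHomogeneous (homogeneousSubmodule (Fin n) K) := by
  obtain ⟨m, G, g, hG, rfl⟩ := h
  refine Ideal.homogeneous_span _ _ ?_
  rintro _ ⟨k, rfl⟩
  exact ⟨g k, hG k⟩

lemma lt_add {I : Ideal (MvPolynomial (Fin n) K)} {Z : MvPolynomial (Fin n) K} (hZ : Z ∉ I) :
    I < I ⊔ Ideal.span {Z} := by
  refine lt_of_le_of_ne le_sup_left fun h => hZ ?_
  rw [h]
  exact Ideal.mem_sup_right (Ideal.subset_span rfl)

/-- Noetherian induction -/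
theorem noeth (Q : Ideal (MvPolynomial (Fin n) K) → Prop)
    (I0 : Ideal (MvPolynomial (Fin n) K)) (h0 : HG I0) (htop : Q ⊤)
    (hprime : ∀ P : Ideal (MvPolynomial (Fin n) K), HG P → P.IsPrime → I0 ≤ P →
      ∃ (Z : MvPolynomial (Fin n) K) (t : ℕ), Z.IsHomogeneous t ∧ Z ∉ P ∧
        (Q (P ⊔ Ideal.span {Z}) → Q P))
    (hred : ∀ (I : Ideal (MvPolynomial (Fin n) K)) (a b : MvPolynomial (Fin n) K), HG I → I0 ≤ I →
      a * b ∈ I → Q (I ⊔ Ideal.span {a}) → Q (I ⊔ Ideal.span {b}) → Q I) : Q I0 := by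
  have key : ∀ I : Ideal (MvPolynomial (Fin n) K), HG I → I0 ≤ I → Q I := by
    intro I
    induction I using WellFoundedGT.induction with
    | ind I ih =>
      intro hI hle
      by_cases ht : I = ⊤
      · rw [ht]; exact htop
      by_cases hp : I.IsPrime
      · obtain ⟨Z, t, hZ, hZI, hQ⟩ := hprime I hI hp hle
        exact hQ (ih _ (lt_add hZI) (hI.add hZ) (hle.trans le_sup_left))
      · have h1 : ¬ ∀ {x y : MvPolynomial (Fin n) K},
            SetLike.IsHomogeneousElem (homogeneousSubmodule (Fin n) K) x →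
            SetLike.IsHomogeneousElem (homogeneousSubmodule (Fin n) K) y → x * y ∈ I →
            x ∈ I ∨ y ∈ I := fun h =>
          hp (hI.isHomogeneous.isPrime_of_homogeneous_mem_or_mem ht h)
        push Not at h1
        obtain ⟨a, b, ⟨s, ha⟩, ⟨t, hb⟩, hab, haI, hbI⟩ := h1
        exact hred I a b hI hle hab (ih _ (lt_add haI) (hI.add ha) (hle.trans le_sup_left))
          (ih _ (lt_add hbI) (hI.add hb) (hle.trans le_sup_left))
  exact key I0 h0 le_rfl

/-- the cone over a point -/
lemma cone {I : Ideal (MvPolynomial (Fin n) K)} (h : HG I) {L : Type} [Field L] [Algebra K L]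
    (x : Fin n → L) (hx : ∀ p ∈ I, aeval x p = 0) :
    ∀ p ∈ I, aeval (fun i => Polynomial.C (x i) * Polynomial.X : Fin n → Polynomial L) p = 0 := by
  obtain ⟨m, G, g, hG, rfl⟩ := h
  have key : ∀ (p : MvPolynomial (Fin n) K) (t : ℕ), p.IsHomogeneous t →
      aeval (fun i => Polynomial.C (x i) * Polynomial.X : Fin n → Polynomial L) p =
        Polynomial.C (aeval x p) * Polynomial.X ^ t := by
    intro p t hp
    rw [aeval_def, aeval_def, eval₂_eq, eval₂_eq, map_sum, Finset.sum_mul]
    refine Finset.sum_congr rfl fun β hβ => ?_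
    have hdeg : β.degree = t := by
      have := hp (mem_support_iff.1 hβ)
      exact (DFunLike.congr_fun (Finsupp.degree_eq_weight_one (σ := Fin n) (R := ℕ)) β).trans this
    rw [map_mul, map_prod, mul_assoc]
    congr 1
    simp only [mul_pow, Finset.prod_mul_distrib, map_pow]
    rw [Finset.prod_pow_eq_pow_sum]
    congr 1
    rw [← hdeg]
    rfl
  intro p hp
  refine Submodule.span_induction (p := fun p _ => aeval (fun i => Polynomial.C (x i) *
    Polynomial.X : Fin n → Polynomial L) p = 0) ?_ ?_ ?_ ?_ hp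
  · rintro _ ⟨k, rfl⟩
    rw [key _ _ (hG k), hx _ (Ideal.subset_span ⟨k, rfl⟩), map_zero, zero_mul]
  · exact map_zero _
  · intro a b _ _ ha hb
    rw [map_add, ha, hb, add_zero]
  · intro a b _ hb
    rw [smul_eq_mul, map_mul, hb, mul_zero]

/-- a nonzero multiple of the variable is transcendental -/
lemma tr_CX {L : Type} [Field L] [Algebra K L] {a : L} (ha : a ≠ 0) :
    Transcendental K (Polynomial.C a * Polynomial.X : Polynomial L) := by
  have h1 : Transcendental L (Polynomial.C a * Polynomial.X : Polynomial L) := by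
    refine Polynomial.transcendental _ ?_ ?_
    · rw [Polynomial.natDegree_C_mul_X _ ha]
      exact one_ne_zero
    · rw [Polynomial.leadingCoeff_C_mul_X]
      exact mem_nonZeroDivisors_of_ne_zero ha
  exact h1.restrictScalars (FaithfulSMul.algebraMap_injective K L)

/-- the coordinate ring of a nonzero point -/
lemma exists_phi {P : Ideal (MvPolynomial (Fin n) K)} (h : HG P) {L : Type} [Field L] [Algebra K L]
    (x : Fin n → L) (hx : ∀ p ∈ P, aeval x p = 0) (hx0 : x ≠ 0) :
    ∃ (φ : (MvPolynomial (Fin n) K ⧸ P) →ₐ[K] Polynomial L) (j : Fin n),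
      Transcendental K (φ (Ideal.Quotient.mkₐ K P (X j))) ∧
      ∀ (F : MvPolynomial (Fin n) K) (d : ℕ), F.IsHomogeneous d → aeval x F = 0 →
        φ (Ideal.Quotient.mkₐ K P F) = 0 := by
  obtain ⟨j, hj⟩ := Function.ne_iff.1 hx0
  refine ⟨Ideal.Quotient.liftₐ P (aeval (fun i => Polynomial.C (x i) * Polynomial.X :
    Fin n → Polynomial L)) (cone h x hx), j, ?_, ?_⟩
  · have e1 : (Ideal.Quotient.liftₐ P (aeval (fun i => Polynomial.C (x i) * Polynomial.X :
        Fin n → Polynomial L)) (cone h x hx)) (Ideal.Quotient.mkₐ K P (X j)) =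
        Polynomial.C (x j) * Polynomial.X := by
      have e2 := DFunLike.congr_fun (Ideal.Quotient.liftₐ_comp P
        (aeval (fun i => Polynomial.C (x i) * Polynomial.X : Fin n → Polynomial L))
        (cone h x hx)) (X j)
      rw [AlgHom.comp_apply, aeval_X] at e2
      exact e2
    rw [e1]
    exact tr_CX hj
  · intro F d hF hF0
    have hI : HG (Ideal.span {F} : Ideal (MvPolynomial (Fin n) K)) :=
      ⟨1, fun _ => F, fun _ => d, fun _ => hF, by simp⟩
    have h1 := cone hI x (by
      intro p hp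
      obtain ⟨c, rfl⟩ := Ideal.mem_span_singleton'.1 hp
      rw [map_mul, hF0, mul_zero]) F (Ideal.subset_span rfl)
    have e1 : (Ideal.Quotient.liftₐ P (aeval (fun i => Polynomial.C (x i) * Polynomial.X :
        Fin n → Polynomial L)) (cone h x hx)) (Ideal.Quotient.mkₐ K P F) =
        aeval (fun i => Polynomial.C (x i) * Polynomial.X : Fin n → Polynomial L) F := by
      have e2 := DFunLike.congr_fun (Ideal.Quotient.liftₐ_comp P
        (aeval (fun i => Polynomial.C (x i) * Polynomial.X : Fin n → Polynomial L))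
        (cone h x hx)) F
      rw [AlgHom.comp_apply] at e2
      exact e2
    rw [e1, h1]

lemma one_le_trdeg_of_tr {P : Ideal (MvPolynomial (Fin n) K)} {a : MvPolynomial (Fin n) K ⧸ P}
    (ha : Transcendental K a) : AlgebraicIndependent K (fun _ : Unit => a) := by
  exact algebraicIndependent_unique_type_iff.2 ha

/-- there is no point on the variety of a prime of transcendence degree zero -/
lemma eq_zero_of_trdeg_zero {P : Ideal (MvPolynomial (Fin n) K)} (h : HG P) [P.IsPrime]
    (htr : Algebra.trdeg K (MvPolynomial (Fin n) K ⧸ P) = 0) {L : Type} [Field L] [Algebra K L]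
    (x : Fin n → L) (hx : ∀ p ∈ P, aeval x p = 0) : x = 0 := by
  by_contra hx0
  obtain ⟨φ, j, hj, -⟩ := exists_phi h x hx hx0
  have h1 : Transcendental K (Ideal.Quotient.mkₐ K P (X j)) := fun hcon => hj (hcon.algHom φ)
  have h2 := (one_le_trdeg_of_tr h1).cardinalMk_le_trdeg
  rw [htr] at h2
  simp at h2

/-- a form which does not vanish identically on a point has no zero there -/
lemma eq_zero_of_trdeg_one {P : Ideal (MvPolynomial (Fin n) K)} (h : HG P) [P.IsPrime]
    (htr : Algebra.trdeg K (MvPolynomial (Fin n) K ⧸ P) = 1) {F : MvPolynomial (Fin n) K} {d : ℕ}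
    (hF : F.IsHomogeneous d) (hFP : F ∉ P) {L : Type} [Field L] [Algebra K L]
    (x : Fin n → L) (hx : ∀ p ∈ P, aeval x p = 0) (hFx : aeval x F = 0) : x = 0 := by
  by_contra hx0
  obtain ⟨φ, j, hj, hφ⟩ := exists_phi h x hx hx0
  have h1 : Transcendental K (Ideal.Quotient.mkₐ K P (X j)) := fun hcon => hj (hcon.algHom φ)
  have h2 := one_le_trdeg_of_tr h1
  have h3 := h2.isTranscendenceBasis_of_trdeg_le_of_finite (by rw [htr]; simp)
  have h4 := h3.isAlgebraic
  set S := Algebra.adjoin K (Set.range fun _ : Unit => Ideal.Quotient.mkₐ K P (X j)) with hS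
  have hF0 : Ideal.Quotient.mkₐ K P F ≠ 0 := fun h0 => hFP (Ideal.Quotient.eq_zero_iff_mem.1 h0)
  obtain ⟨s, hs0, hs⟩ := (h4.isAlgebraic (Ideal.Quotient.mkₐ K P F)).exists_nonzero_dvd
    (mem_nonZeroDivisors_of_ne_zero hF0)
  obtain ⟨c, hc⟩ := hs
  have h5 : φ (s : MvPolynomial (Fin n) K ⧸ P) = 0 := by
    have h6 : (s : MvPolynomial (Fin n) K ⧸ P) = Ideal.Quotient.mkₐ K P F * c := hc
    rw [h6, map_mul, hφ F d hF hFx, zero_mul]
  have h6 : (s : MvPolynomial (Fin n) K ⧸ P) ∈ Algebra.adjoin K {Ideal.Quotient.mkₐ K P (X j)} := by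
    have h7 : S = Algebra.adjoin K {Ideal.Quotient.mkₐ K P (X j)} := by rw [hS, Set.range_const]
    exact h7 ▸ s.2
  rw [Algebra.adjoin_singleton_eq_range_aeval] at h6
  obtain ⟨p, hp⟩ := h6
  have hp' : Polynomial.aeval (Ideal.Quotient.mkₐ K P (X j)) p = (s : MvPolynomial (Fin n) K ⧸ P) :=
    hp
  have h7 : Polynomial.aeval (φ (Ideal.Quotient.mkₐ K P (X j))) p = 0 := by
    rw [Polynomial.aeval_algHom_apply, hp', h5]
  have h8 := (transcendental_iff.1 hj) p h7
  rw [h8, map_zero] at hp'
  exact hs0 (Subtype.ext hp'.symm)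

end

end Pool.Agent.H426.Ru
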