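import Pool.Agent.H426.Ru.Surf2

/-!
The inequality on `ℙ³`, for all points of bounded degree.
-/

set_option autoImplicit false

namespace Pool.Agent.H426.Ru

open MvPolynomial Finset NumberField IsDedekindDomain Height Module
open Pool.Agent.W180.OP Pool.Agent.W180.TP Pool.Agent.NH28
open Pool.Agent.TH875 (not_all form_ub comb_le alg_ind)

section

variable {K : Type} [Field K] [NumberField K]

theorem p3_all {q r : ℕ} (hr : 1 ≤ r) (ℓ : Fin q → MvPolynomial (Fin 4) K)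
    (hℓ : ∀ i, (ℓ i).IsHomogeneous 1)
    (hgp : ∀ (k : ℕ), k ≤ 4 → ∀ e : Fin k ↪ Fin q, LinearIndependent K (fun i => ℓ (e i)))
    (ρ : ℝ) (hρ : 1 ≤ ρ) (ε : ℝ) (hε : 0 < ε) :
    BdC r ρ (6 * ρ) ε ℓ (fun _ => 1) ⊥ 1 := by
  classical
  set ε1 : ℝ := ε / (6 * ρ) with hε1
  have hε10 : 0 < ε1 := by positivity
  have hεε : ε1 * (6 * ρ) ≤ ε := by
    rw [hε1]
    exact le_of_eq (by field_simp)
  have hk1 : ∀ s : ℝ, 1 ≤ s → s ≤ r → 1 ≤ 6 * s := fun s hs _ => by linarith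
  have hd : ∀ i : Fin q, 1 ≤ (fun _ : Fin q => 1) i := fun _ => le_rfl
  have conv : ∀ {J : Ideal (MvPolynomial (Fin 4) K)} {Z : MvPolynomial (Fin 4) K},
      Bd r (fun s => 6 * s) ε1 ℓ (fun _ => 1) J Z → BdC r ρ (6 * ρ) ε ℓ (fun _ => 1) J Z :=
    fun h => h.toC hk1 hd hℓ (by linarith) (fun s _ hs => by linarith) hεε hε10.le
  refine noeth (fun J => BdC r ρ (6 * ρ) ε ℓ (fun _ => 1) J 1) ⊥
    ⟨0, Fin.elim0, Fin.elim0, fun k => k.elim0, by simp⟩ ?_ ?_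
    fun I a b _ _ hab => BdC.red hab
  · intro S
    refine ⟨0, le_rfl, ?_⟩
    intro L _ _ _ hrL x hx hJ
    have h1 := hJ 1 trivial
    rw [map_one] at h1
    exact absurd h1 one_ne_zero
  intro P hP hprime _
  have hHG := hP
  obtain ⟨m', G', g', hG', rfl⟩ := hP
  have h1P : (1 : MvPolynomial (Fin 4) K) ∉ Ideal.span (Set.range G') := fun h =>
    hprime.ne_top ((Ideal.eq_top_iff_one _).2 h)
  by_cases hFP : ∃ i, ℓ i ∈ Ideal.span (Set.range G')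
  · obtain ⟨i, hi⟩ := hFP
    refine ⟨1, 0, isHomogeneous_one _ _, h1P, fun _ S => ⟨0, le_rfl, ?_⟩⟩
    intro L _ _ _ hrL x hx hJ hadj _ hFx
    exact absurd (hJ _ hi) (hFx i)
  push Not at hFP
  have hgp' : ∀ e : Fin (3 + 1) ↪ Fin q, ∀ (L : Type) [Field L] [Algebra K L] (x : Fin 4 → L),
      (∀ k, aeval x (G' k) = 0) → (∀ k, aeval x (ℓ (e k)) = 0) → x = 0 := fun e L _ _ x _ h2 =>
    no_zero (fun i => ℓ (e i)) (fun i => hℓ _) (hgp 4 le_rfl e) L x h2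
  have hvan : ∀ (L : Type) [Field L] [Algebra K L] (x : Fin 4 → L),
      (∀ k, aeval x (G' k) = 0) → ∀ p ∈ Ideal.span (Set.range G'), aeval x p = 0 := by
    intro L _ _ x h1 p hp
    have h4 : Ideal.span (Set.range G') ≤ RingHom.ker (aeval x : MvPolynomial (Fin 4) K →ₐ[K] L) := by
      rw [Ideal.span_le]
      rintro _ ⟨k, rfl⟩
      exact h1 k
    exact h4 hp
  suffices key : ∃ (Z : MvPolynomial (Fin 4) K) (t : ℕ), Z.IsHomogeneous t ∧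
      Z ∉ Ideal.span (Set.range G') ∧
      BdC r ρ (6 * ρ) ε ℓ (fun _ => 1) (Ideal.span (Set.range G')) Z by
    obtain ⟨Z, t, hZ, hZP, hB⟩ := key
    exact ⟨Z, t, hZ, hZP, fun h => hB.glue h⟩
  rcases Nat.lt_or_ge q 4 with hq | hq
  · refine ⟨1, 0, isHomogeneous_one _ _, h1P, conv ?_⟩
    refine Bd.few ℓ (fun _ => 1) hd hℓ hε10 (fun s hs hsr => ⟨?_, hk1 s hs hsr⟩) _ 1
    have h3 : (q : ℝ) ≤ 3 := by exact_mod_cast Nat.lt_succ_iff.1 hq
    linarith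
  have htr0 : Algebra.trdeg K (MvPolynomial (Fin 4) K ⧸ Ideal.span (Set.range G')) ≤
      ((4 : ℕ) : Cardinal) := by
    rw [← trdeg_poly (K := K) (n := 4)]
    exact _root_.trdeg_le_of_surjective (Ideal.Quotient.mkₐ K _)
      (Ideal.Quotient.mkₐ_surjective K _)
  have hlt : Algebra.trdeg K (MvPolynomial (Fin 4) K ⧸ Ideal.span (Set.range G')) <
      Cardinal.aleph0 := htr0.trans_lt Cardinal.natCast_lt_aleph0
  obtain ⟨τ, hτ⟩ := Cardinal.lt_aleph0.1 hlt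
  rw [hτ] at htr0
  have hτ' : τ ≤ 4 := by exact_mod_cast htr0
  have hbig : ∀ ν : ℕ, 1 ≤ ν → (∀ s : ℝ, 1 ≤ s → s ≤ r → (((3 : ℕ) : ℝ) + 1 - ν) * cstR ν s ≤ 6 * s) →
      τ = ν + 1 → ∃ (Z : MvPolynomial (Fin 4) K) (t : ℕ), Z.IsHomogeneous t ∧
      Z ∉ Ideal.span (Set.range G') ∧
      BdC r ρ (6 * ρ) ε ℓ (fun _ => 1) (Ideal.span (Set.range G')) Z := by
    intro ν hν hkν hτν
    obtain ⟨Z, t, hZ, hZP, hB⟩ := step_big (N := 3) hν hr hq G' g' hG' hprime (by rw [hτ, hτν])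
      ℓ (fun _ => 1) hd hℓ hFP hgp' (fun s => 6 * s) ε1 hε10 hkν
    exact ⟨Z, t, hZ, hZP, conv hB⟩
  interval_cases τ
  · refine ⟨1, 0, isHomogeneous_one _ _, h1P, fun S => ⟨0, le_rfl, ?_⟩⟩
    intro L _ _ _ hrL x hx hJ
    exact absurd (eq_zero_of_trdeg_zero hHG (by rw [hτ]; simp) x hJ) hx
  · refine ⟨1, 0, isHomogeneous_one _ _, h1P, conv ?_⟩
    refine Bd.one G' g' hG' ℓ (fun _ => 1) hd hℓ hε10 hk1 ?_ 1
    intro i L _ _ x hx hFx
    exact eq_zero_of_trdeg_one hHG (by rw [hτ]; simp) (hℓ i) (hFP i) x (hvan L x hx) hFx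
  · refine hbig 1 le_rfl (fun s hs _ => ?_) rfl
    have := cstR_le (ν := 1) le_rfl hs
    push_cast at this ⊢
    linarith
  · obtain ⟨F, d, hF0, hd1, hF, hPF⟩ := exists_principal hHG hprime (by rw [hτ])
    rw [hPF] at hprime hτ hFP ⊢
    obtain ⟨Z, t, hZ, hZP, hB⟩ := surf_step hr hq ℓ hℓ hgp F hF0 hd1 hF hprime (by rw [hτ]) hFP
      ρ hρ ε hε
    exact ⟨Z, t, hZ, hZP, hB⟩
  · refine hbig 3 (by norm_num) (fun s hs _ => ?_) rfl
    have := cstR_le (ν := 3) (by norm_num) hs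
    push_cast at this ⊢
    linarith

end

end Pool.Agent.H426.Ru
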