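import Pool.Agent.H426.Ru.Noe

/-!
Homogeneous primes of codimension one are principal; strict monotonicity of the transcendence
degree.
-/

set_option autoImplicit false

namespace Pool.Agent.H426.Ru

open MvPolynomial Finset Module

section

variable {K : Type} [Field K]

/-- a proper quotient of a domain has smaller transcendence degree -/
lemma trdeg_lt_of_ker {A B : Type} [CommRing A] [IsDomain A] [CommRing B] [IsDomain B]
    [Algebra K A] [Algebra K B] (φ : A →ₐ[K] B) (hφ : Function.Surjective φ) {a : A} (ha : a ≠ 0)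
    (hφa : φ a = 0) (hfin : Algebra.trdeg K A < Cardinal.aleph0) :
    Algebra.trdeg K B < Algebra.trdeg K A := by
  by_contra hcon
  push Not at hcon
  obtain ⟨s, hs⟩ := exists_isTranscendenceBasis K B
  set x : s → B := fun i => (i : B) with hx
  choose y hy using fun i : s => hφ (x i)
  have hxy : φ ∘ y = x := funext hy
  have hyi : AlgebraicIndependent K y := by
    refine AlgebraicIndependent.of_comp φ ?_
    rw [hxy]
    exact hs.1
  have hcard := hs.cardinalMk_eq_trdeg
  have hyb := hyi.isTranscendenceBasis_of_trdeg_le hfin (by rw [hcard]; exact hcon)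
  have halg := hyb.isAlgebraic
  obtain ⟨t, ht0, c, hc⟩ := (halg.isAlgebraic a).exists_nonzero_dvd
    (mem_nonZeroDivisors_of_ne_zero ha)
  have h1 : φ (t : A) = 0 := by
    have h2 : (t : A) = a * c := hc
    rw [h2, map_mul, hφa, zero_mul]
  have h2 : (t : A) ∈ (aeval y : MvPolynomial s K →ₐ[K] A).range :=
    (Algebra.adjoin_range_eq_range_aeval K y).le t.2
  obtain ⟨p, hp⟩ := h2
  have hp' : aeval y p = (t : A) := hp
  have h3 : aeval x p = 0 := by
    have h4 : φ (aeval y p) = aeval (φ ∘ y) p := by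
      have h5 : φ.comp (aeval y) = aeval (φ ∘ y) := by
        apply MvPolynomial.algHom_ext
        intro i
        simp
      exact DFunLike.congr_fun h5 p
    rw [← hxy, ← h4, hp', h1]
  have h4 := hs.1.eq_zero_of_aeval_eq_zero p h3
  rw [h4, map_zero] at hp'
  exact ht0 (Subtype.ext hp'.symm)

variable {n : ℕ}

lemma trdeg_quot_lt {P Q : Ideal (MvPolynomial (Fin n) K)} [P.IsPrime] [Q.IsPrime] (h : Q < P) :
    Algebra.trdeg K (MvPolynomial (Fin n) K ⧸ P) < Algebra.trdeg K (MvPolynomial (Fin n) K ⧸ Q) := by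
  obtain ⟨a, haP, haQ⟩ := Set.exists_of_ssubset h
  refine trdeg_lt_of_ker (Ideal.Quotient.factorₐ K h.le) (Ideal.Quotient.factor_surjective h.le)
    (a := Ideal.Quotient.mk Q a) ?_ ?_ ?_
  · intro h0
    exact haQ (Ideal.Quotient.eq_zero_iff_mem.1 h0)
  · show Ideal.Quotient.factor h.le (Ideal.Quotient.mk Q a) = 0
    rw [Ideal.Quotient.factor_mk]
    exact Ideal.Quotient.eq_zero_iff_mem.2 haP
  · exact trdeg_lt_aleph0_of_finiteType

lemma trdeg_poly : Algebra.trdeg K (MvPolynomial (Fin n) K) = n := by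
  rw [MvPolynomial.trdeg_of_isDomain]
  simp

/-- the form of smallest degree of a prime of codimension one -/
theorem exists_principal {P : Ideal (MvPolynomial (Fin (n + 1)) K)} (h : HG P) (hP : P.IsPrime)
    (htr : Algebra.trdeg K (MvPolynomial (Fin (n + 1)) K ⧸ P) = (n : ℕ)) :
    ∃ (F : MvPolynomial (Fin (n + 1)) K) (d : ℕ), F ≠ 0 ∧ 1 ≤ d ∧ F.IsHomogeneous d ∧
      P = Ideal.span {F} := by
  classical
  -- `P` is not zero
  have hne : P ≠ ⊥ := by
    rintro rfl
    have h1 := (AlgEquiv.quotientBot K (MvPolynomial (Fin (n + 1)) K)).trdeg_eq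
    rw [trdeg_poly, htr] at h1
    have h2 : n = n + 1 := by exact_mod_cast h1
    omega
  obtain ⟨F, hFP, hF⟩ := hP.exists_mem_prime_of_ne_bot hne
  have hFpr : (Ideal.span {F}).IsPrime := (Ideal.span_singleton_prime hF.ne_zero).2 hF
  have hle : Ideal.span {F} ≤ P := (Ideal.span_singleton_le_iff_mem P).2 hFP
  have hPF : P = Ideal.span {F} := by
    by_contra hcon
    have h1 := trdeg_quot_lt (lt_of_le_of_ne hle (Ne.symm hcon))
    have hbot : (⊥ : Ideal (MvPolynomial (Fin (n + 1)) K)).IsPrime := Ideal.isPrime_bot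
    have h2 := trdeg_quot_lt (P := Ideal.span {F}) (Q := ⊥) (by
      refine lt_of_le_of_ne bot_le fun h0 => hF.ne_zero ?_
      have : F ∈ (⊥ : Ideal (MvPolynomial (Fin (n + 1)) K)) := by
        rw [h0]
        exact Ideal.subset_span rfl
      simpa using this)
    rw [(AlgEquiv.quotientBot K (MvPolynomial (Fin (n + 1)) K)).trdeg_eq, trdeg_poly] at h2
    rw [htr] at h1
    obtain ⟨t, ht⟩ := Cardinal.lt_aleph0.1 (h2.trans (Cardinal.natCast_lt_aleph0))
    rw [ht] at h1 h2
    have h3 : n < t := by exact_mod_cast h1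
    have h4 : t < n + 1 := by exact_mod_cast h2
    omega
  -- a form in `P` of smallest degree
  obtain ⟨m, G, g, hG, hPG⟩ := h
  have hex : ∃ d : ℕ, ∃ Z : MvPolynomial (Fin (n + 1)) K, Z ≠ 0 ∧ Z.IsHomogeneous d ∧ Z ∈ P := by
    by_contra hcon
    push Not at hcon
    apply hne
    rw [hPG, Ideal.span_eq_bot]
    rintro _ ⟨k, rfl⟩
    by_contra h0
    exact hcon (g k) (G k) h0 (hG k) (by rw [hPG]; exact Ideal.subset_span ⟨k, rfl⟩)
  obtain ⟨Z, hZ0, hZh, hZP⟩ := Nat.find_spec hex
  set d := Nat.find hex with hd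
  have hmin : ∀ (t : ℕ), t < d → ∀ Z' : MvPolynomial (Fin (n + 1)) K, Z'.IsHomogeneous t → Z' ∈ P →
      Z' = 0 := by
    intro t ht Z' h1 h2
    by_contra h0
    exact Nat.find_min hex ht ⟨Z', h0, h1, h2⟩
  have hdeg : F.totalDegree ≤ d := by
    rw [hPF, Ideal.mem_span_singleton] at hZP
    obtain ⟨A, rfl⟩ := hZP
    have hA0 : A ≠ 0 := right_ne_zero_of_mul hZ0
    have h1 := totalDegree_mul_of_isDomain hF.ne_zero hA0
    have h2 := hZh.totalDegree hZ0
    omega
  have hcomp : ∀ t, homogeneousComponent t F ∈ P := by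
    intro t
    rw [hPG] at hFP ⊢
    exact Pool.Agent.TH875.comp_mem G g hG hFP t
  have hFd : F.IsHomogeneous d := by
    have h1 : F = homogeneousComponent d F := by
      conv_lhs => rw [← sum_homogeneousComponent F]
      rcases Nat.lt_or_ge F.totalDegree d with h2 | h2
      · exfalso
        apply hF.ne_zero
        rw [← sum_homogeneousComponent F]
        refine Finset.sum_eq_zero fun t ht => ?_
        rw [Finset.mem_range] at ht
        exact hmin t (by omega) _ (homogeneousComponent_isHomogeneous t F) (hcomp t)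
      · rw [Finset.sum_eq_single d]
        · intro t ht htd
          rw [Finset.mem_range] at ht
          exact hmin t (by omega) _ (homogeneousComponent_isHomogeneous t F) (hcomp t)
        · intro ht
          rw [Finset.mem_range] at ht
          omega
    rw [h1]
    exact homogeneousComponent_isHomogeneous d F
  refine ⟨F, d, hF.ne_zero, ?_, hFd, hPF⟩
  by_contra h0
  push Not at h0
  have hd0 : d = 0 := by omega
  rw [hd0] at hFd
  have h1 : F.totalDegree = 0 := hFd.totalDegree hF.ne_zero
  rw [totalDegree_eq_zero_iff_eq_C] at h1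
  apply hF.not_isUnit
  rw [h1]
  refine (isUnit_iff_ne_zero.2 ?_).map C
  intro h2
  apply hF.ne_zero
  rw [h1, h2, map_zero]

end

end Pool.Agent.H426.Ru
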