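import Pool.Graph.R_seed8.TH875.Cm2

/-!
# Systems of parameters adapted to a chain of forms (by helper297, for helper426)

The proof is by elimination: as long as there are more than `ν + 1` forms there is a homogeneous
relation between them modulo the prime ideal, which is not divisible by the first variable, and a
linear change of the forms removes one of them (the second one).
-/

set_option autoImplicit false

namespace Pool.Agent.H426.Ru.S1

open MvPolynomial Finset Module

section aux

variable {K : Type} [Field K]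

/-- homogeneous polynomials at a multiple of a point. -/
theorem aeval_smul_hom {L : Type} [Field L] [Algebra K L] {r e : ℕ} {P : MvPolynomial (Fin r) K}
    (hP : P.IsHomogeneous e) (t : L) (b : Fin r → L) :
    aeval (fun i => t * b i) P = t ^ e * aeval b P := by
  rw [aeval_def, aeval_def, eval₂_eq', eval₂_eq', Finset.mul_sum]
  refine Finset.sum_congr rfl fun m hm => ?_
  have h1 : ∑ i, m i = e := by
    have h2 := hP (mem_support_iff.1 hm)
    rw [← h2, Finsupp.weight_apply, Finsupp.sum_fintype]
    · simp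
    · intro i; simp
  simp_rw [mul_pow]
  rw [Finset.prod_mul_distrib, Finset.prod_pow_eq_pow_sum, h1]
  ring

/-- the substitution `X 0 ↦ 0`. -/
theorem dvd_of_subst_zero {r : ℕ} (P : MvPolynomial (Fin (r + 1)) K)
    (h : aeval (fun i : Fin (r + 1) => if i = 0 then (0 : MvPolynomial (Fin (r + 1)) K) else X i) P
      = 0) : (X 0 : MvPolynomial (Fin (r + 1)) K) ∣ P := by
  rw [← Ideal.mem_span_singleton]
  have h1 : (Ideal.Quotient.mkₐ K (Ideal.span {(X 0 : MvPolynomial (Fin (r + 1)) K)})).comp
      (aeval (fun i : Fin (r + 1) => if i = 0 then (0 : MvPolynomial (Fin (r + 1)) K) else X i)) =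
      Ideal.Quotient.mkₐ K (Ideal.span {(X 0 : MvPolynomial (Fin (r + 1)) K)}) := by
    apply MvPolynomial.algHom_ext
    intro i
    rw [AlgHom.comp_apply, aeval_X]
    by_cases hi : i = 0
    · subst hi
      rw [if_pos rfl, map_zero]
      symm
      rw [Ideal.Quotient.mkₐ_eq_mk, Ideal.Quotient.eq_zero_iff_mem]
      exact Ideal.subset_span (Set.mem_singleton _)
    · rw [if_neg hi]
  have h2 := DFunLike.congr_fun h1 P
  rw [AlgHom.comp_apply, h, map_zero] at h2
  rw [Ideal.Quotient.mkₐ_eq_mk] at h2
  exact Ideal.Quotient.eq_zero_iff_mem.1 h2.symm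

/-- a point with first coordinates `0, 1` where a form not divisible by `X 0` does not vanish. -/
theorem exists_point [Infinite K] {r e : ℕ} (P : MvPolynomial (Fin (r + 2)) K)
    (hP : P.IsHomogeneous e) (hdvd : ¬ (X 0 : MvPolynomial (Fin (r + 2)) K) ∣ P) :
    ∃ b : Fin (r + 2) → K, b 0 = 0 ∧ b 1 = 1 ∧ aeval b P ≠ 0 := by
  set Q : MvPolynomial (Fin (r + 2)) K :=
    aeval (fun i : Fin (r + 2) => if i = 0 then (0 : MvPolynomial (Fin (r + 2)) K) else X i) P
    with hQ
  have hQ0 : Q ≠ 0 := fun h => hdvd (dvd_of_subst_zero P h)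
  have hQX : Q * X 1 ≠ 0 := mul_ne_zero hQ0 (X_ne_zero _)
  obtain ⟨b', hb'⟩ : ∃ b' : Fin (r + 2) → K, eval b' (Q * X 1) ≠ 0 := by
    by_contra hcon
    push Not at hcon
    exact hQX (MvPolynomial.funext fun x => by rw [hcon x, map_zero])
  rw [map_mul, eval_X] at hb'
  have h1 : b' 1 ≠ 0 := fun h => hb' (by rw [h, mul_zero])
  have h2 : eval b' Q ≠ 0 := fun h => hb' (by rw [h, zero_mul])
  set b'' : Fin (r + 2) → K := fun i => if i = 0 then 0 else b' i with hb''
  have h3 : eval b' Q = aeval b'' P := by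
    have h4 : ((aeval b' : MvPolynomial (Fin (r + 2)) K →ₐ[K] K).comp
      (aeval (fun i : Fin (r + 2) => if i = 0 then (0 : MvPolynomial (Fin (r + 2)) K) else X i))) =
      aeval b'' := by
      apply MvPolynomial.algHom_ext
      intro i
      rw [AlgHom.comp_apply, aeval_X, aeval_X, hb'']
      by_cases hi : i = 0
      · simp [hi]
      · simp [hi]
    have h5 := DFunLike.congr_fun h4 P
    rw [AlgHom.comp_apply, ← hQ] at h5
    rw [← h5, ← MvPolynomial.coe_aeval_eq_eval]
    rfl
  rw [h3] at h2
  refine ⟨fun i => (b' 1)⁻¹ * b'' i, by simp [hb''], ?_, ?_⟩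
  · have : (1 : Fin (r + 2)) ≠ 0 := by simp
    simp only [hb'', if_neg this]
    exact inv_mul_cancel₀ h1
  · rw [aeval_smul_hom hP]
    exact mul_ne_zero (pow_ne_zero _ (inv_ne_zero h1)) h2

end aux

section main

variable {K : Type} [Field K] {n m D : ℕ}

/-- a homogeneous relation which is not divisible by the first variable. -/
theorem exists_relation (hD : 1 ≤ D)
    (G : Fin m → MvPolynomial (Fin n) K) (g : Fin m → ℕ) (hG : ∀ k, (G k).IsHomogeneous (g k))
    (hprime : (Ideal.span (Set.range G)).IsPrime) {r : ℕ}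
    (z : Fin (r + 1) → MvPolynomial (Fin n) K) (hz : ∀ i, (z i).IsHomogeneous D)
    (hz0 : z 0 ∉ Ideal.span (Set.range G))
    (hdep : ¬ AlgebraicIndependent K
      (fun i => Ideal.Quotient.mkₐ K (Ideal.span (Set.range G)) (z i))) :
    ∃ (e : ℕ) (P : MvPolynomial (Fin (r + 1)) K), P.IsHomogeneous e ∧
      ¬ (X 0 : MvPolynomial (Fin (r + 1)) K) ∣ P ∧ aeval z P ∈ Ideal.span (Set.range G) := by
  classical
  set I := Ideal.span (Set.range G) with hI
  have hev : ∀ P : MvPolynomial (Fin (r + 1)) K,
      aeval (fun i => Ideal.Quotient.mkₐ K I (z i)) P = Ideal.Quotient.mkₐ K I (aeval z P) := by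
    intro P
    have h1 : (Ideal.Quotient.mkₐ K I).comp (aeval z) =
        aeval (fun i => Ideal.Quotient.mkₐ K I (z i)) := by
      apply MvPolynomial.algHom_ext
      intro i
      rw [AlgHom.comp_apply, aeval_X, aeval_X]
    exact (DFunLike.congr_fun h1 P).symm
  have hex : ∃ k : ℕ, ∃ P : MvPolynomial (Fin (r + 1)) K, P ≠ 0 ∧ P.totalDegree ≤ k ∧
      aeval z P ∈ I := by
    rw [algebraicIndependent_iff] at hdep
    push Not at hdep
    obtain ⟨P, hP, hP0⟩ := hdep
    refine ⟨P.totalDegree, P, hP0, le_rfl, ?_⟩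
    rw [hev, Ideal.Quotient.mkₐ_eq_mk] at hP
    exact Ideal.Quotient.eq_zero_iff_mem.1 hP
  set k := Nat.find hex with hk
  obtain ⟨P, hP0, hPk, hPI⟩ := Nat.find_spec hex
  -- a homogeneous component
  obtain ⟨e, he, hPe⟩ : ∃ e, e ≤ P.totalDegree ∧ homogeneousComponent e P ≠ 0 := by
    by_contra hcon
    push Not at hcon
    apply hP0
    rw [← sum_homogeneousComponent P]
    exact Finset.sum_eq_zero fun i hi => hcon i (Nat.lt_succ_iff.1 (Finset.mem_range.1 hi))
  have hPeh : (homogeneousComponent e P).IsHomogeneous e := homogeneousComponent_isHomogeneous e P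
  have hmem : aeval z (homogeneousComponent e P) ∈ I := by
    have h1 := Pool.Agent.TH875.comp_mem G g hG hPI (D * e)
    have h2 : homogeneousComponent (D * e) (aeval z P) = aeval z (homogeneousComponent e P) := by
      conv_lhs => rw [← sum_homogeneousComponent P]
      rw [map_sum, map_sum, Finset.sum_eq_single e]
      · rw [homogeneousComponent_of_mem (hPeh.aeval z hz), if_pos rfl]
      · intro j _ hj
        rw [homogeneousComponent_of_mem
          ((homogeneousComponent_isHomogeneous j P).aeval z hz), if_neg]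
        intro h
        exact hj (Nat.eq_of_mul_eq_mul_left hD h).symm
      · intro h
        exact absurd (Finset.mem_range.2 (Nat.lt_succ_of_le he)) h
    rwa [h2] at h1
  refine ⟨e, homogeneousComponent e P, hPeh, ?_, hmem⟩
  rintro ⟨P', hP'⟩
  have hP'0 : P' ≠ 0 := by
    rintro rfl
    rw [mul_zero] at hP'
    exact hPe hP'
  have hdeg : P'.totalDegree + 1 = e := by
    have h1 := hPeh.totalDegree hPe
    rw [hP', totalDegree_mul_of_isDomain (X_ne_zero _) hP'0, totalDegree_X] at h1
    omega
  have hP'I : aeval z P' ∈ I := by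
    rw [hP', map_mul, aeval_X] at hmem
    exact (hprime.mem_or_mem hmem).resolve_left hz0
  have hlt : e - 1 < k := by
    have : P.totalDegree ≤ k := hPk
    omega
  exact Nat.find_min hex hlt ⟨P', hP'0, by omega, hP'I⟩

/-- one step of the elimination. -/
theorem step [Infinite K] (hD : 1 ≤ D)
    (G : Fin m → MvPolynomial (Fin n) K) (g : Fin m → ℕ) (hG : ∀ k, (G k).IsHomogeneous (g k))
    (hprime : (Ideal.span (Set.range G)).IsPrime) {ν N : ℕ}
    (htr : Algebra.trdeg K (MvPolynomial (Fin n) K ⧸ Ideal.span (Set.range G)) = (ν + 1 : ℕ))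
    (f : Fin (N + 1) → MvPolynomial (Fin n) K) (hf : ∀ i, (f i).IsHomogeneous D)
    (hf0 : f 0 ∉ Ideal.span (Set.range G)) (M : ℕ) (hM : ν ≤ M)
    (c : Fin (M + 2) → Fin (N + 1) → K) (hc0 : c 0 = Pi.single 0 1)
    (hsupp : ∀ j : Fin (M + 2), ∀ i : Fin (N + 1), N + (j : ℕ) < i + (M + 1) → c j i = 0)
    (hne : ∀ (L : Type) [Field L] [Algebra K L] (x : Fin n → L), (∀ k, aeval x (G k) = 0) →
        (∀ j, aeval x (∑ i, C (c j i) * f i) = 0) → x = 0) :
    ∃ c' : Fin (M + 1) → Fin (N + 1) → K, c' 0 = Pi.single 0 1 ∧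
      (∀ j : Fin (M + 1), ∀ i : Fin (N + 1), N + (j : ℕ) < i + M → c' j i = 0) ∧
      ∀ (L : Type) [Field L] [Algebra K L] (x : Fin n → L), (∀ k, aeval x (G k) = 0) →
        (∀ j, aeval x (∑ i, C (c' j i) * f i) = 0) → x = 0 := by
  classical
  set I := Ideal.span (Set.range G) with hI
  set z : Fin (M + 1 + 1) → MvPolynomial (Fin n) K := fun j => ∑ i, C (c j i) * f i with hz
  have hzh : ∀ j, (z j).IsHomogeneous D := fun j =>
    IsHomogeneous.sum _ _ _ fun i _ => (hf i).C_mul _
  have hz0 : z 0 = f 0 := by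
    simp only [hz, hc0]
    rw [Finset.sum_eq_single (0 : Fin (N + 1))]
    · simp
    · intro i _ hi
      simp [Pi.single_eq_of_ne hi]
    · intro h
      exact absurd (Finset.mem_univ _) h
  have hdep : ¬ AlgebraicIndependent K (fun i => Ideal.Quotient.mkₐ K I (z i)) := by
    intro h
    have h1 := h.cardinalMk_le_trdeg
    rw [htr, Cardinal.mk_fin] at h1
    have h2 : M + 1 + 1 ≤ ν + 1 := by exact_mod_cast h1
    omega
  obtain ⟨e, P, hPh, hdvd, hPI⟩ := exists_relation hD G g hG hprime z hzh
    (by rw [hz0]; exact hf0) hdep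
  obtain ⟨b, hb0, hb1, hbP⟩ := exists_point P hPh hdvd
  refine ⟨fun j i => if j = 0 then c 0 i else c j.succ i - b j.succ * c 1 i, ?_, ?_, ?_⟩
  · funext i
    simp only [if_true]
    rw [hc0]
  · intro j i hji
    by_cases hj : j = 0
    · simp only [if_pos hj]
      refine hsupp 0 i ?_
      subst hj
      simp only [Fin.val_zero, Nat.add_zero] at hji ⊢
      omega
    · simp only [if_neg hj]
      have h1 : 1 ≤ (j : ℕ) := by
        have : (j : ℕ) ≠ 0 := fun h => hj (Fin.ext h)
        omega
      rw [hsupp j.succ i (by rw [Fin.val_succ]; omega),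
        hsupp 1 i (by rw [Fin.val_one]; omega)]
      ring
  · intro L _ _ x hx hx'
    refine hne L x hx ?_
    set ζ : Fin (M + 1 + 1) → L := fun j => aeval x (z j) with hζ
    have hrel : ∀ j : Fin (M + 1), j ≠ 0 → ζ j.succ = ζ 1 * algebraMap K L (b j.succ) := by
      intro j hj
      have h1 := hx' j
      simp only [if_neg hj] at h1
      have h2 : ∑ i, C (c j.succ i - b j.succ * c 1 i) * f i = z j.succ - C (b j.succ) * z 1 := by
        simp only [hz]
        rw [Finset.mul_sum, ← Finset.sum_sub_distrib]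
        refine Finset.sum_congr rfl fun i _ => ?_
        rw [C_sub, C_mul]
        ring
      rw [h2, map_sub, map_mul, ← algebraMap_eq, AlgHom.commutes, sub_eq_zero] at h1
      simp only [hζ]
      rw [h1]
      ring
    have hζ0 : ζ 0 = 0 := by
      have h1 := hx' 0
      simp only [if_true] at h1
      exact h1
    have hall : ∀ j : Fin (M + 1 + 1), ζ j = ζ 1 * algebraMap K L (b j) := by
      intro j
      by_cases hj0 : j = 0
      · rw [hj0, hζ0, hb0, map_zero, mul_zero]
      · obtain ⟨i, rfl⟩ := Fin.exists_succ_eq.2 hj0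
        by_cases hi : i = 0
        · subst hi
          rw [Fin.succ_zero_eq_one, hb1, map_one, mul_one]
        · exact hrel i hi
    have hPz : aeval ζ P = 0 := by
      have h1 : (aeval x : MvPolynomial (Fin n) K →ₐ[K] L).comp (aeval z) = aeval ζ := by
        apply MvPolynomial.algHom_ext
        intro i
        rw [AlgHom.comp_apply, aeval_X, aeval_X]
      have h2 := DFunLike.congr_fun h1 P
      rw [← h2, AlgHom.comp_apply]
      have h3 : I ≤ RingHom.ker (aeval x : MvPolynomial (Fin n) K →ₐ[K] L) := by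
        rw [hI, Ideal.span_le]
        rintro _ ⟨k, rfl⟩
        exact hx k
      exact h3 hPI
    have hζ' : ζ = fun j => ζ 1 * algebraMap K L (b j) := funext hall
    rw [hζ', aeval_smul_hom hPh] at hPz
    have h4 : aeval (fun j => algebraMap K L (b j)) P = algebraMap K L (aeval b P) := by
      have h5 : (Algebra.ofId K L).comp (aeval b : MvPolynomial (Fin (M + 1 + 1)) K →ₐ[K] K) =
          aeval (fun j => algebraMap K L (b j)) := by
        apply MvPolynomial.algHom_ext
        intro i
        rw [AlgHom.comp_apply, aeval_X, aeval_X]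
        rfl
      exact (DFunLike.congr_fun h5 P).symm
    rw [h4] at hPz
    have h6 : algebraMap K L (aeval b P) ≠ 0 := by
      intro h
      exact hbP ((algebraMap K L).injective (by rw [h, map_zero]))
    have h7 : ζ 1 = 0 := by
      rcases mul_eq_zero.1 hPz with h | h
      · exact eq_zero_of_pow_eq_zero h
      · exact absurd h h6
    intro j
    have h8 := hall j
    rw [h7, zero_mul] at h8
    exact h8

/-- the number of the forms is at least the transcendence degree. -/
theorem trdeg_le (hD : 1 ≤ D)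
    (G : Fin m → MvPolynomial (Fin n) K) (g : Fin m → ℕ) (hG : ∀ k, (G k).IsHomogeneous (g k))
    (hprime : (Ideal.span (Set.range G)).IsPrime) {ν N : ℕ}
    (htr : Algebra.trdeg K (MvPolynomial (Fin n) K ⧸ Ideal.span (Set.range G)) = (ν + 1 : ℕ))
    (f : Fin (N + 1) → MvPolynomial (Fin n) K) (hf : ∀ i, (f i).IsHomogeneous D)
    (hne : ∀ (L : Type) [Field L] [Algebra K L] (x : Fin n → L),
      (∀ k, aeval x (G k) = 0) → (∀ i, aeval x (f i) = 0) → x = 0) : ν ≤ N := by
  classical
  obtain ⟨E, hE0, hE⟩ := Pool.Agent.TH875.gen G g hG D hD f hf hne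
  set I := Ideal.span (Set.range G) with hI
  set s : Set (MvPolynomial (Fin n) K ⧸ I) :=
    Set.range (fun i => Ideal.Quotient.mkₐ K I (f i)) with hs
  set A := Algebra.adjoin K s with hA
  have hIdom : IsDomain (MvPolynomial (Fin n) K ⧸ I) := (Ideal.Quotient.isDomain_iff_prime I).2 hprime
  set S : Submodule A (MvPolynomial (Fin n) K ⧸ I) :=
    Submodule.span A ((E.image fun β => Ideal.Quotient.mkₐ K I (monomial β 1) :
      Finset (MvPolynomial (Fin n) K ⧸ I)) : Set (MvPolynomial (Fin n) K ⧸ I)) with hS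
  have hym : ∀ t : (Fin (N + 1) → ℕ) × (Fin n →₀ ℕ), t.2 ∈ E →
      Ideal.Quotient.mkₐ K I (Pool.Agent.TH875.ym f t) ∈ S := by
    intro t ht
    unfold Pool.Agent.TH875.ym
    rw [map_mul, map_prod]
    have h1 : (∏ k, Ideal.Quotient.mkₐ K I (f k ^ t.1 k)) ∈ A := by
      refine Subalgebra.prod_mem _ fun k _ => ?_
      rw [map_pow]
      exact Subalgebra.pow_mem _ (Algebra.subset_adjoin (Set.mem_range_self k)) _
    have h2 : Ideal.Quotient.mkₐ K I (monomial t.2 1) ∈ S :=
      Submodule.subset_span (by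
        rw [Finset.mem_coe, Finset.mem_image]
        exact ⟨t.2, ht, rfl⟩)
    exact S.smul_mem (⟨_, h1⟩ : A) h2
  have htop : S = ⊤ := by
    rw [eq_top_iff]
    intro q _
    obtain ⟨F, rfl⟩ := Ideal.Quotient.mkₐ_surjective K I q
    rw [← sum_homogeneousComponent F, map_sum]
    refine Submodule.sum_mem _ fun M _ => ?_
    have h1 := hE M _ (homogeneousComponent_isHomogeneous M F)
    have h2 := Pool.Agent.TH875.Wm_induction I D f E M
      ((S.restrictScalars K).comap (Ideal.Quotient.mkₐ K I).toLinearMap) 1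
      (fun t ht _ => by
        rw [one_mul, Submodule.mem_comap]
        exact hym t ht) (fun F' hF' => by
        rw [Submodule.mem_comap]
        have h3 : (Ideal.Quotient.mkₐ K I).toLinearMap F' = 0 := by
          show Ideal.Quotient.mkₐ K I F' = 0
          rw [Ideal.Quotient.mkₐ_eq_mk]
          exact Ideal.Quotient.eq_zero_iff_mem.2 hF'
        rw [h3]
        exact Submodule.zero_mem _) h1
    rw [one_mul, Submodule.mem_comap] at h2
    exact h2
  have hfin : Module.Finite A (MvPolynomial (Fin n) K ⧸ I) :=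
    ⟨⟨_, htop⟩⟩
  have hint : Algebra.IsIntegral A (MvPolynomial (Fin n) K ⧸ I) := Algebra.IsIntegral.of_finite A _
  have halg : Algebra.IsAlgebraic A (MvPolynomial (Fin n) K ⧸ I) := hint.isAlgebraic
  have h1 := Algebra.IsAlgebraic.trdeg_le_cardinalMk K s
  rw [htr] at h1
  have h2 : Cardinal.mk s ≤ Cardinal.mk (Fin (N + 1)) := Cardinal.mk_range_le
  rw [Cardinal.mk_fin] at h2
  have h3 : ((ν + 1 : ℕ) : Cardinal) ≤ ((N + 1 : ℕ) : Cardinal) := h1.trans h2
  have h4 : ν + 1 ≤ N + 1 := by exact_mod_cast h3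
  omega

/-- S1. Existence of systems of parameters which are adapted to a chain of forms.
`I = (G)` is a homogeneous prime ideal whose quotient has transcendence degree `ν + 1` (a projective
variety `X` of dimension `ν`), `f 0, …, f N` are forms of the degree `D` without common zero on `X`,
and `f 0 ∉ I`.  Then `ν ≤ N` and there are linear combinations `y j`, `j = 0, …, ν`, without common zero
on `X`, such that `y 0 = f 0` and `y j` is a combination of `f 0, …, f (N - ν + j)`. -/
theorem exists_systems {K : Type} [Field K] [Infinite K] {n m ν N D : ℕ} (hD : 1 ≤ D)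
    (G : Fin m → MvPolynomial (Fin n) K) (g : Fin m → ℕ) (hG : ∀ k, (G k).IsHomogeneous (g k))
    (hprime : (Ideal.span (Set.range G)).IsPrime)
    (htr : Algebra.trdeg K (MvPolynomial (Fin n) K ⧸ Ideal.span (Set.range G)) = (ν + 1 : ℕ))
    (f : Fin (N + 1) → MvPolynomial (Fin n) K) (hf : ∀ i, (f i).IsHomogeneous D)
    (hf0 : f 0 ∉ Ideal.span (Set.range G))
    (hne : ∀ (L : Type) [Field L] [Algebra K L] (x : Fin n → L),
      (∀ k, aeval x (G k) = 0) → (∀ i, aeval x (f i) = 0) → x = 0) :
    ν ≤ N ∧ ∃ c : Fin (ν + 1) → Fin (N + 1) → K, c 0 = Pi.single 0 1 ∧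
      (∀ j : Fin (ν + 1), ∀ i : Fin (N + 1), N + j < i + ν → c j i = 0) ∧
      ∀ (L : Type) [Field L] [Algebra K L] (x : Fin n → L), (∀ k, aeval x (G k) = 0) →
        (∀ j, aeval x (∑ i, C (c j i) * f i) = 0) → x = 0 := by
  classical
  have hνN := trdeg_le hD G g hG hprime htr f hf hne
  refine ⟨hνN, ?_⟩
  have hmain : ∀ k : ℕ, ∀ M : ℕ, M + k = N → ν ≤ M →
      ∃ c : Fin (M + 1) → Fin (N + 1) → K, c 0 = Pi.single 0 1 ∧
      (∀ j : Fin (M + 1), ∀ i : Fin (N + 1), N + (j : ℕ) < i + M → c j i = 0) ∧
      ∀ (L : Type) [Field L] [Algebra K L] (x : Fin n → L), (∀ k, aeval x (G k) = 0) →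
        (∀ j, aeval x (∑ i, C (c j i) * f i) = 0) → x = 0 := by
    intro k
    induction k with
    | zero =>
      intro M hMN _
      rw [Nat.add_zero] at hMN
      subst hMN
      refine ⟨fun j => Pi.single j 1, rfl, ?_, ?_⟩
      · intro j i hji
        show (Pi.single j 1 : Fin (M + 1) → K) i = 0
        rw [Pi.single_apply, if_neg]
        intro h
        rw [h] at hji
        omega
      · intro L _ _ x hx hx'
        refine hne L x hx fun i => ?_
        have h1 := hx' i
        rw [Finset.sum_eq_single i] at h1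
        · simp only [Pi.single_eq_same, C_1, one_mul] at h1
          exact h1
        · intro j _ hj
          simp only [Pi.single_eq_of_ne hj, C_0, zero_mul]
        · intro h
          exact absurd (Finset.mem_univ _) h
    | succ k ih =>
      intro M hMN hM
      obtain ⟨c, hc0, hsupp, hc⟩ := ih (M + 1) (by omega) (by omega)
      exact step hD G g hG hprime htr f hf hf0 M hM c hc0 hsupp hc
  exact hmain (N - ν) ν (by omega) le_rfl

end main

end Pool.Agent.H426.Ru.S1
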