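import Mathlib
import Pool.Graph.R_seed8.TH875.Cm2

/-!
Monomials in four independent linear forms modulo a form (task Ru S3 of helper426), by helper582.
-/

set_option autoImplicit false

namespace Pool.Agent.H426.Ru.S3

open MvPolynomial Finset Module
open Pool.Agent.TH875 (VM)

variable {K : Type} [Field K]

/-! ### the change of coordinates -/

/-- a linear form is the sum of its terms -/
theorem linear_form (p : MvPolynomial (Fin 4) K) (hp : p.IsHomogeneous 1) :
    p = ∑ j, coeff (Finsupp.single j 1) p • X j := by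
  have h : p ∈ Submodule.span K (Set.range (X : Fin 4 → MvPolynomial (Fin 4) K)) := by
    rw [← homogeneousSubmodule_one_eq_span_X]
    exact hp
  obtain ⟨c, hc⟩ := (Submodule.mem_span_range_iff_exists_fun K).1 h
  have e : ∀ j, coeff (Finsupp.single j 1) p = c j := by
    intro j
    rw [← hc, coeff_sum]
    simp only [coeff_smul, coeff_X, smul_eq_mul]
    rw [Finset.sum_eq_single j]
    · simp
    · intro b _ hb
      rw [if_neg, mul_zero]
      intro h
      exact hb ((Finsupp.single_left_injective one_ne_zero) h)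
    · simp
  simp only [e]
  exact hc.symm

/-- the inverse change of coordinates -/
theorem exists_inv (ℓ : Fin 4 → MvPolynomial (Fin 4) K) (hℓ : ∀ i, (ℓ i).IsHomogeneous 1)
    (hind : LinearIndependent K ℓ) :
    ∃ ψ : MvPolynomial (Fin 4) K →ₐ[K] MvPolynomial (Fin 4) K,
      (∀ p, aeval ℓ (ψ p) = p) ∧ (∀ p, ψ (aeval ℓ p) = p) ∧
      ∀ p m, p.IsHomogeneous m → (ψ p).IsHomogeneous m := by
  obtain ⟨A, hA⟩ : ∃ A : Matrix (Fin 4) (Fin 4) K, A = fun i j => coeff (Finsupp.single j 1) (ℓ i) :=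
    ⟨_, rfl⟩
  have h1 : ∀ i, ℓ i = ∑ j, A i j • X j := by
    intro i
    rw [hA]
    exact linear_form (ℓ i) (hℓ i)
  have h2 : LinearIndependent K A.row := by
    rw [Fintype.linearIndependent_iff] at hind ⊢
    intro g hg i
    refine hind g ?_ i
    calc ∑ i, g i • ℓ i = ∑ i, g i • ∑ j, A i j • (X j : MvPolynomial (Fin 4) K) := by
          simp only [← h1]
      _ = ∑ j, (∑ i, g i * A i j) • (X j : MvPolynomial (Fin 4) K) := by
          simp only [Finset.smul_sum, smul_smul, Finset.sum_smul]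
          exact Finset.sum_comm
      _ = 0 := by
          refine Finset.sum_eq_zero fun j _ => ?_
          have h3 := congrFun hg j
          simp only [Finset.sum_apply, Pi.smul_apply, Matrix.row, smul_eq_mul, Pi.zero_apply] at h3
          rw [h3, zero_smul]
  have h3 : IsUnit A := Matrix.linearIndependent_rows_iff_isUnit.1 h2
  have h4 : A * A⁻¹ = 1 := Matrix.mul_nonsing_inv A ((Matrix.isUnit_iff_isUnit_det A).1 h3)
  have h5 : A⁻¹ * A = 1 := Matrix.nonsing_inv_mul A ((Matrix.isUnit_iff_isUnit_det A).1 h3)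
  obtain ⟨B, hB⟩ : ∃ B : Matrix (Fin 4) (Fin 4) K, B = A⁻¹ := ⟨_, rfl⟩
  rw [← hB] at h4 h5
  have h6 : ∀ (C D : Matrix (Fin 4) (Fin 4) K), C * D = 1 → ∀ i,
      ∑ j, C i j • ∑ k, D j k • (X k : MvPolynomial (Fin 4) K) = X i := by
    intro C D hCD i
    calc ∑ j, C i j • ∑ k, D j k • (X k : MvPolynomial (Fin 4) K) =
        ∑ k, (∑ j, C i j * D j k) • (X k : MvPolynomial (Fin 4) K) := by
          simp only [Finset.smul_sum, smul_smul, Finset.sum_smul]
          exact Finset.sum_comm
      _ = ∑ k, ((1 : Matrix (Fin 4) (Fin 4) K) i k) • (X k : MvPolynomial (Fin 4) K) := by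
          refine Finset.sum_congr rfl fun k _ => ?_
          rw [← hCD, Matrix.mul_apply]
      _ = X i := by
          rw [Finset.sum_eq_single i]
          · simp
          · intro b _ hb
            rw [Matrix.one_apply_ne (Ne.symm hb), zero_smul]
          · simp
  refine ⟨aeval fun i => ∑ j, B i j • X j, ?_, ?_, ?_⟩
  · intro p
    have h7 : (aeval ℓ).comp (aeval fun i => ∑ j, B i j • (X j : MvPolynomial (Fin 4) K)) =
        AlgHom.id K _ := by
      refine MvPolynomial.algHom_ext fun i => ?_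
      simp only [AlgHom.comp_apply, aeval_X, map_sum, map_smul, AlgHom.id_apply]
      simp only [h1]
      exact h6 B A h5 i
    exact DFunLike.congr_fun h7 p
  · intro p
    have h7 : (aeval fun i => ∑ j, B i j • (X j : MvPolynomial (Fin 4) K)).comp (aeval ℓ) =
        AlgHom.id K _ := by
      refine MvPolynomial.algHom_ext fun i => ?_
      simp only [AlgHom.comp_apply, aeval_X, AlgHom.id_apply]
      rw [h1 i]
      simp only [map_sum, map_smul, aeval_X]
      exact h6 A B h4 i
    exact DFunLike.congr_fun h7 p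
  · intro p m hp
    have h7 := hp.aeval (S := K) (fun i => ∑ j, B i j • (X j : MvPolynomial (Fin 4) K)) (n := 1)
      (fun i => IsHomogeneous.sum _ _ _ fun j _ => by
        rw [smul_eq_C_mul]
        exact (isHomogeneous_X K j).C_mul _)
    rw [one_mul] at h7
    exact h7

/-! ### the order of the exponents -/

/-- the weight of an exponent -/
def W (a : Fin 4 →₀ ℕ) : ℕ ×ₗ ℕ ×ₗ ℕ ×ₗ ℕ :=
  toLex (a 0 + a 1, toLex (a 0, toLex (a 2, a 3)))

theorem W_add (a b : Fin 4 →₀ ℕ) : W (a + b) = W a + W b := by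
  unfold W
  rw [← toLex_add, Prod.mk_add_mk, ← toLex_add, Prod.mk_add_mk, ← toLex_add, Prod.mk_add_mk]
  simp only [Finsupp.add_apply]
  congr 2
  ring

theorem W_inj {a b : Fin 4 →₀ ℕ} (h : W a = W b) : a = b := by
  unfold W at h
  have h1 := toLex_inj.1 h
  have h2 : a 0 + a 1 = b 0 + b 1 := congrArg Prod.fst h1
  have h3 := toLex_inj.1 (congrArg Prod.snd h1)
  have h4 : a 0 = b 0 := congrArg Prod.fst h3
  have h5 := toLex_inj.1 (congrArg Prod.snd h3)
  have h6 : a 2 = b 2 := congrArg Prod.fst h5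
  have h7 : a 3 = b 3 := congrArg Prod.snd h5
  ext i
  fin_cases i
  · exact h4
  · show a 1 = b 1
    omega
  · exact h6
  · exact h7

theorem W_le_fst {a b : Fin 4 →₀ ℕ} (h : W a ≤ W b) : a 0 + a 1 ≤ b 0 + b 1 := by
  unfold W at h
  rw [Prod.Lex.toLex_le_toLex] at h
  rcases h with h | h
  · exact h.le
  · exact h.1.le

/-- the coefficient of a product at the smallest exponent -/
theorem coeff_min (P Q : MvPolynomial (Fin 4) K) (α β : Fin 4 →₀ ℕ)
    (hα : ∀ a ∈ P.support, W α ≤ W a) (hβ : ∀ b ∈ Q.support, W β ≤ W b) :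
    coeff (α + β) (P * Q) = coeff α P * coeff β Q := by
  classical
  rw [coeff_mul, Finset.sum_eq_single (α, β)]
  · rintro ⟨x, y⟩ hxy hne
    rw [Finset.HasAntidiagonal.mem_antidiagonal] at hxy
    simp only at hxy ⊢
    by_contra h0
    have hx : x ∈ P.support := by
      rw [MvPolynomial.mem_support_iff]
      intro h
      rw [h, zero_mul] at h0
      exact h0 rfl
    have hy : y ∈ Q.support := by
      rw [MvPolynomial.mem_support_iff]
      intro h
      rw [h, mul_zero] at h0
      exact h0 rfl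
    have h1 := hα x hx
    have h2 := hβ y hy
    have h3 : W x + W y = W α + W β := by rw [← W_add, ← W_add, hxy]
    have h4 : W α = W x := by
      by_contra h
      have h5 := add_lt_add_of_lt_of_le (lt_of_le_of_ne h1 h) h2
      exact absurd h3 (ne_of_gt h5)
    have h5 : W β = W y := by
      by_contra h
      have h5 := add_lt_add_of_le_of_lt h1 (lt_of_le_of_ne h2 h)
      exact absurd h3 (ne_of_gt h5)
    exact hne (by rw [W_inj h4, W_inj h5])
  · intro h
    refine absurd ?_ h
    rw [Finset.HasAntidiagonal.mem_antidiagonal]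

/-- the monomial in the `ℓ i` -/
noncomputable def pm (ℓ : Fin 4 → MvPolynomial (Fin 4) K) (s : Fin 4 →₀ ℕ) :
    MvPolynomial (Fin 4) K := ∏ i, ℓ i ^ s i

theorem aeval_mon (ℓ : Fin 4 → MvPolynomial (Fin 4) K) (s : Fin 4 →₀ ℕ) (c : K) :
    aeval ℓ (monomial s c) = c • pm ℓ s := by
  rw [aeval_monomial, Finsupp.prod_fintype _ _ (fun _ => pow_zero _), pm, Algebra.smul_def]

theorem pm_add (ℓ : Fin 4 → MvPolynomial (Fin 4) K) (s t : Fin 4 →₀ ℕ) :
    pm ℓ (s + t) = pm ℓ s * pm ℓ t := by
  unfold pm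
  rw [← Finset.prod_mul_distrib]
  exact Finset.prod_congr rfl fun i _ => by rw [Finsupp.add_apply, pow_add]

theorem pm_hom (ℓ : Fin 4 → MvPolynomial (Fin 4) K) (hℓ : ∀ i, (ℓ i).IsHomogeneous 1)
    (s : Fin 4 →₀ ℕ) : (pm ℓ s).IsHomogeneous (∑ i, s i) := by
  unfold pm
  refine IsHomogeneous.prod _ _ _ fun i _ => ?_
  have := (hℓ i).pow (s i)
  rwa [one_mul] at this

theorem expand (ℓ : Fin 4 → MvPolynomial (Fin 4) K) (p : MvPolynomial (Fin 4) K) :
    aeval ℓ p = ∑ a ∈ p.support, coeff a p • pm ℓ a := by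
  conv_lhs => rw [p.as_sum]
  rw [map_sum]
  exact Finset.sum_congr rfl fun a _ => aeval_mon ℓ a _

theorem deg_sum (s : Fin 4 →₀ ℕ) : s.degree = ∑ i, s i := by
  rw [Finsupp.degree_eq_sum]

/-- the exponents of degree `M` -/
noncomputable def Ex (M : ℕ) : Finset (Fin 4 →₀ ℕ) := Finset.finsuppAntidiag Finset.univ M

theorem mem_Ex (M : ℕ) (s : Fin 4 →₀ ℕ) : s ∈ Ex M ↔ ∑ i, s i = M := by
  unfold Ex
  rw [Finset.mem_finsuppAntidiag]
  simp

theorem mon_family (F : MvPolynomial (Fin 4) K) (hF0 : F ≠ 0) {d : ℕ}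
    (hF : F.IsHomogeneous d) (ℓ : Fin 4 → MvPolynomial (Fin 4) K)
    (hℓ : ∀ i, (ℓ i).IsHomogeneous 1) (hind : LinearIndependent K ℓ) :
    ∃ α : Fin 4 → ℕ, ∑ i, α i = d ∧ F ∈ (Ideal.span {ℓ 0, ℓ 1}) ^ (α 0 + α 1) ∧
      ∀ (M : ℕ) (T : Finset (Fin 4 → ℕ)), (∀ s, s ∈ T ↔ ∑ i, s i = M ∧ ¬ α ≤ s) →
        LinearIndepOn K (fun s : Fin 4 → ℕ =>
          Ideal.Quotient.mkₐ K (Ideal.span {F}) (∏ i, ℓ i ^ s i)) (T : Set (Fin 4 → ℕ)) ∧
        finrank K (VM (Ideal.span {F}) M) = T.card := by
  classical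
  obtain ⟨ψ, hψ1, hψ2, hψ3⟩ := exists_inv ℓ hℓ hind
  obtain ⟨F', hF'⟩ : ∃ F', F' = ψ F := ⟨_, rfl⟩
  have hFF : aeval ℓ F' = F := by rw [hF']; exact hψ1 F
  have hF'h : F'.IsHomogeneous d := by rw [hF']; exact hψ3 F d hF
  have hF'0 : F' ≠ 0 := by
    intro h
    rw [h, map_zero] at hFF
    exact hF0 hFF.symm
  obtain ⟨α, hαs, hαm⟩ := Finset.exists_min_image F'.support W
    (Finset.nonempty_iff_ne_empty.2 fun h => hF'0 (support_eq_empty.1 h))
  have hdeg : ∀ a ∈ F'.support, ∑ i, a i = d := by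
    intro a ha
    rw [← deg_sum]
    exact (hF'h.degree_eq_sum_deg_support ha).symm
  refine ⟨α, hdeg α hαs, ?_, ?_⟩
  · -- the power of the ideal
    rw [← hFF, expand]
    refine Ideal.sum_mem _ fun a ha => ?_
    have h1 := W_le_fst (hαm a ha)
    rw [smul_eq_C_mul]
    refine Ideal.mul_mem_left _ _ ?_
    have h2 : pm ℓ a = (ℓ 0 ^ a 0 * ℓ 1 ^ a 1) * (ℓ 2 ^ a 2 * ℓ 3 ^ a 3) := by
      unfold pm
      rw [Fin.prod_univ_four]
      ring
    rw [h2]
    refine Ideal.mul_mem_right _ _ ?_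
    refine Ideal.pow_le_pow_right h1 ?_
    rw [pow_add]
    exact Ideal.mul_mem_mul
      (Ideal.pow_mem_pow (Ideal.subset_span (Set.mem_insert _ _)) _)
      (Ideal.pow_mem_pow (Ideal.subset_span (Set.mem_insert_of_mem _ (Set.mem_singleton _))) _)
  · intro M T hT
    obtain ⟨q, hq⟩ : ∃ q : MvPolynomial (Fin 4) K →ₐ[K] (MvPolynomial (Fin 4) K ⧸ Ideal.span {F}),
      q = Ideal.Quotient.mkₐ K (Ideal.span {F}) := ⟨_, rfl⟩
    have hq0 : ∀ p, q p = 0 ↔ F ∣ p := by
      intro p
      rw [hq, Ideal.Quotient.mkₐ_eq_mk, Ideal.Quotient.eq_zero_iff_mem, Ideal.mem_span_singleton]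
    rw [← hq]
    have hli : LinearIndepOn K (fun s : Fin 4 → ℕ => q (∏ i, ℓ i ^ s i)) (T : Set (Fin 4 → ℕ)) := by
      rw [linearIndepOn_finset_iff]
      intro f hf
      by_contra hcon
      push Not at hcon
      obtain ⟨s0, hs0, hfs0⟩ := hcon
      obtain ⟨P, hP⟩ : ∃ P : MvPolynomial (Fin 4) K,
        P = ∑ s ∈ T, monomial (Finsupp.equivFunOnFinite.symm s) (f s) := ⟨_, rfl⟩
      have hPc : ∀ b : Fin 4 →₀ ℕ, coeff b P = if (b : Fin 4 → ℕ) ∈ T then f b else 0 := by
        intro b
        rw [hP, coeff_sum]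
        simp only [coeff_monomial]
        have h1 : ∀ s : Fin 4 → ℕ, (Finsupp.equivFunOnFinite.symm s = b ↔ s = b) := by
          intro s
          rw [Equiv.symm_apply_eq]
          rfl
        simp only [h1]
        exact Finset.sum_ite_eq' T (b : Fin 4 → ℕ) f
      have h1 : q (aeval ℓ P) = 0 := by
        rw [← hf, hP, map_sum, map_sum]
        refine Finset.sum_congr rfl fun s _ => ?_
        rw [aeval_mon, map_smul]
        rfl
      obtain ⟨Q0, hQ0⟩ := (hq0 _).1 h1
      have h2 : P = F' * ψ Q0 := by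
        rw [hF', ← map_mul, ← hQ0, hψ2]
      obtain ⟨Q, hQ⟩ : ∃ Q, Q = ψ Q0 := ⟨_, rfl⟩
      rw [← hQ] at h2
      have hP0 : P ≠ 0 := by
        intro h
        have h3 := hPc (Finsupp.equivFunOnFinite.symm s0)
        rw [h, coeff_zero] at h3
        rw [if_pos (show ((Finsupp.equivFunOnFinite.symm s0 : Fin 4 →₀ ℕ) : Fin 4 → ℕ) ∈ T from hs0)]
          at h3
        exact hfs0 h3.symm
      have hQn : Q ≠ 0 := by
        intro h
        rw [h, mul_zero] at h2
        exact hP0 h2
      obtain ⟨β, hβs, hβm⟩ := Finset.exists_min_image Q.support W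
        (Finset.nonempty_iff_ne_empty.2 fun h => hQn (support_eq_empty.1 h))
      have h3 := coeff_min F' Q α β hαm hβm
      rw [← h2, hPc] at h3
      have h4 : coeff α F' * coeff β Q ≠ 0 :=
        mul_ne_zero (MvPolynomial.mem_support_iff.1 hαs) (MvPolynomial.mem_support_iff.1 hβs)
      rw [← h3] at h4
      have h5 : ((α + β : Fin 4 →₀ ℕ) : Fin 4 → ℕ) ∈ T := by
        by_contra h
        rw [if_neg h] at h4
        exact h4 rfl
      refine ((hT _).1 h5).2 fun i => ?_
      rw [Finsupp.add_apply]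
      exact Nat.le_add_right _ _
    refine ⟨hli, ?_⟩
    -- the span
    obtain ⟨Sp, hSp⟩ : ∃ Sp : Submodule K (MvPolynomial (Fin 4) K ⧸ Ideal.span {F}),
      Sp = Submodule.span K (Set.range fun s : T => q (∏ i, ℓ i ^ (s : Fin 4 → ℕ) i)) := ⟨_, rfl⟩
    have key : ∀ k : ℕ, ∀ s : Fin 4 →₀ ℕ, ∑ i, s i = M →
        ((Ex M).filter fun t => W s < W t).card ≤ k → q (pm ℓ s) ∈ Sp := by
      intro k
      induction k using Nat.strong_induction_on with
      | _ k ih =>
      intro s hs hk
      by_cases hαl : (α : Fin 4 → ℕ) ≤ s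
      · obtain ⟨γ, hγ⟩ : ∃ γ, γ = s - α := ⟨_, rfl⟩
        have hle : α ≤ s := hαl
        have hsγ : s = α + γ := by rw [hγ]; exact (add_tsub_cancel_of_le hle).symm
        have h1 : q (F * pm ℓ γ) = 0 := (hq0 _).2 (Dvd.intro _ rfl)
        have h1' : F * pm ℓ γ = ∑ a ∈ F'.support, coeff a F' • pm ℓ a * pm ℓ γ := by
          rw [← Finset.sum_mul, ← expand, hFF]
        rw [h1', map_sum, ← Finset.add_sum_erase _ _ hαs] at h1
        rw [smul_mul_assoc, ← pm_add, ← hsγ, map_smul] at h1
        have h2 : ∑ a ∈ F'.support.erase α, q (coeff a F' • pm ℓ a * pm ℓ γ) ∈ Sp := by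
          refine Submodule.sum_mem _ fun a ha => ?_
          rw [smul_mul_assoc, ← pm_add, map_smul]
          refine Submodule.smul_mem _ _ ?_
          have ha1 := Finset.ne_of_mem_erase ha
          have ha2 := Finset.mem_of_mem_erase ha
          have hW : W α < W a := lt_of_le_of_ne (hαm a ha2) fun h => ha1 (W_inj h).symm
          have hW2 : W s < W (a + γ) := by
            rw [hsγ, W_add, W_add]
            exact add_lt_add_of_lt_of_le hW le_rfl
          have hdg : ∑ i, (a + γ) i = M := by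
            rw [← hs, hsγ]
            simp only [Finsupp.add_apply, Finset.sum_add_distrib]
            rw [hdeg a ha2, hdeg α hαs]
          have hcard : ((Ex M).filter fun t => W (a + γ) < W t).card <
              ((Ex M).filter fun t => W s < W t).card := by
            refine Finset.card_lt_card ?_
            rw [Finset.ssubset_iff_of_subset]
            · refine ⟨a + γ, ?_, ?_⟩
              · rw [Finset.mem_filter, mem_Ex]
                exact ⟨hdg, hW2⟩
              · rw [Finset.mem_filter]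
                exact fun h => lt_irrefl _ h.2
            · intro t ht
              rw [Finset.mem_filter] at ht ⊢
              exact ⟨ht.1, hW2.trans ht.2⟩
          exact ih _ (lt_of_lt_of_le hcard hk) (a + γ) hdg le_rfl
        have h3 : coeff α F' • q (pm ℓ s) ∈ Sp := by
          have h4 : coeff α F' • q (pm ℓ s) =
              - ∑ a ∈ F'.support.erase α, q (coeff a F' • pm ℓ a * pm ℓ γ) :=
            eq_neg_of_add_eq_zero_left h1
          rw [h4]
          exact Submodule.neg_mem _ h2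
        have h4 := Submodule.smul_mem Sp (coeff α F')⁻¹ h3
        rwa [smul_smul, inv_mul_cancel₀ (MvPolynomial.mem_support_iff.1 hαs), one_smul] at h4
      · rw [hSp]
        have h1 : (s : Fin 4 → ℕ) ∈ T := (hT _).2 ⟨hs, hαl⟩
        exact Submodule.subset_span ⟨⟨s, h1⟩, rfl⟩
    have hVM : VM (Ideal.span {F}) M = Sp := by
      apply le_antisymm
      · rintro _ ⟨G, hG, rfl⟩
        have hG' : G.IsHomogeneous M := hG
        have h1 : G = aeval ℓ (ψ G) := (hψ1 G).symm
        have h2 : (ψ G).IsHomogeneous M := hψ3 G M hG'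
        rw [AlgHom.toLinearMap_apply, ← hq, h1, expand, map_sum]
        refine Submodule.sum_mem _ fun a ha => ?_
        rw [map_smul]
        refine Submodule.smul_mem _ _ (key _ a ?_ le_rfl)
        rw [← deg_sum]
        exact (h2.degree_eq_sum_deg_support ha).symm
      · rw [hSp, Submodule.span_le]
        rintro _ ⟨s, rfl⟩
        refine ⟨∏ i, ℓ i ^ (s : Fin 4 → ℕ) i, ?_, ?_⟩
        · have h1 := pm_hom ℓ hℓ (Finsupp.equivFunOnFinite.symm (s : Fin 4 → ℕ))
          have h2 : ∑ i, (s : Fin 4 → ℕ) i = M := ((hT _).1 s.2).1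
          have h3 : ∑ i, (Finsupp.equivFunOnFinite.symm (s : Fin 4 → ℕ)) i = M := h2
          rw [h3] at h1
          exact h1
        · rw [AlgHom.toLinearMap_apply, ← hq]
    rw [hVM, hSp]
    have h1 : LinearIndependent K (fun s : T => q (∏ i, ℓ i ^ (s : Fin 4 → ℕ) i)) := hli
    rw [finrank_span_eq_card h1, Fintype.card_coe]

end Pool.Agent.H426.Ru.S3
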