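import Mathlib

/-!
# The asymptotic count (S4)
-/

set_option autoImplicit false

namespace Pool.Agent.H426.Ru.S4

open Finset

/-! ## number of exponents of degree `n` -/

lemma len_succ (k n : ℕ) : (List.Nat.antidiagonalTuple (k + 1) (n + 1)).length =
    (List.Nat.antidiagonalTuple k (n + 1)).length +
      (List.Nat.antidiagonalTuple (k + 1) n).length := by
  rw [List.Nat.antidiagonalTuple, List.Nat.antidiagonalTuple, List.Nat.antidiagonal_succ]
  simp [List.length_flatMap, List.flatMap_cons, Function.comp_def]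

lemma len_zero (k : ℕ) : (List.Nat.antidiagonalTuple k 0).length = 1 := by
  rw [List.Nat.antidiagonalTuple_zero_right]; rfl

lemma len1 (n : ℕ) : (List.Nat.antidiagonalTuple 1 n).length = 1 := by
  rw [List.Nat.antidiagonalTuple_one]; rfl

lemma len2 (n : ℕ) : (List.Nat.antidiagonalTuple 2 n).length = n + 1 := by
  induction n with
  | zero => exact len_zero 2
  | succ n ih => rw [len_succ, len1, ih]; ring

lemma len3 (n : ℕ) : 2 * (List.Nat.antidiagonalTuple 3 n).length = (n + 1) * (n + 2) := by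
  induction n with
  | zero => rw [len_zero]
  | succ n ih => rw [len_succ, len2, mul_add, ih]; ring

lemma len4 (n : ℕ) : 6 * (List.Nat.antidiagonalTuple 4 n).length = (n + 1) * (n + 2) * (n + 3) := by
  induction n with
  | zero => rw [len_zero]
  | succ n ih =>
    rw [len_succ, mul_add, ih]
    have := len3 (n + 1)
    nlinarith

lemma card4 (n : ℕ) : 6 * (Finset.Nat.antidiagonalTuple 4 n).card = (n + 1) * (n + 2) * (n + 3) :=
  len4 n

/-- the number of elements of `T` -/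
lemma card_T {d M : ℕ} (hM : d ≤ M) (α : Fin 4 → ℕ) (hα : ∑ i, α i = d)
    (T : Finset (Fin 4 → ℕ)) (hT : ∀ s, s ∈ T ↔ ∑ i, s i = M ∧ ¬ α ≤ s) :
    T.card + (Finset.Nat.antidiagonalTuple 4 (M - d)).card =
      (Finset.Nat.antidiagonalTuple 4 M).card := by
  classical
  have h1 : ((Finset.Nat.antidiagonalTuple 4 M).filter (fun s => ¬ α ≤ s)) = T := by
    ext s
    rw [Finset.mem_filter, Finset.Nat.mem_antidiagonalTuple, hT]
  have h2 : ((Finset.Nat.antidiagonalTuple 4 M).filter (fun s => α ≤ s)).card =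
      (Finset.Nat.antidiagonalTuple 4 (M - d)).card := by
    symm
    refine Finset.card_bij (fun s _ => α + s) ?_ ?_ ?_
    · intro s hs
      rw [Finset.Nat.mem_antidiagonalTuple] at hs
      rw [Finset.mem_filter, Finset.Nat.mem_antidiagonalTuple]
      refine ⟨?_, le_self_add⟩
      simp only [Pi.add_apply, Finset.sum_add_distrib, hs, hα]
      omega
    · intro s _ s' _ h
      exact add_left_cancel h
    · intro s hs
      rw [Finset.mem_filter, Finset.Nat.mem_antidiagonalTuple] at hs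
      refine ⟨s - α, ?_, ?_⟩
      · rw [Finset.Nat.mem_antidiagonalTuple]
        have h3 : α + (s - α) = s := add_tsub_cancel_of_le hs.2
        have h4 : ∑ i, (α + (s - α)) i = M := by rw [h3]; exact hs.1
        simp only [Pi.add_apply, Finset.sum_add_distrib, hα] at h4
        omega
      · exact add_tsub_cancel_of_le hs.2
  rw [← h1, ← h2, add_comm]
  exact Finset.card_filter_add_card_filter_not _

lemma card_T_ge {d M : ℕ} (hd : 1 ≤ d) (hM : d ≤ M) (α : Fin 4 → ℕ) (hα : ∑ i, α i = d)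
    (T : Finset (Fin 4 → ℕ)) (hT : ∀ s, s ∈ T ↔ ∑ i, s i = M ∧ ¬ α ≤ s) :
    (d : ℝ) * ((M : ℝ) + 1 - d) ^ 2 / 2 ≤ (T.card : ℝ) := by
  have h := card_T hM α hα T hT
  have h1 := card4 M
  have h2 := card4 (M - d)
  obtain ⟨m, rfl⟩ := Nat.exists_eq_add_of_le hM
  rw [Nat.add_sub_cancel_left] at h h2
  have h3 : 6 * (T.card : ℝ) + ((m : ℝ) + 1) * (m + 2) * (m + 3) =
      ((d : ℝ) + m + 1) * (d + m + 2) * (d + m + 3) := by
    have : 6 * T.card + (m + 1) * (m + 2) * (m + 3) = (d + m + 1) * (d + m + 2) * (d + m + 3) := by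
      rw [← h1, ← h2, ← h]; ring
    exact_mod_cast this
  have hdR : (1 : ℝ) ≤ d := by exact_mod_cast hd
  have hmR : (0 : ℝ) ≤ m := Nat.cast_nonneg _
  push_cast
  have h4 : 6 * (T.card : ℝ) = d * (3 * (d + m + 2) ^ 2 - 3 * (d + m + 2) * d + d ^ 2 - 1) := by
    linear_combination h3
  have h5 : (0 : ℝ) ≤ d * (3 * (d + m + 2) ^ 2 - 3 * (d + m + 2) * d + d ^ 2 - 1 -
      3 * ((d : ℝ) + m + 1 - d) ^ 2) := by
    refine mul_nonneg (by linarith) ?_
    nlinarith [mul_nonneg hmR (by linarith : (0 : ℝ) ≤ d), mul_self_nonneg ((d : ℝ) - 1)]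
  nlinarith

/-! ## the fibres -/

lemma sum4 (s : Fin 4 → ℕ) : ∑ i, s i = s 0 + s 1 + s 2 + s 3 := by
  rw [Fin.sum_univ_four]

lemma fibre {M : ℕ} (α : Fin 4 → ℕ) (T : Finset (Fin 4 → ℕ))
    (hT : ∀ s, s ∈ T ↔ ∑ i, s i = M ∧ ¬ α ≤ s) (k : ℕ) (hk : k ≤ M) :
    (T.filter (fun s => s 0 + s 1 = k)).card ≤
      (α 0 + α 1) * (M - k + 1) + (α 2 + α 3) * (k + 1) := by
  classical
  have key : ∀ (i j : Fin 4) (b : ℕ), (∀ s s' : Fin 4 → ℕ, s 0 + s 1 + s 2 + s 3 = M →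
      s' 0 + s' 1 + s' 2 + s' 3 = M → s 0 + s 1 = k → s' 0 + s' 1 = k → s i = s' i →
      s j = s' j → s = s') → (∀ s : Fin 4 → ℕ, s 0 + s 1 + s 2 + s 3 = M → s 0 + s 1 = k →
      s j ≤ b) →
      (T.filter (fun s => s 0 + s 1 = k ∧ s i < α i)).card ≤ α i * (b + 1) := by
    intro i j b h1 h2
    have : (Finset.range (α i) ×ˢ Finset.range (b + 1)).card = α i * (b + 1) := by
      rw [Finset.card_product, Finset.card_range, Finset.card_range]
    rw [← this]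
    refine Finset.card_le_card_of_injOn (fun s => (s i, s j)) ?_ ?_
    · intro s hs
      rw [Finset.mem_coe, Finset.mem_filter, hT, sum4] at hs
      simp only [Finset.coe_product, Set.mem_prod, Finset.mem_coe, Finset.mem_range]
      exact ⟨hs.2.2, Nat.lt_succ_of_le (h2 s hs.1.1 hs.2.1)⟩
    · intro s hs s' hs' h
      rw [Finset.mem_coe, Finset.mem_filter, hT, sum4] at hs hs'
      simp only [Prod.mk.injEq] at h
      exact h1 s s' hs.1.1 hs'.1.1 hs.2.1 hs'.2.1 h.1 h.2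
  have ext4 : ∀ s s' : Fin 4 → ℕ, s 0 = s' 0 → s 1 = s' 1 → s 2 = s' 2 → s 3 = s' 3 → s = s' := by
    intro s s' h0 h1 h2 h3
    funext i
    fin_cases i
    · exact h0
    · exact h1
    · exact h2
    · exact h3
  have c0 := key 0 2 (M - k) (fun s s' h1 h2 h3 h4 h5 h6 => ext4 s s' h5 (by omega) h6 (by omega))
    (fun s h1 h2 => by omega)
  have c1 := key 1 2 (M - k) (fun s s' h1 h2 h3 h4 h5 h6 => ext4 s s' (by omega) h5 h6 (by omega))
    (fun s h1 h2 => by omega)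
  have c2 := key 2 0 k (fun s s' h1 h2 h3 h4 h5 h6 => ext4 s s' h6 (by omega) h5 (by omega))
    (fun s h1 h2 => by omega)
  have c3 := key 3 0 k (fun s s' h1 h2 h3 h4 h5 h6 => ext4 s s' h6 (by omega) (by omega) h5)
    (fun s h1 h2 => by omega)
  have hsub : T.filter (fun s => s 0 + s 1 = k) ⊆
      ((T.filter (fun s => s 0 + s 1 = k ∧ s 0 < α 0)) ∪
      (T.filter (fun s => s 0 + s 1 = k ∧ s 1 < α 1))) ∪
      ((T.filter (fun s => s 0 + s 1 = k ∧ s 2 < α 2)) ∪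
      (T.filter (fun s => s 0 + s 1 = k ∧ s 3 < α 3))) := by
    intro s hs
    rw [Finset.mem_filter] at hs
    simp only [Finset.mem_union, Finset.mem_filter]
    obtain ⟨hs1, hs2⟩ := hs
    have hn := ((hT s).1 hs1).2
    rw [Pi.le_def] at hn
    push Not at hn
    obtain ⟨i, hi⟩ := hn
    fin_cases i
    · exact Or.inl (Or.inl ⟨hs1, hs2, hi⟩)
    · exact Or.inl (Or.inr ⟨hs1, hs2, hi⟩)
    · exact Or.inr (Or.inl ⟨hs1, hs2, hi⟩)
    · exact Or.inr (Or.inr ⟨hs1, hs2, hi⟩)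
  have h := (Finset.card_le_card hsub).trans (Finset.card_union_le _ _)
  have h' := Finset.card_union_le (T.filter (fun s => s 0 + s 1 = k ∧ s 0 < α 0))
    (T.filter (fun s => s 0 + s 1 = k ∧ s 1 < α 1))
  have h'' := Finset.card_union_le (T.filter (fun s => s 0 + s 1 = k ∧ s 2 < α 2))
    (T.filter (fun s => s 0 + s 1 = k ∧ s 3 < α 3))
  calc _ ≤ α 0 * (M - k + 1) + α 1 * (M - k + 1) + (α 2 * (k + 1) + α 3 * (k + 1)) := by omega
    _ = _ := by ring

/-! ## sums over `k` -/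

lemma sum_w (n : ℕ) (t : ℝ) (ht : 0 ≤ t) :
    ∑ k ∈ Finset.range n, max 0 (t - (k : ℝ)) ≤ (t + 1) ^ 2 / 2 := by
  have h : ∀ n : ℕ, ∑ k ∈ Finset.range n, max 0 (t - (k : ℝ)) ≤
      (t + 1) ^ 2 / 2 - (max 0 (t + 1 - n)) ^ 2 / 2 := by
    intro n
    induction n with
    | zero =>
      simp only [Finset.range_zero, Finset.sum_empty, Nat.cast_zero, sub_zero]
      rw [max_eq_right (by linarith)]
      simp
    | succ n ih =>
      rw [Finset.sum_range_succ]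
      have e : t + 1 - ((n + 1 : ℕ) : ℝ) = t - n := by push_cast; ring
      rw [e]
      have : max 0 (t - (n : ℝ)) + (max 0 (t - n)) ^ 2 / 2 ≤ (max 0 (t + 1 - n)) ^ 2 / 2 := by
        rcases le_total 0 (t - n) with h0 | h0
        · rw [max_eq_right h0, max_eq_right (by linarith)]
          nlinarith
        · rw [max_eq_left h0]
          have h1 : 0 ≤ (max 0 (t + 1 - (n : ℝ))) ^ 2 / 2 := by positivity
          linarith
      linarith
  refine (h n).trans ?_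
  have : 0 ≤ (max 0 (t + 1 - (n : ℝ))) ^ 2 / 2 := by positivity
  linarith

lemma cheb_aux (t : ℝ) (m : ℕ) : ∑ k ∈ Finset.range (m + 1), (t - 2 * (k : ℝ)) * (t - k) =
    (m + 1) * (t ^ 2 - 3 * t * m / 2 + m * (2 * m + 1) / 3) := by
  induction m with
  | zero => simp; ring
  | succ m ih =>
    rw [Finset.sum_range_succ, ih]
    push_cast
    ring

lemma cheb (n : ℕ) (t : ℝ) (ht : 0 ≤ t) (hn : t < n) :
    0 ≤ ∑ k ∈ Finset.range n, (t - 2 * (k : ℝ)) * max 0 (t - (k : ℝ)) := by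
  set m : ℕ := ⌊t⌋₊ with hm
  have hm1 : (m : ℝ) ≤ t := Nat.floor_le ht
  have hm2 : t < (m : ℝ) + 1 := Nat.lt_floor_add_one t
  have hmn : m + 1 ≤ n := by
    have : (m : ℝ) < n := lt_of_le_of_lt hm1 hn
    exact_mod_cast this
  have h1 : ∑ k ∈ Finset.range n, (t - 2 * (k : ℝ)) * max 0 (t - (k : ℝ)) =
      ∑ k ∈ Finset.range (m + 1), (t - 2 * (k : ℝ)) * (t - (k : ℝ)) := by
    rw [← Finset.sum_subset (Finset.range_mono hmn) ?_]
    · refine Finset.sum_congr rfl ?_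
      intro k hk
      rw [Finset.mem_range] at hk
      have : (k : ℝ) ≤ m := by exact_mod_cast Nat.lt_succ_iff.1 hk
      rw [max_eq_right (by linarith)]
    · intro k _ hk
      rw [Finset.mem_range, not_lt] at hk
      have : (m : ℝ) + 1 ≤ k := by exact_mod_cast hk
      rw [max_eq_left (by linarith), mul_zero]
  rw [h1, cheb_aux]
  refine mul_nonneg (by positivity) ?_
  have h0 : (0 : ℝ) ≤ m := Nat.cast_nonneg _
  nlinarith [mul_self_nonneg (t - 3 * (m : ℝ) / 4)]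

/-- the main upper bound -/
lemma upper {d M : ℕ} (α : Fin 4 → ℕ) (hα : ∑ i, α i = d) (κ : ℝ)
    (hκ : κ = 2 ∨ (κ = 1 ∧ 2 * (α 0 + α 1) ≤ d)) (T : Finset (Fin 4 → ℕ))
    (hT : ∀ s, s ∈ T ↔ ∑ i, s i = M ∧ ¬ α ≤ s) (t : ℝ) (ht : 0 ≤ t) (htM : t ≤ M) :
    ∑ s ∈ T, max 0 (t - ((s 0 + s 1 : ℕ) : ℝ)) ≤
      (κ * d * M / 2 + d) * ((t + 1) ^ 2 / 2) := by
  classical
  have hmap : ∀ s ∈ T, s 0 + s 1 ∈ Finset.range (M + 1) := by
    intro s hs
    have := ((hT s).1 hs).1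
    rw [sum4] at this
    rw [Finset.mem_range]
    omega
  rw [← Finset.sum_fiberwise_of_maps_to hmap]
  have h1 : ∀ k ∈ Finset.range (M + 1),
      ∑ s ∈ T with s 0 + s 1 = k, max 0 (t - ((s 0 + s 1 : ℕ) : ℝ)) ≤
      (((α 0 + α 1 : ℕ) : ℝ) * M + ((d : ℝ) - 2 * ((α 0 + α 1 : ℕ) : ℝ)) * k + d) *
        max 0 (t - (k : ℝ)) := by
    intro k hk
    rw [Finset.mem_range, Nat.lt_succ_iff] at hk
    have e : ∑ s ∈ T with s 0 + s 1 = k, max 0 (t - ((s 0 + s 1 : ℕ) : ℝ)) =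
        ∑ s ∈ T with s 0 + s 1 = k, max 0 (t - (k : ℝ)) := by
      refine Finset.sum_congr rfl ?_
      intro s hs
      rw [Finset.mem_filter] at hs
      rw [hs.2]
    rw [e, Finset.sum_const, nsmul_eq_mul]
    refine mul_le_mul_of_nonneg_right ?_ (le_max_left _ _)
    have h2 := fibre α T hT k hk
    obtain ⟨m, rfl⟩ := Nat.exists_eq_add_of_le hk
    rw [Nat.add_sub_cancel_left] at h2
    have h3 : ((T.filter (fun s => s 0 + s 1 = k)).card : ℝ) ≤
        ((α 0 + α 1 : ℕ) : ℝ) * (m + 1) + ((α 2 + α 3 : ℕ) : ℝ) * (k + 1) := by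
      exact_mod_cast h2
    have h4 : ((α 2 + α 3 : ℕ) : ℝ) = (d : ℝ) - ((α 0 + α 1 : ℕ) : ℝ) := by
      rw [← hα, sum4]; push_cast; ring
    rw [h4] at h3
    refine h3.trans (le_of_eq ?_)
    push_cast
    ring
  refine (Finset.sum_le_sum h1).trans ?_
  have hjd : α 0 + α 1 ≤ d := by rw [← hα, sum4]; omega
  set j : ℝ := ((α 0 + α 1 : ℕ) : ℝ) with hj
  have hj0 : 0 ≤ j := Nat.cast_nonneg _
  have hjd' : j ≤ d := by rw [hj]; exact_mod_cast hjd
  have hd0 : (0 : ℝ) ≤ d := Nat.cast_nonneg _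
  have hM0 : (0 : ℝ) ≤ M := Nat.cast_nonneg _
  have hW := sum_w (M + 1) t ht
  have hκd : 0 ≤ κ * d * M / 2 + d := by
    rcases hκ with rfl | ⟨rfl, -⟩ <;> positivity
  refine le_trans ?_ (mul_le_mul_of_nonneg_left hW hκd)
  rcases hκ with rfl | ⟨rfl, h2j⟩
  · rw [Finset.mul_sum]
    refine Finset.sum_le_sum ?_
    intro k hk
    rw [Finset.mem_range, Nat.lt_succ_iff] at hk
    refine mul_le_mul_of_nonneg_right ?_ (le_max_left _ _)
    have hkM : (k : ℝ) ≤ M := by exact_mod_cast hk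
    have hk0 : (0 : ℝ) ≤ k := Nat.cast_nonneg _
    nlinarith [mul_nonneg hj0 hk0, mul_nonneg (sub_nonneg.2 hjd') (sub_nonneg.2 hkM)]
  · have h2j' : 2 * j ≤ d := by rw [hj]; exact_mod_cast h2j
    have hc := cheb (M + 1) t ht (by push_cast; linarith)
    have hWn : 0 ≤ ∑ k ∈ Finset.range (M + 1), max 0 (t - (k : ℝ)) :=
      Finset.sum_nonneg (fun k _ => le_max_left _ _)
    have e1 : ∑ k ∈ Finset.range (M + 1), (j * M + ((d : ℝ) - 2 * j) * k + d) *
        max 0 (t - (k : ℝ)) = (j * M + d + (d - 2 * j) * t / 2) *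
          ∑ k ∈ Finset.range (M + 1), max 0 (t - (k : ℝ)) -
          (d - 2 * j) / 2 * ∑ k ∈ Finset.range (M + 1), (t - 2 * (k : ℝ)) * max 0 (t - (k : ℝ)) := by
      rw [Finset.mul_sum, Finset.mul_sum, ← Finset.sum_sub_distrib]
      refine Finset.sum_congr rfl ?_
      intro k _
      ring
    rw [e1]
    have e2 : 0 ≤ (d - 2 * j) / 2 *
        ∑ k ∈ Finset.range (M + 1), (t - 2 * (k : ℝ)) * max 0 (t - (k : ℝ)) :=
      mul_nonneg (by linarith) hc
    have e3 : (j * M + d + (d - 2 * j) * t / 2) *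
          ∑ k ∈ Finset.range (M + 1), max 0 (t - (k : ℝ)) ≤ (1 * d * M / 2 + d) *
          ∑ k ∈ Finset.range (M + 1), max 0 (t - (k : ℝ)) := by
      refine mul_le_mul_of_nonneg_right ?_ hWn
      nlinarith [mul_nonneg (by linarith : 0 ≤ (d : ℝ) - 2 * j) (sub_nonneg.2 htM)]
    linarith

/-- S4. The asymptotic count.  `κ = 1` if `2 (α 0 + α 1) ≤ d` and `κ = 2` in any case. -/
theorem count_ineq (d : ℕ) (hd : 1 ≤ d) (α : Fin 4 → ℕ) (hα : ∑ i, α i = d) (κ : ℝ)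
    (hκ : κ = 2 ∨ (κ = 1 ∧ 2 * (α 0 + α 1) ≤ d)) (η β : ℝ) (hη : 0 < η) (hβ : 0 < β) :
    ∃ M0 : ℕ, ∀ M : ℕ, M0 ≤ M → ∀ T : Finset (Fin 4 → ℕ), (∀ s, s ∈ T ↔ ∑ i, s i = M ∧ ¬ α ≤ s) →
      ∀ t : ℝ, β * M ≤ t → t ≤ M →
        ∑ s ∈ T, max 0 (t - ((s 0 + s 1 : ℕ) : ℝ)) ≤ κ / 2 * (1 + η) * (t ^ 2 / M) * T.card := by
  -- choose `ε` with `(1 + ε)² ≤ 1 + η`
  obtain ⟨ε, hε0, hε1, hε2⟩ : ∃ ε : ℝ, 0 < ε ∧ ε ≤ 1 ∧ (1 + ε) * (1 + ε) ≤ 1 + η := by
    refine ⟨min 1 η / 3, by positivity, ?_, ?_⟩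
    · have := min_le_left 1 η
      linarith
    · have h1 := min_le_left 1 η
      have h2 := min_le_right 1 η
      have h3 : 0 < min 1 η := by positivity
      nlinarith
  refine ⟨⌈4 * (d : ℝ) / ε⌉₊ + ⌈3 / (ε * β)⌉₊ + d + 1, ?_⟩
  intro M hM T hT t ht htM
  have hdM : d ≤ M := by omega
  have hM1 : (1 : ℝ) ≤ M := by
    have : 1 ≤ M := by omega
    exact_mod_cast this
  have hMpos : (0 : ℝ) < M := by linarith
  have ht0 : 0 < t := lt_of_lt_of_le (by positivity) ht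
  have hMa : 4 * (d : ℝ) / ε ≤ M := by
    refine (Nat.le_ceil _).trans ?_
    have : ⌈4 * (d : ℝ) / ε⌉₊ ≤ M := by omega
    exact_mod_cast this
  have hMb : 3 / (ε * β) ≤ M := by
    refine (Nat.le_ceil _).trans ?_
    have : ⌈3 / (ε * β)⌉₊ ≤ M := by omega
    exact_mod_cast this
  rw [div_le_iff₀ hε0] at hMa
  rw [div_le_iff₀ (by positivity)] at hMb
  have hup := upper α hα κ hκ T hT t ht0.le htM
  have hlow := card_T_ge hd hdM α hα T hT
  refine hup.trans ?_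
  have hκ1 : 1 ≤ κ := by rcases hκ with rfl | ⟨rfl, -⟩ <;> norm_num
  have hdR : (1 : ℝ) ≤ d := by exact_mod_cast hd
  have hc0 : 0 ≤ κ / 2 * (1 + η) * (t ^ 2 / M) := by positivity
  refine le_trans ?_ (mul_le_mul_of_nonneg_left hlow hc0)
  -- `t + 1 ≤ (1 + ε / 3) t`
  have ht1 : 3 ≤ ε * t := by nlinarith
  have ht2 : (t + 1) ^ 2 ≤ (1 + ε) * t ^ 2 := by
    have : t + 1 ≤ (1 + ε / 3) * t := by linarith
    have h2 : (t + 1) ^ 2 ≤ ((1 + ε / 3) * t) ^ 2 :=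
      pow_le_pow_left₀ (by linarith) this 2
    refine h2.trans ?_
    rw [mul_pow]
    refine mul_le_mul_of_nonneg_right ?_ (by positivity)
    nlinarith
  have hX : ((M : ℝ) + 2) * M ≤ (1 + ε) * ((M : ℝ) + 1 - d) ^ 2 := by
    have h1 : (1 + ε) * ((M : ℝ) + 1 - d) ^ 2 - ((M : ℝ) + 1) ^ 2 =
        ((M : ℝ) + 1) * (ε * (M + 1) - 2 * d * (1 + ε)) + (1 + ε) * d ^ 2 := by ring
    have h2 : 0 ≤ ε * ((M : ℝ) + 1) - 2 * d * (1 + ε) := by nlinarith
    have h3 : 0 ≤ ((M : ℝ) + 1) * (ε * (M + 1) - 2 * d * (1 + ε)) := mul_nonneg (by linarith) h2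
    have h4 : 0 ≤ (1 + ε) * (d : ℝ) ^ 2 := by positivity
    nlinarith
  have hfin : ((M : ℝ) + 2) * M * (t + 1) ^ 2 ≤ (1 + η) * (t ^ 2 * ((M : ℝ) + 1 - d) ^ 2) := by
    calc ((M : ℝ) + 2) * M * (t + 1) ^ 2
        ≤ ((1 + ε) * ((M : ℝ) + 1 - d) ^ 2) * ((1 + ε) * t ^ 2) :=
          mul_le_mul hX ht2 (by positivity) (by positivity)
      _ = ((1 + ε) * (1 + ε)) * (t ^ 2 * ((M : ℝ) + 1 - d) ^ 2) := by ring
      _ ≤ (1 + η) * (t ^ 2 * ((M : ℝ) + 1 - d) ^ 2) :=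
          mul_le_mul_of_nonneg_right hε2 (by positivity)
  have e : κ / 2 * (1 + η) * (t ^ 2 / M) * ((d : ℝ) * ((M : ℝ) + 1 - d) ^ 2 / 2) =
      κ * d / 4 * ((1 + η) * (t ^ 2 * ((M : ℝ) + 1 - d) ^ 2)) / M := by
    field_simp
    ring
  rw [e, le_div_iff₀ hMpos]
  calc (κ * d * M / 2 + d) * ((t + 1) ^ 2 / 2) * M
      = d / 4 * ((κ * M + 2) * M * (t + 1) ^ 2) := by ring
    _ ≤ d / 4 * (κ * ((M + 2) * M * (t + 1) ^ 2)) := by
        refine mul_le_mul_of_nonneg_left ?_ (by positivity)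
        have : (κ * M + 2) ≤ κ * (M + 2) := by nlinarith
        calc (κ * M + 2) * M * (t + 1) ^ 2 = (κ * M + 2) * (M * (t + 1) ^ 2) := by ring
          _ ≤ κ * (M + 2) * (M * (t + 1) ^ 2) :=
              mul_le_mul_of_nonneg_right this (by positivity)
          _ = _ := by ring
    _ ≤ d / 4 * (κ * ((1 + η) * (t ^ 2 * ((M : ℝ) + 1 - d) ^ 2))) := by
        refine mul_le_mul_of_nonneg_left ?_ (by positivity)
        exact mul_le_mul_of_nonneg_left hfin (by linarith)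
    _ = _ := by ring

end Pool.Agent.H426.Ru.S4
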