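import Mathlib

/-!
Multiplicities of a form in four variables along two lines: the two lines have no common point
(`pair_disjoint`), or they lie in a plane which is not a component (`pair_coplanar`).
-/

set_option autoImplicit false

namespace Pool.Agent.H426.Ru.S5

open MvPolynomial Finset Module

variable {K : Type} [Field K]

/-- all exponents `a` of `F` have `j ≤ a i + a k` -/
def ExpGe (i k : Fin 4) (j : ℕ) (F : MvPolynomial (Fin 4) K) : Prop :=
  ∀ a ∈ F.support, j ≤ a i + a k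

theorem ExpGe.add {i k : Fin 4} {j : ℕ} {F G : MvPolynomial (Fin 4) K} (hF : ExpGe i k j F)
    (hG : ExpGe i k j G) : ExpGe i k j (F + G) := by
  classical
  intro a ha
  rcases Finset.mem_union.1 (MvPolynomial.support_add ha) with h | h
  · exact hF a h
  · exact hG a h

theorem ExpGe.mul {i k : Fin 4} {j j' : ℕ} {F G : MvPolynomial (Fin 4) K} (hF : ExpGe i k j F)
    (hG : ExpGe i k j' G) : ExpGe i k (j + j') (F * G) := by
  classical
  intro a ha
  obtain ⟨b, hb, c, hc, rfl⟩ := Finset.mem_add.1 (MvPolynomial.support_mul F G ha)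
  have h1 := hF b hb
  have h2 := hG c hc
  simp only [Finsupp.add_apply]
  omega

theorem expGe_zero (i k : Fin 4) (F : MvPolynomial (Fin 4) K) : ExpGe i k 0 F :=
  fun _ _ => Nat.zero_le _

/-- `ExpGe` as an ideal -/
def expIdeal (i k : Fin 4) (j : ℕ) : Ideal (MvPolynomial (Fin 4) K) where
  carrier := {F | ExpGe i k j F}
  add_mem' := fun h1 h2 => h1.add h2
  zero_mem' := by intro a ha; simp at ha
  smul_mem' := by
    intro c F hF
    have := (expGe_zero i k c).mul hF
    rw [zero_add] at this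
    exact this

theorem mem_expIdeal {i k : Fin 4} {j : ℕ} {F : MvPolynomial (Fin 4) K} :
    F ∈ expIdeal i k j ↔ ExpGe i k j F := Iff.rfl

theorem expGe_X_left (i k : Fin 4) : ExpGe i k 1 (X i : MvPolynomial (Fin 4) K) := by
  classical
  intro a ha
  rw [MvPolynomial.support_X, Finset.mem_singleton] at ha
  subst ha
  simp

theorem expGe_X_right (i k : Fin 4) : ExpGe i k 1 (X k : MvPolynomial (Fin 4) K) := by
  classical
  intro a ha
  rw [MvPolynomial.support_X, Finset.mem_singleton] at ha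
  subst ha
  simp

theorem span_pow_le (i k : Fin 4) (j : ℕ) :
    (Ideal.span {(X i : MvPolynomial (Fin 4) K), X k}) ^ j ≤ expIdeal i k j := by
  induction j with
  | zero => intro F _; exact expGe_zero i k F
  | succ j ih =>
    rw [pow_succ]
    refine Ideal.mul_le.2 (fun r hr s hs => ?_)
    refine ExpGe.mul (ih hr) ?_
    have h1 : Ideal.span {(X i : MvPolynomial (Fin 4) K), X k} ≤ expIdeal i k 1 := by
      rw [Ideal.span_le]
      rintro x (rfl | hx)
      · exact expGe_X_left i k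
      · rw [Set.mem_singleton_iff] at hx
        subst hx
        exact expGe_X_right i k
    exact h1 hs

/-- the change of coordinates -/
theorem exists_coord (ℓ : Fin 4 → MvPolynomial (Fin 4) K)
    (hℓ : ∀ i, (ℓ i).IsHomogeneous 1) (hind : LinearIndependent K ℓ) :
    ∃ ψ φ : MvPolynomial (Fin 4) K →ₐ[K] MvPolynomial (Fin 4) K,
      (∀ i, ψ (ℓ i) = X i) ∧ (∀ i, φ (X i) = ℓ i) ∧ (∀ F, φ (ψ F) = F) ∧
      (∀ (F : MvPolynomial (Fin 4) K) (d : ℕ), F.IsHomogeneous d → (ψ F).IsHomogeneous d) := by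
  classical
  have h1 : ∀ i, ∃ c : Fin 4 → K, ∑ j, c j • (X j : MvPolynomial (Fin 4) K) = ℓ i := by
    intro i
    have h2 : ℓ i ∈ homogeneousSubmodule (Fin 4) K 1 := hℓ i
    rw [homogeneousSubmodule_one_eq_span_X] at h2
    exact (Submodule.mem_span_range_iff_exists_fun K).1 h2
  choose M hM using h1
  let A : Matrix (Fin 4) (Fin 4) K := Matrix.of M
  have hrow : LinearIndependent K A.row := by
    have h3 : ℓ = (Fintype.linearCombination K (X : Fin 4 → MvPolynomial (Fin 4) K)) ∘ A.row := by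
      funext i
      rw [Function.comp_apply, Fintype.linearCombination_apply, ← hM i]
      rfl
    rw [h3] at hind
    exact LinearIndependent.of_comp _ hind
  have hA : IsUnit A := Matrix.linearIndependent_rows_iff_isUnit.1 hrow
  have hAdet : IsUnit A.det := (Matrix.isUnit_iff_isUnit_det A).1 hA
  have e1 : A * A⁻¹ = 1 := Matrix.mul_nonsing_inv A hAdet
  have e2 : A⁻¹ * A = 1 := Matrix.nonsing_inv_mul A hAdet
  let ψ : MvPolynomial (Fin 4) K →ₐ[K] MvPolynomial (Fin 4) K :=
    aeval (fun j => ∑ i, A⁻¹ j i • (X i : MvPolynomial (Fin 4) K))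
  let φ : MvPolynomial (Fin 4) K →ₐ[K] MvPolynomial (Fin 4) K := aeval ℓ
  have hψ : ∀ j, ψ (X j) = ∑ i, A⁻¹ j i • (X i : MvPolynomial (Fin 4) K) := fun j => aeval_X _ _
  have hφ : ∀ j, φ (X j) = ℓ j := fun j => aeval_X _ _
  have hℓA : ∀ i, ℓ i = ∑ j, A i j • (X j : MvPolynomial (Fin 4) K) := fun i => (hM i).symm
  have comb : ∀ (P Q : Matrix (Fin 4) (Fin 4) K) (i : Fin 4),
      ∑ j, P i j • ∑ k, Q j k • (X k : MvPolynomial (Fin 4) K) = ∑ k, (P * Q) i k • X k := by
    intro P Q i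
    simp only [Finset.smul_sum, smul_smul, Matrix.mul_apply, Finset.sum_smul]
    rw [Finset.sum_comm]
  have one : ∀ i : Fin 4, ∑ k, (1 : Matrix (Fin 4) (Fin 4) K) i k • (X k : MvPolynomial (Fin 4) K)
      = X i := by
    intro i
    simp [Matrix.one_apply, Finset.sum_ite_eq]
  refine ⟨ψ, φ, ?_, hφ, ?_, ?_⟩
  · intro i
    rw [hℓA i, map_sum]
    simp only [map_smul, hψ]
    rw [comb, e1, one]
  · intro F
    have h4 : φ.comp ψ = AlgHom.id K _ := by
      refine MvPolynomial.algHom_ext (fun j => ?_)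
      rw [AlgHom.comp_apply, hψ, map_sum, AlgHom.id_apply]
      simp only [map_smul, hφ, hℓA]
      rw [comb, e2, one]
    exact DFunLike.congr_fun h4 F
  · intro F d hF
    have h5 : ∀ j, (∑ i, A⁻¹ j i • (X i : MvPolynomial (Fin 4) K)).IsHomogeneous 1 := by
      intro j
      refine MvPolynomial.IsHomogeneous.sum _ _ _ (fun i _ => ?_)
      rw [MvPolynomial.smul_eq_C_mul]
      simpa using (isHomogeneous_C (Fin 4) (A⁻¹ j i)).mul (isHomogeneous_X K i)
    have h6 := hF.aeval _ h5
    rw [one_mul] at h6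
    exact h6

theorem map_mem {ψ : MvPolynomial (Fin 4) K →ₐ[K] MvPolynomial (Fin 4) K}
    {a b F : MvPolynomial (Fin 4) K} {i k : Fin 4} (ha : ψ a = X i) (hb : ψ b = X k) {j : ℕ}
    (h : F ∈ (Ideal.span {a, b}) ^ j) : ExpGe i k j (ψ F) := by
  have h1 : ψ F ∈ Ideal.map ψ ((Ideal.span {a, b}) ^ j) := Ideal.mem_map_of_mem ψ h
  rw [Ideal.map_pow, Ideal.map_span, Set.image_pair, ha, hb] at h1
  exact span_pow_le i k j h1

theorem degree_eq {F : MvPolynomial (Fin 4) K} {d : ℕ} (hF : F.IsHomogeneous d) {a : Fin 4 →₀ ℕ}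
    (ha : a ∈ F.support) : a 0 + a 1 + a 2 + a 3 = d := by
  have h1 := hF (MvPolynomial.mem_support_iff.1 ha)
  rw [← h1, Finsupp.weight_apply, Finsupp.sum_fintype _ _ (by simp)]
  simp [Fin.sum_univ_four]

/-- S5 (a). Two lines without common point. -/
theorem pair_disjoint (F : MvPolynomial (Fin 4) K) (hF0 : F ≠ 0) {d : ℕ}
    (hF : F.IsHomogeneous d) (ℓ : Fin 4 → MvPolynomial (Fin 4) K)
    (hℓ : ∀ i, (ℓ i).IsHomogeneous 1) (hind : LinearIndependent K ℓ) (j j' : ℕ)
    (h1 : F ∈ (Ideal.span {ℓ 0, ℓ 1}) ^ j) (h2 : F ∈ (Ideal.span {ℓ 2, ℓ 3}) ^ j') :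
    j + j' ≤ d := by
  obtain ⟨ψ, φ, hψ, hφ, hcomp, hhom⟩ := exists_coord ℓ hℓ hind
  have hne : ψ F ≠ 0 := by
    intro h0
    apply hF0
    rw [← hcomp F, h0, map_zero]
  obtain ⟨a, ha⟩ := MvPolynomial.support_nonempty.2 hne
  have e1 := map_mem (hψ 0) (hψ 1) h1 a ha
  have e2 := map_mem (hψ 2) (hψ 3) h2 a ha
  have e3 := degree_eq (hhom F d hF) ha
  omega

/-- S5 (b). Two lines in a plane which is not a component of `F = 0`. -/
theorem pair_coplanar (F : MvPolynomial (Fin 4) K) {d : ℕ}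
    (hF : F.IsHomogeneous d) (ℓ : Fin 3 → MvPolynomial (Fin 4) K)
    (hℓ : ∀ i, (ℓ i).IsHomogeneous 1) (hind : LinearIndependent K ℓ) (hdvd : ¬ ℓ 0 ∣ F) (j j' : ℕ)
    (h1 : F ∈ (Ideal.span {ℓ 0, ℓ 1}) ^ j) (h2 : F ∈ (Ideal.span {ℓ 0, ℓ 2}) ^ j') :
    j + j' ≤ d := by
  classical
  -- complete the three forms to four
  have hex : ∃ x : MvPolynomial (Fin 4) K, x.IsHomogeneous 1 ∧
      LinearIndependent K (Fin.snoc (α := fun _ => MvPolynomial (Fin 4) K) ℓ x) := by
    have hc : ∀ i, ∃ c : Fin 4 → K, ∑ j, c j • (X j : MvPolynomial (Fin 4) K) = ℓ i := by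
      intro i
      have h2 : ℓ i ∈ homogeneousSubmodule (Fin 4) K 1 := hℓ i
      rw [homogeneousSubmodule_one_eq_span_X] at h2
      exact (Submodule.mem_span_range_iff_exists_fun K).1 h2
    choose M hM using hc
    let L := Fintype.linearCombination K (X : Fin 4 → MvPolynomial (Fin 4) K)
    have hL : ℓ = L ∘ M := by
      funext i
      rw [Function.comp_apply, Fintype.linearCombination_apply, ← hM i]
    have hMind : LinearIndependent K M := by
      rw [hL] at hind
      exact LinearIndependent.of_comp _ hind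
    obtain ⟨x, hx⟩ := exists_linearIndependent_snoc_of_lt_finrank hMind
      (by rw [Module.finrank_fin_fun]; norm_num)
    refine ⟨L x, ?_, ?_⟩
    · rw [Fintype.linearCombination_apply]
      refine MvPolynomial.IsHomogeneous.sum _ _ _ (fun i _ => ?_)
      rw [MvPolynomial.smul_eq_C_mul]
      simpa using (isHomogeneous_C (Fin 4) (x i)).mul (isHomogeneous_X K i)
    · have hker : LinearMap.ker L = ⊥ := by
        have hX : LinearIndependent K (X : Fin 4 → MvPolynomial (Fin 4) K) :=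
          MvPolynomial.linearIndependent_X (Fin 4) K
        exact LinearMap.ker_eq_bot.2 (linearIndependent_iff_injective_fintypeLinearCombination.1 hX)
      have h5 := hx.map' L hker
      have h6 : (Fin.snoc (α := fun _ => MvPolynomial (Fin 4) K) ℓ (L x)) =
          L ∘ (Fin.snoc (α := fun _ => Fin 4 → K) M x) := by
        funext i
        refine Fin.lastCases ?_ (fun i => ?_) i
        · rw [Function.comp_apply, Fin.snoc_last, Fin.snoc_last]
        · rw [Function.comp_apply, Fin.snoc_castSucc, Fin.snoc_castSucc, hL, Function.comp_apply]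
      rw [h6]
      exact h5
  obtain ⟨x, hx1, hx2⟩ := hex
  have hall : ∀ i : Fin 4, (Fin.snoc (α := fun _ => MvPolynomial (Fin 4) K) ℓ x i).IsHomogeneous 1 := by
    intro i
    refine Fin.lastCases ?_ (fun i => ?_) i
    · rw [Fin.snoc_last]; exact hx1
    · rw [Fin.snoc_castSucc]; exact hℓ i
  obtain ⟨ψ, φ, hψ, hφ, hcomp, hhom⟩ := exists_coord _ hall hx2
  have g0 : ψ (ℓ 0) = X 0 := hψ 0
  have g1 : ψ (ℓ 1) = X 1 := hψ 1
  have g2 : ψ (ℓ 2) = X 2 := hψ 2
  have f0 : φ (X 0) = ℓ 0 := hφ 0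
  have hex : ∃ a ∈ (ψ F).support, a 0 = 0 := by
    by_contra hcon
    push Not at hcon
    apply hdvd
    rw [← hcomp F, ← f0]
    refine map_dvd φ ?_
    rw [← MvPolynomial.support_sum_monomial_coeff (ψ F)]
    refine Finset.dvd_sum (fun a ha => ?_)
    rw [MvPolynomial.X_dvd_monomial]
    exact Or.inr (hcon a ha)
  obtain ⟨a, ha, ha0⟩ := hex
  have e1 := map_mem g0 g1 h1 a ha
  have e2 := map_mem g0 g2 h2 a ha
  have e3 := degree_eq (hhom F d hF) ha
  omega

end Pool.Agent.H426.Ru.S5
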