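import Pool.Agent.H426.Ru.Fam3
import Pool.Agent.H426.Ru.S3
import Pool.Agent.H426.Ru.S4

/-!
The second-level estimate on surfaces in `ℙ³`: the proximity to the lines `ℓ 0 = ℓ 1 = 0`.
-/

set_option autoImplicit false

namespace Pool.Agent.H426.Ru

open MvPolynomial Finset NumberField IsDedekindDomain Height Module
open Pool.Agent.W180.OP Pool.Agent.W180.TP Pool.Agent.TH875 Pool.Agent.NH28

/-- the exponents of degree `M` which are not divisible by `α` -/
noncomputable def Tst (α : Fin 4 → ℕ) (M : ℕ) : Finset (Fin 4 → ℕ) := by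
  classical
  exact (Fintype.piFinset fun _ : Fin 4 => Finset.range (M + 1)).filter
    fun s => ∑ i, s i = M ∧ ¬ α ≤ s

lemma mem_Tst (α : Fin 4 → ℕ) (M : ℕ) (s : Fin 4 → ℕ) :
    s ∈ Tst α M ↔ ∑ i, s i = M ∧ ¬ α ≤ s := by
  classical
  unfold Tst
  rw [Finset.mem_filter]
  refine ⟨fun h => h.2, fun h => ⟨?_, h⟩⟩
  rw [Fintype.mem_piFinset]
  intro i
  rw [Finset.mem_range]
  have := Finset.single_le_sum (f := s) (fun _ _ => Nat.zero_le _) (Finset.mem_univ i)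
  omega

lemma Tst_nonempty (α : Fin 4 → ℕ) (hα : 1 ≤ ∑ i, α i) (M : ℕ) : (Tst α M).Nonempty := by
  classical
  have h1 : ∃ i, 1 ≤ α i := by
    by_contra hcon
    push Not at hcon
    have h2 : ∑ i, α i = 0 := Finset.sum_eq_zero fun i _ => by
      have := hcon i
      omega
    omega
  obtain ⟨i, hi⟩ := h1
  obtain ⟨j, hj⟩ : ∃ j : Fin 4, j ≠ i := exists_ne i
  refine ⟨Pi.single j M, (mem_Tst α M _).2 ⟨?_, fun h => ?_⟩⟩
  · rw [Finset.sum_pi_single']
    simp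
  · have h3 : (Pi.single j M : Fin 4 → ℕ) i = 0 := Pi.single_eq_of_ne (Ne.symm hj) _
    have h2 : α i ≤ 0 := (h i).trans h3.le
    omega

lemma lam_mon {K L : Type} [Field K] [Field L] [Algebra K L] (f : AbsoluteValue L ℝ) {n : ℕ}
    (ℓ : Fin 4 → MvPolynomial (Fin n) K) {x : Fin n → L} (hx : x ≠ 0)
    (hℓx : ∀ i, aeval x (ℓ i) ≠ 0) (s : Fin 4 → ℕ) (M : ℕ) (hs : ∑ i, s i = M) :
    lam f M (bc L (∏ i, ℓ i ^ s i)) x = ∑ i, (s i : ℝ) * lam f 1 (bc L (ℓ i)) x := by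
  have h1 : rho f M (∏ i, ℓ i ^ s i) x = ∏ i, rho f 1 (ℓ i) x ^ s i := by
    unfold rho
    rw [map_prod, map_prod, ← hs, ← Finset.prod_pow_eq_pow_sum, ← Finset.prod_div_distrib]
    refine Finset.prod_congr rfl fun i _ => ?_
    rw [map_pow, map_pow, pow_one, div_pow]
  have h2 : ∀ i, 0 < rho f 1 (ℓ i) x := fun i => rho_pos f 1 _ hx (hℓx i)
  rw [lam_rho, h1, Real.log_prod fun i _ => (pow_pos (h2 i) _).ne', ← Finset.sum_neg_distrib]
  refine Finset.sum_congr rfl fun i _ => ?_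
  rw [Real.log_pow, lam_rho]
  ring

/-- the gain at a place -/
lemma gain_sec {N M nn r' κ η β Λ Sg : ℝ} (hN : 1 ≤ N) (hM : 0 < M) (hnn : 0 < nn) (hr' : 0 < r')
    (hκ : 0 < κ) (hβ : β = nn / (κ * r'))
    (hS : Sg ≤ Λ * (κ / 2 * (1 + η) * ((β * M) ^ 2 / M) * N)) :
    M * (1 - η) * (nn * Λ / (2 * κ * (r' / nn))) ≤ nn * (β * M * Λ) - r' / N * Sg := by
  have h1 : r' / N * Sg ≤ r' / N * (Λ * (κ / 2 * (1 + η) * ((β * M) ^ 2 / M) * N)) :=
    mul_le_mul_of_nonneg_left hS (by positivity)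
  have h2 : nn * (β * M * Λ) - r' / N * (Λ * (κ / 2 * (1 + η) * ((β * M) ^ 2 / M) * N)) =
      M * (1 - η) * (nn * Λ / (2 * κ * (r' / nn))) := by
    rw [hβ]
    have : N ≠ 0 := by linarith
    field_simp
    ring
  linarith

theorem second_level {K : Type} [Field K] [NumberField K] {r : ℕ} (hr : 1 ≤ r)
    (F : MvPolynomial (Fin 4) K) (hF0 : F ≠ 0) {d : ℕ} (hd : 1 ≤ d) (hF : F.IsHomogeneous d)
    (hprime : (Ideal.span {F}).IsPrime) {Sy : Type} [Fintype Sy] [Nonempty Sy]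
    (ℓ : Sy → Fin 4 → MvPolynomial (Fin 4) K) (hℓ : ∀ e i, (ℓ e i).IsHomogeneous 1)
    (hind : ∀ e, LinearIndependent K (ℓ e)) (ε : ℝ) (hε : 0 < ε) :
    ∃ κ : Sy → ℝ, (∀ e, κ e = 1 ∨ κ e = 2) ∧
      (∀ e, κ e = 2 → ∃ j, d < 2 * j ∧ F ∈ (Ideal.span {ℓ e 0, ℓ e 1}) ^ j) ∧
    ∃ Z : MvPolynomial (Fin 4) K, Z ∉ Ideal.span {F} ∧ (∃ t, Z.IsHomogeneous t) ∧
      ∀ S : Finset (Pl K), ∃ C : ℝ, 0 ≤ C ∧ ∀ (L : Type) [Field L] [NumberField L] [Algebra K L],
        finrank K L ≤ r → ∀ x : Fin 4 → L, x ≠ 0 → aeval x F = 0 →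
        IntermediateField.adjoin K {z | ∃ i j, z = x i / x j} = ⊤ → aeval x Z ≠ 0 →
        (∀ e i, aeval x (ℓ e i) ≠ 0) →
        ∀ e : Pl L → Sy, ∀ (T : Finset (Pl L)) (V : Pl L → Pl K),
        (∀ w ∈ T, V w ∈ S ∧ Ov (V w) w) →
        (∀ w ∈ T, lam (av w) 1 (bc L (ℓ (e w) 1)) x ≤ lam (av w) 1 (bc L (ℓ (e w) 0)) x) →
        ∑ w ∈ T, wt w * lam (av w) 1 (bc L (ℓ (e w) 1)) x /
          (2 * κ (e w) * (finrank K L / nn (V w) w)) ≤ (1 + ε) * logHeight x + C := by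
  classical
  choose α hα hαF hαM using fun e => S3.mon_family F hF0 hF (ℓ e) (hℓ e) (hind e)
  set κ : Sy → ℝ := fun e => if 2 * (α e 0 + α e 1) ≤ d then 1 else 2 with hκ
  refine ⟨κ, ?_, ?_, ?_⟩
  · intro e
    simp only [hκ]
    split_ifs
    · exact Or.inl rfl
    · exact Or.inr rfl
  · intro e he
    simp only [hκ] at he
    split_ifs at he with h
    · norm_num at he
    · exact ⟨α e 0 + α e 1, by omega, hαF e⟩
  have hκ1 : ∀ e, 1 ≤ κ e ∧ κ e ≤ 2 := by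
    intro e
    simp only [hκ]
    split_ifs <;> norm_num
  obtain ⟨C1, hC1⟩ := exists_theta K 4 r
  have hC10 := hC1.1
  have hr1 : (1 : ℝ) ≤ r := by exact_mod_cast hr
  set η : ℝ := ε / (4 * (1 + ε)) with hη
  have hη0 : 0 < η := by positivity
  have hη1 : η < 1 := by
    rw [hη, div_lt_one (by positivity)]
    linarith
  have hcnt := fun e => S4.count_ineq d hd (α e) (hα e) (κ e) (by
    simp only [hκ]
    split_ifs with h
    · exact Or.inr ⟨rfl, h⟩
    · exact Or.inl rfl) η (1 / (2 * r)) hη0 (by positivity)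
  choose M0 hM0 using hcnt
  set M : ℕ := ∑ e, M0 e + ⌈2 * (C1 + 1) / ε⌉₊ + 1 with hM
  have hMe : ∀ e, M0 e ≤ M := by
    intro e
    have := Finset.single_le_sum (f := M0) (fun _ _ => Nat.zero_le _) (Finset.mem_univ e)
    omega
  have hM1 : (1 : ℝ) ≤ M := by
    have : 1 ≤ M := by omega
    exact_mod_cast this
  have hMε : 2 * (C1 + 1) / ε ≤ M := by
    refine (Nat.le_ceil _).trans ?_
    have : ⌈2 * (C1 + 1) / ε⌉₊ ≤ M := by omega
    exact_mod_cast this
  -- the family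
  set G : Fin 1 → MvPolynomial (Fin 4) K := fun _ => F with hG
  have hGs : Ideal.span (Set.range G) = Ideal.span {F} := by
    rw [hG, Set.range_const]
  have hfam := fun e => hαM e M (Tst (α e) M) (mem_Tst (α e) M)
  set P : ∀ e : Sy, {s // s ∈ Tst (α e) M} → MvPolynomial (Fin 4) K := fun e s =>
    ∏ i, ℓ e i ^ s.1 i with hP
  have hPh : ∀ e s, (P e s).IsHomogeneous M := by
    intro e s
    have h1 : (∏ i, ℓ e i ^ s.1 i).IsHomogeneous (∑ i, 1 * s.1 i) :=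
      IsHomogeneous.prod _ _ _ fun i _ => (hℓ e i).pow _
    have h2 : ∑ i, 1 * s.1 i = M := by
      simp only [one_mul]
      exact ((mem_Tst (α e) M s.1).1 s.2).1
    rw [h2] at h1
    exact h1
  obtain ⟨e0⟩ : Nonempty Sy := inferInstance
  have hN1 : 1 ≤ finrank K (VM (Ideal.span (Set.range G)) M) := by
    rw [hGs, (hfam e0).2]
    exact Finset.card_pos.2 (Tst_nonempty (α e0) (by rw [hα]; exact hd) M)
  -- constants
  choose Cf hCf0 hCf using fun (t : Sy × Fin 4) => form_ub (ℓ t.1 t.2) (hℓ t.1 t.2)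
  choose Cl hCl0 hCl using fun (t : Sy × Fin 4) => liou_u (ℓ t.1 t.2) 1 (hℓ t.1 t.2)
  set Q : ℝ := (finrank ℚ K : ℝ) * r with hQ
  have hQ0 : 0 ≤ Q := by positivity
  have hCfs : 0 ≤ ∑ t, Cf t := Finset.sum_nonneg fun t _ => hCf0 t
  have hCls : 0 ≤ ∑ t, Cl t := Finset.sum_nonneg fun t _ => hCl0 t
  set c : ℝ := (∑ t, Cf t) * Q with hc
  have hc0 : 0 ≤ c := by positivity
  obtain ⟨Z, hZ, hZh, hmain⟩ := main_f hr G (by rw [hGs]; exact hprime) P hPh (by
    intro e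
    rw [hGs]
    exact (hfam e).1) hN1 (by
    intro e
    rw [Fintype.card_coe, hGs, (hfam e).2]) C1 hC1 (M * c) (by positivity)
  rw [hGs] at hZ hmain
  refine ⟨Z, hZ, hZh, fun S => ?_⟩
  set Jb : ℝ := M * (1 + (∑ t, Cl t) * Q + c) with hJb
  obtain ⟨C, hC0, hC⟩ := hmain S Jb (by positivity)
  have hη1' : 0 < 1 - η := by linarith
  refine ⟨C / (M * (1 - η)), by positivity, ?_⟩
  intro L _ _ _ hrL x hx hFx hadj hZx hℓx e T V hT hsort
  have hfq : (finrank ℚ L : ℝ) ≤ Q := by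
    have h1 : finrank ℚ K * finrank K L = finrank ℚ L := finrank_mul_finrank ℚ K L
    rw [hQ, ← h1]
    push_cast
    exact mul_le_mul_of_nonneg_left (by exact_mod_cast hrL) (Nat.cast_nonneg _)
  have hfq0 : (0 : ℝ) ≤ finrank ℚ L := Nat.cast_nonneg _
  have hh := logHeight_nonneg x
  set h : ℝ := logHeight x with hhd
  have hr'0 : (0 : ℝ) < finrank K L := by exact_mod_cast (finrank_pos : 0 < finrank K L)
  have hlow : ∀ w e i, 0 ≤ wt w * lam (av w) 1 (bc L (ℓ e i)) x + c := by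
    intro w e i
    have h1 := hCf (e, i) L w x hx (hℓx e i)
    have h2 : Cf (e, i) ≤ ∑ t, Cf t :=
      Finset.single_le_sum (f := Cf) (fun t _ => hCf0 t) (Finset.mem_univ _)
    have h3 : Cf (e, i) * finrank ℚ L ≤ (∑ t, Cf t) * Q := mul_le_mul h2 hfq hfq0 hCfs
    have h4 : -(wt w * lam (av w) 1 (bc L (ℓ e i)) x) ≤ Cf (e, i) * finrank ℚ L := h1
    rw [hc]
    linarith
  have hup : ∀ w e i, wt w * lam (av w) 1 (bc L (ℓ e i)) x + c ≤
      (1 + (∑ t, Cl t) * Q + c) * (h + 1) := by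
    intro w e i
    have h2 := hCl (e, i) L {w} x hx (hℓx e i)
    rw [Finset.sum_singleton] at h2
    have h3 : Cl (e, i) ≤ ∑ t, Cl t :=
      Finset.single_le_sum (f := Cl) (fun t _ => hCl0 t) (Finset.mem_univ _)
    have h4 : Cl (e, i) * finrank ℚ L ≤ (∑ t, Cl t) * Q := mul_le_mul h3 hfq hfq0 hCls
    have h5 : wt w * lam (av w) 1 (bc L (ℓ e i)) x ≤
        wt w * max 0 (lam (av w) 1 (bc L (ℓ e i)) x) :=
      mul_le_mul_of_nonneg_left (le_max_right _ _) (wt_nonneg w)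
    have h7 : (∑ t, Cl t) * Q + c ≤ ((∑ t, Cl t) * Q + c) * (h + 1) :=
      le_mul_of_one_le_right (by positivity) (by linarith)
    have h9 : wt w * max 0 (lam (av w) 1 (bc L (ℓ e i)) x) ≤
      (1 : ℕ) * h + Cl (e, i) * finrank ℚ L := h2
    push_cast at h9
    have h8 : (1 + (∑ t, Cl t) * Q + c) * (h + 1) =
      (h + 1) + ((∑ t, Cl t) * Q + c) * (h + 1) := by ring
    rw [h8]
    linarith
  set Λ : Pl L → ℝ := fun w => (wt w * lam (av w) 1 (bc L (ℓ (e w) 1)) x + c) / nn (V w) w with hΛ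
  have hΛ0 : ∀ w, 0 ≤ Λ w := fun w => div_nonneg (hlow w _ _) (nn_nonneg _ _)
  set β : Pl L → ℝ := fun w => nn (V w) w / (κ (e w) * finrank K L) with hβ
  have hβ1 : ∀ w ∈ T, 1 / (2 * r) ≤ β w ∧ β w ≤ 1 := by
    intro w hw
    have h1 := one_le_nn (hT w hw).2
    obtain ⟨h2, h3⟩ := hκ1 (e w)
    have h4 : nn (V w) w ≤ finrank K L := by
      rw [← sum_nn L (V w)]
      exact Finset.single_le_sum (f := fun w' => nn (V w) w') (fun w' _ => nn_nonneg _ w')
        (mem_ab.2 (hT w hw).2)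
    have h5 : (finrank K L : ℝ) ≤ r := by exact_mod_cast hrL
    simp only [hβ]
    constructor
    · rw [div_le_div_iff₀ (by positivity) (by positivity)]
      have h6 : κ (e w) * finrank K L ≤ 2 * r :=
        mul_le_mul h3 h5 hr'0.le (by norm_num)
      nlinarith
    · rw [div_le_one (by positivity)]
      nlinarith
  have hcall := hC L hrL x hx (fun _ => hFx) hadj hZx e T V hT
    (fun w s => ((s.1 0 + s.1 1 : ℕ) : ℝ) * Λ w) (by
      intro w hw s
      refine ⟨mul_nonneg (Nat.cast_nonneg _) (hΛ0 w), ?_⟩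
      have hnn : nn (V w) w ≠ 0 := by
        have := one_le_nn (hT w hw).2
        linarith
      have hsM := ((mem_Tst (α (e w)) M s.1).1 s.2).1
      have e1 : nn (V w) w * (((s.1 0 + s.1 1 : ℕ) : ℝ) * Λ w) = ((s.1 0 + s.1 1 : ℕ) : ℝ) *
          (wt w * lam (av w) 1 (bc L (ℓ (e w) 1)) x + c) := by
        simp only [hΛ]
        field_simp
      rw [e1]
      have e2 := lam_mon (K := K) (av w) (ℓ (e w)) hx (hℓx (e w)) s.1 M hsM
      have e3 : lam (av w) M (bc L (P (e w) s)) x = lam (av w) M (bc L (∏ i, ℓ (e w) i ^ s.1 i)) x :=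
        rfl
      rw [e3, e2, Fin.sum_univ_four]
      rw [Fin.sum_univ_four] at hsM
      have hsM' : (M : ℝ) = s.1 0 + s.1 1 + s.1 2 + s.1 3 := by exact_mod_cast hsM.symm
      have hMc : (M : ℝ) * c = (s.1 0 + s.1 1 + s.1 2 + s.1 3) * c := by rw [hsM']
      rw [hMc]
      have h0 := hsort w hw
      have h2 := hlow w (e w) 2
      have h3 := hlow w (e w) 3
      have hw0 := wt_nonneg w
      have h4 : (s.1 0 : ℝ) * (wt w * lam (av w) 1 (bc L (ℓ (e w) 1)) x) ≤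
          s.1 0 * (wt w * lam (av w) 1 (bc L (ℓ (e w) 0)) x) :=
        mul_le_mul_of_nonneg_left (mul_le_mul_of_nonneg_left h0 hw0) (Nat.cast_nonneg _)
      have h5 := mul_nonneg (Nat.cast_nonneg (s.1 2) : (0 : ℝ) ≤ _) h2
      have h6 := mul_nonneg (Nat.cast_nonneg (s.1 3) : (0 : ℝ) ≤ _) h3
      push_cast
      nlinarith) (fun w => β w * M * Λ w) (by
      intro w hw
      obtain ⟨h1, h2⟩ := hβ1 w hw
      have hβ0 : 0 ≤ β w := le_trans (by positivity) h1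
      refine ⟨mul_nonneg (mul_nonneg hβ0 (Nat.cast_nonneg _)) (hΛ0 w), ?_⟩
      have h3 : Λ w ≤ (1 + (∑ t, Cl t) * Q + c) * (h + 1) := by
        refine le_trans ?_ (hup w (e w) 1)
        exact div_le_self (hlow w _ _) (one_le_nn (hT w hw).2)
      have h4 : β w * M * Λ w ≤ 1 * M * ((1 + (∑ t, Cl t) * Q + c) * (h + 1)) := by
        refine mul_le_mul ?_ h3 (hΛ0 w) (by positivity)
        exact mul_le_mul_of_nonneg_right h2 (Nat.cast_nonneg _)
      refine h4.trans (le_of_eq ?_)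
      rw [hJb]
      ring)
  have hterm : ∀ w ∈ T, M * (1 - η) * ((wt w * lam (av w) 1 (bc L (ℓ (e w) 1)) x + c) /
      (2 * κ (e w) * (finrank K L / nn (V w) w))) ≤
      nn (V w) w * (β w * M * Λ w) - finrank K L / (finrank K (VM (Ideal.span {F}) M) : ℝ) *
        ∑ s : {s // s ∈ Tst (α (e w)) M}, max (β w * M * Λ w -
          ((s.1 0 + s.1 1 : ℕ) : ℝ) * Λ w) 0 := by
    intro w hw
    have hnn1 := one_le_nn (hT w hw).2
    obtain ⟨h1, h2⟩ := hβ1 w hw
    obtain ⟨h3, h4⟩ := hκ1 (e w)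
    have hMpos : (0 : ℝ) < M := by linarith
    have h5 := hM0 (e w) M (hMe (e w)) (Tst (α (e w)) M) (mem_Tst (α (e w)) M) (β w * M)
      (mul_le_mul_of_nonneg_right h1 (Nat.cast_nonneg _)) (by
        have := mul_le_mul_of_nonneg_right h2 hMpos.le
        linarith)
    have h6 : ∑ s : {s // s ∈ Tst (α (e w)) M}, max (β w * M * Λ w -
          ((s.1 0 + s.1 1 : ℕ) : ℝ) * Λ w) 0 =
        Λ w * ∑ s ∈ Tst (α (e w)) M, max 0 (β w * M - ((s 0 + s 1 : ℕ) : ℝ)) := by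
      rw [Finset.sum_coe_sort (Tst (α (e w)) M) (fun s => max (β w * M * Λ w -
          ((s 0 + s 1 : ℕ) : ℝ) * Λ w) 0), Finset.mul_sum]
      refine Finset.sum_congr rfl fun s _ => ?_
      rw [mul_max_of_nonneg _ _ (hΛ0 w), mul_zero, max_comm]
      congr 1
      ring
    have h7 := gain_sec (N := (finrank K (VM (Ideal.span {F}) M) : ℝ)) (M := M) (nn := nn (V w) w)
      (r' := finrank K L) (κ := κ (e w)) (η := η) (β := β w) (Λ := Λ w)
      (Sg := ∑ s : {s // s ∈ Tst (α (e w)) M}, max (β w * M * Λ w -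
          ((s.1 0 + s.1 1 : ℕ) : ℝ) * Λ w) 0) (by
        rw [hGs] at hN1
        exact_mod_cast hN1) hMpos (by linarith) hr'0 (by linarith) rfl (by
        rw [h6, (hfam (e w)).2]
        exact mul_le_mul_of_nonneg_left h5 (hΛ0 w))
    have h8 : nn (V w) w * Λ w = wt w * lam (av w) 1 (bc L (ℓ (e w) 1)) x + c := by
      simp only [hΛ]
      field_simp
    rw [h8] at h7
    exact h7
  have hall := (Finset.sum_le_sum hterm).trans hcall
  rw [← Finset.mul_sum] at hall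
  have hMpos : (0 : ℝ) < M := by linarith
  have hMη : 0 < M * (1 - η) := by positivity
  have h1 : ∑ w ∈ T, wt w * lam (av w) 1 (bc L (ℓ (e w) 1)) x /
          (2 * κ (e w) * (finrank K L / nn (V w) w)) ≤
      ∑ w ∈ T, (wt w * lam (av w) 1 (bc L (ℓ (e w) 1)) x + c) /
      (2 * κ (e w) * (finrank K L / nn (V w) w)) := by
    refine Finset.sum_le_sum fun w hw => ?_
    have hnn1 := one_le_nn (hT w hw).2
    obtain ⟨h3, h4⟩ := hκ1 (e w)
    refine div_le_div_of_nonneg_right (by linarith) ?_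
    positivity
  refine h1.trans ?_
  have h2 : (M : ℝ) + C1 + 1 ≤ M * (1 - η) * (1 + ε) := by
    have h3 : (1 - η) * (1 + ε) = 1 + 3 * ε / 4 := by
      rw [hη]
      field_simp
      ring
    rw [mul_assoc, h3]
    rw [div_le_iff₀ hε] at hMε
    nlinarith
  have h3 : M * (1 - η) * (∑ w ∈ T, (wt w * lam (av w) 1 (bc L (ℓ (e w) 1)) x + c) /
      (2 * κ (e w) * (finrank K L / nn (V w) w))) ≤
      M * (1 - η) * ((1 + ε) * h + C / (M * (1 - η))) := by
    refine hall.trans ?_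
    rw [mul_add, mul_div_cancel₀ _ hMη.ne']
    have h4 := mul_le_mul_of_nonneg_right h2 hh
    linarith
  exact le_of_mul_le_mul_left h3 hMη

end Pool.Agent.H426.Ru
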