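import Pool.Agent.H426.Ru.Sys
import Pool.Agent.H426.Ru.Noe
import Pool.Agent.H426.Ru.S1
import Pool.Graph.R_pool_sql_team_seeded_3dad9d7b.NH28.FewD

/-!
One step of the induction: the generic points of an irreducible variety.
-/

set_option autoImplicit false

namespace Pool.Agent.H426.Ru

open MvPolynomial Finset NumberField IsDedekindDomain Height Module
open Pool.Agent.W180.OP Pool.Agent.W180.TP Pool.Agent.NH28
open Pool.Agent.TH875 (not_all form_ub comb_le alg_ind)

/-- the largest members of a family in decreasing order -/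
theorem top_sorted {q r : ℕ} (hr : r ≤ q) (u : Fin q → ℝ) :
    ∃ e : Fin r ↪ Fin q, (∀ k k', k ≤ k' → u (e k') ≤ u (e k)) ∧
      ∀ j, j ∉ Set.range e → ∀ k, u j ≤ u (e k) := by
  classical
  set σ := Tuple.sort u with hσ
  have hm : Monotone (u ∘ σ) := Tuple.monotone_sort u
  refine ⟨⟨fun k => σ ⟨q - 1 - k, by omega⟩, fun k k' h => ?_⟩, fun k k' hk => ?_, fun j hj k => ?_⟩
  · have h1 := σ.injective h
    have h2 := congrArg Fin.val h1
    simp only at h2
    exact Fin.ext (by omega)
  · refine hm (Fin.le_def.2 ?_)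
    have : (k : ℕ) ≤ k' := hk
    simp only
    omega
  · obtain ⟨i, rfl⟩ := σ.surjective j
    have hi : (i : ℕ) < q - r := by
      by_contra hcon
      push Not at hcon
      apply hj
      refine ⟨⟨q - 1 - i, by omega⟩, ?_⟩
      show σ _ = σ i
      congr 1
      exact Fin.ext (by simp; omega)
    exact hm (Fin.le_def.2 (by simp; omega))

lemma comb_sum {ν N : ℕ} (h : ν ≤ N) (A : Fin (N + 1) → ℝ) (hanti : ∀ k k', k ≤ k' → A k' ≤ A k)
    (B : Fin (ν + 1) → ℝ) (h0 : A 0 ≤ B 0)
    (hB : ∀ j : Fin (ν + 1), ∀ i : Fin (N + 1), (i : ℕ) + ν = N + j → A i ≤ B j)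
    (hB0 : ∀ j, 0 ≤ B j) : ∑ i, A i ≤ (N + 1 - ν : ℝ) * ∑ j, B j := by
  set A' : ℕ → ℝ := fun i => if hi : i < N + 1 then A ⟨i, hi⟩ else 0 with hA'
  have e1 : ∑ i, A i = ∑ i ∈ Finset.range (N + 1), A' i := by
    rw [Finset.sum_range]
    refine Finset.sum_congr rfl fun i _ => ?_
    simp only [hA', dif_pos i.2]
  have e2 : N + 1 = (N - ν + 1) + ν := by omega
  have e3 : ∑ i ∈ Finset.range (N + 1), A' i = ∑ i ∈ Finset.range (N - ν + 1), A' i +
      ∑ j ∈ Finset.range ν, A' (N - ν + 1 + j) := by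
    rw [e2, Finset.sum_range_add]
  rw [e1, e3, Fin.sum_univ_succ, mul_add]
  have hc : (N : ℝ) + 1 - ν = ((N - ν + 1 : ℕ) : ℝ) := by
    push_cast [Nat.cast_sub h]
    ring
  have hc1 : (1 : ℝ) ≤ (N : ℝ) + 1 - ν := by
    have : (ν : ℝ) ≤ N := by exact_mod_cast h
    linarith
  refine add_le_add ?_ ?_
  · have h1 : ∀ i ∈ Finset.range (N - ν + 1), A' i ≤ B 0 := by
      intro i hi
      have hi' : i < N + 1 := by
        rw [Finset.mem_range] at hi
        omega
      simp only [hA', dif_pos hi']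
      exact (hanti 0 _ (Fin.zero_le _)).trans h0
    refine (Finset.sum_le_sum h1).trans (le_of_eq ?_)
    rw [Finset.sum_const, Finset.card_range, nsmul_eq_mul, hc]
  · have h1 : ∑ j ∈ Finset.range ν, A' (N - ν + 1 + j) ≤ ∑ j : Fin ν, B j.succ := by
      rw [Finset.sum_range]
      refine Finset.sum_le_sum fun j _ => ?_
      have hi' : N - ν + 1 + (j : ℕ) < N + 1 := by
        have := j.2
        omega
      simp only [hA', dif_pos hi']
      refine hB j.succ _ ?_
      simp only [Fin.val_succ]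
      omega
    refine h1.trans ?_
    exact le_mul_of_one_le_left (Finset.sum_nonneg fun j _ => hB0 _) hc1

section

variable {K : Type} [Field K] [NumberField K]

lemma wt_pos {L : Type} [Field L] [NumberField L] (p : Pl L) : 0 < wt p := by
  cases p with
  | inl v =>
    show (0 : ℝ) < v.mult
    exact_mod_cast InfinitePlace.mult_pos
  | inr v => exact one_pos

/-- the local height of a linear combination -/
lemma comb_lam {n D : ℕ} {κ : Type} [Fintype κ] (b : κ → MvPolynomial (Fin n) K)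
    (g : MvPolynomial (Fin n) K) (c : κ → K) (hg : g = ∑ j, c j • b j) :
    ∃ C : ℝ, 0 ≤ C ∧ ∀ (L : Type) [Field L] [NumberField L] [Algebra K L] (p : Pl L)
      (x : Fin n → L) (A : ℝ), x ≠ 0 → aeval x g ≠ 0 → (∀ j, aeval x (b j) ≠ 0) →
      (∀ j, c j ≠ 0 → A ≤ wt p * lam (av p) D (bc L (b j)) x) →
      A ≤ wt p * lam (av p) D (bc L g) x + C * finrank ℚ L := by
  obtain ⟨C, hC0, hC⟩ := comb_le (m := D) b g c hg
  refine ⟨C, hC0, fun L _ _ _ p x A hx hgx hbx h => ?_⟩
  obtain ⟨R, hR, h1⟩ := hC L p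
  have hwt := wt_pos p
  have h2 := h1 x (Real.exp (-(A / wt p))) hx (Real.exp_pos _).le (fun j hj => by
    have h3 := h j hj
    have hpos := rho_pos (av p) D (b j) hx (hbx j)
    rw [lam_rho] at h3
    rw [← Real.log_le_iff_le_exp hpos]
    have h4 : A / wt p ≤ -Real.log (rho (av p) D (b j) x) := by
      rw [div_le_iff₀ hwt]
      linarith
    linarith)
  have hgpos := rho_pos (av p) D g hx hgx
  have hRpos : 0 < R := by linarith [hR.1]
  have h3 := Real.log_le_log hgpos h2
  rw [Real.log_mul hRpos.ne' (Real.exp_pos _).ne', Real.log_exp] at h3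
  have h4 := mul_le_mul_of_nonneg_left h3 hwt.le
  have h5 := hR.2
  rw [lam_rho]
  have h6 : wt p * (Real.log R + -(A / wt p)) = wt p * Real.log R - A := by
    field_simp
    ring
  linarith

/-- The inequality for the points of the cone of `J` off the zeros of `Z`. -/
def Bd {n q : ℕ} (r : ℕ) (kk : ℝ → ℝ) (ε : ℝ) (F : Fin q → MvPolynomial (Fin n) K) (d : Fin q → ℕ)
    (J : Ideal (MvPolynomial (Fin n) K)) (Z : MvPolynomial (Fin n) K) : Prop :=
  ∀ S : Finset (Pl K), ∃ C : ℝ, 0 ≤ C ∧ ∀ (L : Type) [Field L] [NumberField L] [Algebra K L],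
    finrank K L ≤ r → ∀ x : Fin n → L, x ≠ 0 → (∀ p ∈ J, aeval x p = 0) →
    IntermediateField.adjoin K {z | ∃ i j, z = x i / x j} = ⊤ → aeval x Z ≠ 0 →
    (∀ i, aeval x (F i) ≠ 0) →
    ∀ (T : Finset (Pl L)) (V : Pl L → Pl K), (∀ w ∈ T, V w ∈ S ∧ Ov (V w) w) →
    ∑ w ∈ T, wt w * (∑ i, lam (av w) (d i) (bc L (F i)) x / d i) / kk (finrank K L / nn (V w) w) ≤
      (1 + ε) * logHeight x + C

lemma ratio_le {L : Type} [Field L] [NumberField L] [Algebra K L] {r : ℕ} (hr : finrank K L ≤ r)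
    {v : Pl K} {w : Pl L} (h : Ov v w) : (finrank K L : ℝ) / nn v w ≤ r := by
  have h1 := one_le_nn h
  refine (div_le_self (Nat.cast_nonneg _) h1).trans ?_
  exact_mod_cast hr

theorem step_big {n m q ν N r : ℕ} (hν : 1 ≤ ν) (hr : 1 ≤ r) (hq : N + 1 ≤ q)
    (G : Fin m → MvPolynomial (Fin n) K) (g : Fin m → ℕ) (hG : ∀ k, (G k).IsHomogeneous (g k))
    (hprime : (Ideal.span (Set.range G)).IsPrime)
    (htr : Algebra.trdeg K (MvPolynomial (Fin n) K ⧸ Ideal.span (Set.range G)) = (ν + 1 : ℕ))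
    (F : Fin q → MvPolynomial (Fin n) K) (d : Fin q → ℕ) (hd : ∀ i, 1 ≤ d i)
    (hF : ∀ i, (F i).IsHomogeneous (d i)) (hFP : ∀ i, F i ∉ Ideal.span (Set.range G))
    (hgp : ∀ e : Fin (N + 1) ↪ Fin q, ∀ (L : Type) [Field L] [Algebra K L] (x : Fin n → L),
      (∀ k, aeval x (G k) = 0) → (∀ k, aeval x (F (e k)) = 0) → x = 0)
    (kk : ℝ → ℝ) (ε : ℝ) (hε : 0 < ε)
    (hk : ∀ s : ℝ, 1 ≤ s → s ≤ r → ((N : ℝ) + 1 - ν) * cstR ν s ≤ kk s) :
    ∃ (Z : MvPolynomial (Fin n) K) (t : ℕ), Z.IsHomogeneous t ∧ Z ∉ Ideal.span (Set.range G) ∧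
      Bd r kk ε F d (Ideal.span (Set.range G)) Z := by
  classical
  set D : ℕ := ∏ i, d i with hDd
  have hD : 1 ≤ D := Nat.one_le_iff_ne_zero.2
    (Finset.prod_ne_zero_iff.2 fun i _ => (Nat.one_le_iff_ne_zero.1 (hd i)))
  have hdD : ∀ i, d i ∣ D := fun i => Finset.dvd_prod_of_mem d (Finset.mem_univ i)
  set f : (Fin (N + 1) ↪ Fin q) → Fin (N + 1) → MvPolynomial (Fin n) K := fun e k =>
    F (e k) ^ (D / d (e k)) with hf
  have hfh : ∀ e k, (f e k).IsHomogeneous D := by
    intro e k
    have := (hF (e k)).pow (D / d (e k))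
    rwa [Nat.mul_div_cancel' (hdD (e k))] at this
  have h0f : ∀ e, ∀ (L : Type) [Field L] [Algebra K L] (x : Fin n → L),
      (∀ k, aeval x (G k) = 0) → (∀ k, aeval x (f e k) = 0) → x = 0 := by
    intro e L _ _ x hx hxy
    refine hgp e L x hx fun k => ?_
    have h1 := hxy k
    simp only [hf, map_pow] at h1
    exact eq_zero_of_pow_eq_zero h1
  have hf0 : ∀ e, f e 0 ∉ Ideal.span (Set.range G) := fun e h =>
    hFP _ (hprime.mem_of_pow_mem _ h)
  have hsys := fun e => S1.exists_systems hD G g hG hprime htr (f e) (hfh e) (hf0 e) (h0f e)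
  have hne : Nonempty (Fin (N + 1) ↪ Fin q) := ⟨Fin.castLEEmb hq⟩
  have e00 := hne.some
  have hνN : ν ≤ N := (hsys e00).1
  choose c hc0 hctri hcz using fun e => (hsys e).2
  set y : (Fin (N + 1) ↪ Fin q) → Fin (ν + 1) → MvPolynomial (Fin n) K := fun e j =>
    ∑ i, C (c e j i) * f e i with hy
  have hyh : ∀ e k, (y e k).IsHomogeneous D := by
    intro e k
    refine IsHomogeneous.sum _ _ _ fun i _ => ?_
    have := (isHomogeneous_C (Fin n) (c e k i)).mul (hfh e i)
    rwa [zero_add] at this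
  have h0y : ∀ e, ∀ (L : Type) [Field L] [Algebra K L] (x : Fin n → L),
      (∀ k, aeval x (G k) = 0) → (∀ k, aeval x (y e k) = 0) → x = 0 := fun e L _ _ x h1 h2 =>
    hcz e L x h1 h2
  have hy0 : ∀ e, y e 0 = f e 0 := by
    intro e
    simp only [hy, hc0]
    rw [Finset.sum_eq_single 0]
    · simp
    · intro i _ hi
      rw [Pi.single_eq_of_ne hi]
      simp
    · simp
  have hyI : ∀ e k, y e k ∉ Ideal.span (Set.range G) := by
    intro e k h
    have h1 := (alg_ind G g hG D hD (y e) (hyh e) (h0y e) hprime htr).ne_zero k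
    exact h1 (Ideal.Quotient.eq_zero_iff_mem.2 h)
  have hν0 : (0 : ℝ) ≤ ν := Nat.cast_nonneg _
  have hNν : (1 : ℝ) ≤ (N : ℝ) + 1 - ν := by
    have : (ν : ℝ) ≤ N := by exact_mod_cast hνN
    linarith
  obtain ⟨Z1, hZ1, ⟨t1, hZ1h⟩, hmain⟩ := sys_main hν hr hD G g hG hprime htr y hyh h0y ε hε
  have hZh : (Z1 * ∏ e, ∏ k, y e k).IsHomogeneous (t1 + ∑ _e : Fin (N + 1) ↪ Fin q,
      ∑ _k : Fin (ν + 1), D) :=
    hZ1h.mul (IsHomogeneous.prod _ _ _ fun e _ => IsHomogeneous.prod _ _ _ fun k _ => hyh e k)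
  refine ⟨Z1 * ∏ e, ∏ k, y e k, _, hZh, ?_, ?_⟩
  · intro h
    rcases hprime.mem_or_mem h with h | h
    · exact hZ1 h
    · rw [hprime.prod_mem_iff] at h
      obtain ⟨e, _, h⟩ := h
      rw [hprime.prod_mem_iff] at h
      obtain ⟨k, _, h⟩ := h
      exact hyI e k h
  intro S
  obtain ⟨C1, hC10, hC1⟩ := hmain S
  choose Ca hCa0 hCa using fun e => not_all (Nat.succ_pos N) G g hG (f e) (hfh e) (h0f e)
  choose Cb hCb0 hCb using fun i : Fin q => form_ub (F i) (hF i)
  choose Cc hCc0 hCc using fun (e : Fin (N + 1) ↪ Fin q) (j : Fin (ν + 1)) =>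
    comb_lam (D := D) (f e) (y e j) (c e j) (by
      simp only [hy]
      exact Finset.sum_congr rfl fun i _ => by rw [← MvPolynomial.smul_eq_C_mul])
  have hCas : 0 ≤ ∑ e, Ca e := Finset.sum_nonneg fun e _ => hCa0 e
  have hCbs : 0 ≤ ∑ i, Cb i := Finset.sum_nonneg fun e _ => hCb0 e
  have hCcs : 0 ≤ ∑ e, ∑ j, Cc e j := Finset.sum_nonneg fun e _ => Finset.sum_nonneg fun j _ =>
    hCc0 e j
  set Q : ℝ := (finrank ℚ K : ℝ) * r with hQ
  have hQ0 : 0 ≤ Q := by positivity
  set W : ℝ := (∑ e, Ca e + ∑ i, Cb i + ∑ e, ∑ j, Cc e j) * Q with hW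
  have hW0 : 0 ≤ W := by positivity
  set E : ℝ := 2 * (ν + 1) * W + q * W with hE
  have hE0 : 0 ≤ E := by positivity
  refine ⟨C1 + S.card * (r * E), by positivity, ?_⟩
  intro L _ _ _ hrL x hx hIx hadj hZx hFx T V hT
  have hGx : ∀ k, aeval x (G k) = 0 := fun k => hIx _ (Ideal.subset_span ⟨k, rfl⟩)
  have hfq : (finrank ℚ L : ℝ) ≤ Q := by
    have h1 : finrank ℚ K * finrank K L = finrank ℚ L := finrank_mul_finrank ℚ K L
    rw [hQ, ← h1]
    push_cast
    exact mul_le_mul_of_nonneg_left (by exact_mod_cast hrL) (Nat.cast_nonneg _)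
  have hfq0 : (0 : ℝ) ≤ finrank ℚ L := Nat.cast_nonneg _
  have hfx : ∀ e k, aeval x (f e k) ≠ 0 := by
    intro e k
    simp only [hf, map_pow]
    exact pow_ne_zero _ (hFx _)
  rw [map_mul] at hZx
  have hZ1x : aeval x Z1 ≠ 0 := left_ne_zero_of_mul hZx
  have hyx : ∀ e k, aeval x (y e k) ≠ 0 := by
    have h1 := right_ne_zero_of_mul hZx
    rw [map_prod, Finset.prod_ne_zero_iff] at h1
    intro e k
    have h2 := h1 e (Finset.mem_univ _)
    rw [map_prod, Finset.prod_ne_zero_iff] at h2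
    exact h2 k (Finset.mem_univ _)
  have hd0 : ∀ i, (1 : ℝ) ≤ d i := fun i => by exact_mod_cast hd i
  have hD1 : (1 : ℝ) ≤ D := by exact_mod_cast hD
  have hD0 : (0 : ℝ) < D := by linarith
  choose e hanti he using fun w : Pl L => top_sorted hq
    (fun i => lam (av w) (d i) (bc L (F i)) x / d i)
  have hcard : (T.card : ℝ) ≤ S.card * r := by
    have h1 : T ⊆ S.biUnion fun v => ab L v := by
      intro w hw
      obtain ⟨hv, hvw⟩ := hT w hw
      exact Finset.mem_biUnion.2 ⟨V w, hv, mem_ab.2 hvw⟩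
    have h2 := (Finset.card_le_card h1).trans Finset.card_biUnion_le
    have h3 : ∑ v ∈ S, (ab L v).card ≤ ∑ _v ∈ S, r :=
      Finset.sum_le_sum fun v _ => (card_ab_le L v).trans hrL
    rw [Finset.sum_const, smul_eq_mul] at h3
    exact_mod_cast h2.trans h3
  -- one place
  have hplace : ∀ w : Pl L, 0 ≤ (∑ k, wt w * lam (av w) D (bc L (y (e w) k)) x) / D +
      2 * (ν + 1) * W ∧ wt w * ∑ i, lam (av w) (d i) (bc L (F i)) x / d i ≤
      ((N : ℝ) + 1 - ν) * ((∑ k, wt w * lam (av w) D (bc L (y (e w) k)) x) / D +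
        2 * (ν + 1) * W) + q * W := by
    intro w
    set u : Fin q → ℝ := fun i => lam (av w) (d i) (bc L (F i)) x / d i with hu
    have hwt := wt_pos w
    have hlamf : ∀ k, lam (av w) D (bc L (f (e w) k)) x = D * u (e w k) := by
      intro k
      have hdk : (d (e w k) : ℝ) ≠ 0 := by
        have := hd0 (e w k)
        linarith
      have e1 : (D : ℝ) = d (e w k) * ((D / d (e w k) : ℕ) : ℝ) := by
        exact_mod_cast (Nat.mul_div_cancel' (hdD (e w k))).symm
      have e2 : rho (av w) D (f (e w) k) x =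
          rho (av w) (d (e w k)) (F (e w k)) x ^ (D / d (e w k)) := by
        have h1 := rho_pow (K := K) (av w) (d (e w k)) (D / d (e w k)) (F (e w k)) x
        rw [Nat.mul_div_cancel' (hdD (e w k))] at h1
        exact h1
      rw [lam_rho, e2, Real.log_pow]
      simp only [hu]
      rw [lam_rho]
      conv_rhs => rw [e1]
      field_simp
    -- the constants
    have hWa : Ca (e w) * finrank ℚ L ≤ W := by
      refine (mul_le_mul_of_nonneg_left hfq (hCa0 _)).trans ?_
      rw [hW]
      refine mul_le_mul_of_nonneg_right ?_ hQ0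
      have := Finset.single_le_sum (f := Ca) (fun e _ => hCa0 e) (Finset.mem_univ (e w))
      linarith
    have hWb : ∀ i, Cb i * finrank ℚ L ≤ W := by
      intro i
      refine (mul_le_mul_of_nonneg_left hfq (hCb0 _)).trans ?_
      rw [hW]
      refine mul_le_mul_of_nonneg_right ?_ hQ0
      have := Finset.single_le_sum (f := Cb) (fun e _ => hCb0 e) (Finset.mem_univ i)
      linarith
    have hWc : ∀ j, Cc (e w) j * finrank ℚ L ≤ W := by
      intro j
      refine (mul_le_mul_of_nonneg_left hfq (hCc0 _ _)).trans ?_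
      rw [hW]
      refine mul_le_mul_of_nonneg_right ?_ hQ0
      have h1 := Finset.single_le_sum (f := Cc (e w)) (fun j _ => hCc0 _ j) (Finset.mem_univ j)
      have h2 := Finset.single_le_sum (f := fun e => ∑ j, Cc e j)
        (fun e _ => Finset.sum_nonneg fun j _ => hCc0 e j) (Finset.mem_univ (e w))
      linarith
    set a : Fin q → ℝ := fun i => wt w * u i with ha
    have hlow : ∀ i, 0 ≤ a i + W := by
      intro i
      have h2 := (hCb i L w x hx (hFx i)).trans (hWb i)
      have h5 : a i = (wt w * lam (av w) (d i) (bc L (F i)) x) / d i := by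
        simp only [ha, hu]
        ring
      have hdi := hd0 i
      have h6 : -(W / d i) ≤ a i := by
        rw [h5, ← neg_div]
        exact div_le_div_of_nonneg_right (by linarith) (by linarith)
      have h7 : W / d i ≤ W := div_le_self hW0 hdi
      linarith
    obtain ⟨k1, hk1⟩ := hCa (e w) L w x hx hGx (hfx (e w))
    have hak1 : a (e w k1) ≤ W := by
      have h1 := hk1.trans hWa
      rw [hlamf] at h1
      rcases le_total (a (e w k1)) 0 with h | h
      · linarith
      · have h2 : a (e w k1) ≤ D * a (e w k1) := le_mul_of_one_le_left h hD1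
        have h3 : wt w * (D * u (e w k1)) = D * a (e w k1) := by
          simp only [ha]
          ring
        linarith
    have hrest : ∀ j, j ∉ Set.range (e w) → a j ≤ W := by
      intro j hj
      exact (mul_le_mul_of_nonneg_left (he w j hj k1) hwt.le).trans hak1
    have hX : ∀ (j : Fin (ν + 1)) (i : Fin (N + 1)), (i : ℕ) + ν = N + j →
        a (e w i) ≤ wt w * lam (av w) D (bc L (y (e w) j)) x / D + W := by
      intro j i hij
      have h1 := hCc (e w) j L w x (D * a (e w i)) hx (hyx _ _) (hfx (e w)) (by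
        intro i' hi'
        have h2 : (i' : ℕ) ≤ i := by
          by_contra hcon
          push Not at hcon
          exact hi' (hctri (e w) j i' (by omega))
        rw [hlamf]
        have h3 := hanti w i' i h2
        have h4 : wt w * (D * u (e w i')) = D * (wt w * u (e w i')) := by ring
        rw [h4]
        exact mul_le_mul_of_nonneg_left (mul_le_mul_of_nonneg_left h3 hwt.le) hD0.le)
      have h2 := h1.trans (add_le_add le_rfl (hWc j))
      have h3 : a (e w i) ≤ (wt w * lam (av w) D (bc L (y (e w) j)) x + W) / D := by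
        rw [le_div_iff₀ hD0]
        linarith
      refine h3.trans ?_
      rw [add_div]
      exact add_le_add le_rfl (div_le_self hW0 hD1)
    have hX0 : a (e w 0) ≤ wt w * lam (av w) D (bc L (y (e w) 0)) x / D := by
      rw [hy0, hlamf]
      simp only [ha]
      rw [le_div_iff₀ hD0]
      linarith
    have hB : ∀ j : Fin (ν + 1), 0 ≤ wt w * lam (av w) D (bc L (y (e w) j)) x / D + 2 * W := by
      intro j
      have h1 := hX j ⟨N - ν + j, by have := j.2; omega⟩ (by simp; omega)
      have h2 := hlow (e w ⟨N - ν + j, by have := j.2; omega⟩)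
      linarith
    have hcs := comb_sum hνN (fun k => a (e w k) + W) (by
      intro k k' hk
      exact add_le_add (mul_le_mul_of_nonneg_left (hanti w k k' hk) hwt.le) le_rfl)
      (fun j => wt w * lam (av w) D (bc L (y (e w) j)) x / D + 2 * W) (by
        linarith) (by
        intro j i hij
        have := hX j i hij
        linarith) hB
    have hsumB : ∑ j : Fin (ν + 1), (wt w * lam (av w) D (bc L (y (e w) j)) x / D + 2 * W) =
        (∑ k, wt w * lam (av w) D (bc L (y (e w) k)) x) / D + 2 * (ν + 1) * W := by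
      rw [Finset.sum_add_distrib, ← Finset.sum_div, Finset.sum_const, Finset.card_univ,
        Fintype.card_fin, nsmul_eq_mul]
      push_cast
      ring
    refine ⟨by rw [← hsumB]; exact Finset.sum_nonneg fun j _ => hB j, ?_⟩
    rw [hsumB] at hcs
    have e1 : wt w * ∑ i, u i = ∑ i ∈ Finset.univ.map (e w), a i +
        ∑ i ∈ Finset.univ.filter (fun i => i ∉ Finset.univ.map (e w)), a i := by
      rw [Finset.mul_sum,
        ← Finset.sum_filter_add_sum_filter_not Finset.univ (fun i => i ∈ Finset.univ.map (e w))]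
      congr 1
      refine Finset.sum_congr ?_ fun _ _ => rfl
      ext i
      simp
    rw [e1, Finset.sum_map]
    have h1 : ∑ i ∈ Finset.univ.filter (fun i => i ∉ Finset.univ.map (e w)), a i ≤ q * W := by
      have h1 : ∑ i ∈ Finset.univ.filter (fun i => i ∉ Finset.univ.map (e w)), a i ≤
          ∑ _i ∈ Finset.univ.filter (fun i : Fin q => i ∉ Finset.univ.map (e w)), W := by
        refine Finset.sum_le_sum fun i hi => hrest i ?_
        have h2 := (Finset.mem_filter.1 hi).2
        simpa using h2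
      refine h1.trans ?_
      rw [Finset.sum_const, nsmul_eq_mul]
      refine mul_le_mul_of_nonneg_right ?_ hW0
      have h3 := Finset.card_le_univ
        (Finset.univ.filter fun i : Fin q => i ∉ Finset.univ.map (e w))
      rw [Fintype.card_fin] at h3
      exact_mod_cast h3
    have h2 : ∑ k, a (e w k) ≤ ∑ k, (a (e w k) + W) :=
      Finset.sum_le_sum fun k _ => by linarith
    linarith
  -- all places
  have hall := hC1 L hrL x hx hGx hadj hZ1x e (fun w k => hyx (e w) k) T V hT
  have hterm : ∀ w ∈ T, wt w * (∑ i, lam (av w) (d i) (bc L (F i)) x / d i) /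
      kk (finrank K L / nn (V w) w) ≤
      ((∑ k, (wt w * lam (av w) D (bc L (y (e w) k)) x)) / D) /
          cstR ν (finrank K L / nn (V w) w) + E := by
    intro w hw
    obtain ⟨hpos, hle⟩ := hplace w
    set X : ℝ := (∑ k, wt w * lam (av w) D (bc L (y (e w) k)) x) / D with hXd
    have hρw : 1 ≤ (finrank K L : ℝ) / nn (V w) w :=
      RR_one_le (rho_mem hrL (mem_ab.2 (hT w hw).2))
    have h1 := one_le_cstR hν hρw
    have h2 := hk _ hρw (ratio_le hrL (hT w hw).2)
    set cw : ℝ := cstR ν (finrank K L / nn (V w) w) with hcw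
    set kw : ℝ := kk (finrank K L / nn (V w) w) with hkw
    have hcw1 : 1 ≤ cw := by linarith
    have hcw0 : 0 < cw := by linarith
    have hkw1 : 1 ≤ kw := by nlinarith
    have hkw0 : 0 < kw := by linarith
    have hW2 : 0 ≤ 2 * ((ν : ℝ) + 1) * W := by positivity
    have hqW : 0 ≤ (q : ℝ) * W := by positivity
    refine (div_le_div_of_nonneg_right hle hkw0.le).trans ?_
    rw [add_div]
    have h3 : ((N : ℝ) + 1 - ν) * (X + 2 * (ν + 1) * W) / kw ≤ X / cw + 2 * (ν + 1) * W := by
      have h4 : ((N : ℝ) + 1 - ν) * (X + 2 * (ν + 1) * W) / kw ≤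
          ((N : ℝ) + 1 - ν) * (X + 2 * (ν + 1) * W) / (((N : ℝ) + 1 - ν) * cw) :=
        div_le_div_of_nonneg_left (mul_nonneg (by linarith) hpos) (by positivity) h2
      have h5 : ((N : ℝ) + 1 - ν) * (X + 2 * (ν + 1) * W) / (((N : ℝ) + 1 - ν) * cw) =
          (X + 2 * (ν + 1) * W) / cw := mul_div_mul_left _ _ (by linarith)
      rw [h5, add_div] at h4
      have h6 : 2 * ((ν : ℝ) + 1) * W / cw ≤ 2 * (ν + 1) * W := div_le_self hW2 hcw1
      linarith
    have h4 : (q : ℝ) * W / kw ≤ q * W := div_le_self hqW hkw1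
    linarith
  refine (Finset.sum_le_sum hterm).trans ?_
  rw [Finset.sum_add_distrib, Finset.sum_const, nsmul_eq_mul]
  have h2 : (T.card : ℝ) * E ≤ S.card * (r * E) := by
    have := mul_le_mul_of_nonneg_right hcard hE0
    linarith
  linarith

end

end Pool.Agent.H426.Ru
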