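import Pool.Agent.H426.Ru.Sec
import Pool.Agent.H426.Ru.S5
import Pool.Agent.H426.Ru.Prin
import Pool.Agent.H426.Ru.All

/-!
Surfaces in `ℙ³`.
-/

set_option autoImplicit false

namespace Pool.Agent.H426.Ru

open MvPolynomial Finset NumberField IsDedekindDomain Height Module
open Pool.Agent.W180.OP Pool.Agent.W180.TP Pool.Agent.NH28
open Pool.Agent.TH875 (not_all form_ub comb_le alg_ind)

/-- `c(2, ρ) ≤ 4 ρ - 1 / 2` -/
lemma cstR_two_le {ρ : ℝ} (hρ : 1 ≤ ρ) : cstR 2 ρ ≤ 4 * ρ - 1 / 2 := by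
  have hx0 : 0 ≤ 1 - 1 / ρ := by
    rw [sub_nonneg, div_le_one (by linarith)]
    exact hρ
  have e0 : cstR 2 ρ = (((2 : ℕ) : ℝ) + 1) / (1 - ((2 : ℕ) : ℝ) * (ρ - 1) *
    (1 - (1 - 1 / ρ) ^ (1 / ((2 : ℕ) : ℝ)))) := rfl
  set s : ℝ := (1 - 1 / ρ) ^ (1 / ((2 : ℕ) : ℝ)) with hs
  have hs0 : 0 ≤ s := Real.rpow_nonneg hx0 _
  have hs2 : s ^ 2 = 1 - 1 / ρ := by
    rw [hs, ← Real.rpow_natCast, ← Real.rpow_mul hx0]
    norm_num
  have hρ0 : ρ ≠ 0 := by linarith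
  have hρs : ρ * (1 - s ^ 2) = 1 := by
    rw [hs2]
    field_simp
    ring
  have hs1 : s < 1 := by
    by_contra hcon
    push Not at hcon
    have h1 : 1 ≤ s ^ 2 := by nlinarith
    nlinarith
  rw [e0]
  push_cast
  have hden : 1 - 2 * (ρ - 1) * (1 - s) = ρ * ((1 - s) ^ 2 * (1 + 2 * s)) := by
    have h1 : ρ * s ^ 2 = ρ - 1 := by nlinarith
    have h2 : (1 : ℝ) = ρ * (1 - s ^ 2) := hρs.symm
    have h3 : ρ * ((1 - s) ^ 2 * (1 + 2 * s)) = ρ * (1 - s ^ 2) - 2 * (ρ * s ^ 2) * (1 - s) := by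
      ring
    rw [h3, h1, ← h2]
  rw [hden, div_le_iff₀ (by
    have : 0 < 1 - s := by linarith
    have : 0 < ρ := by linarith
    positivity)]
  -- `3 ≤ (4 ρ - 1 / 2) ρ (1 - s)² (1 + 2 s)`
  have h4 : (4 * ρ - 1 / 2) * (1 - s ^ 2) = (7 + s ^ 2) / 2 := by
    have : (4 * ρ - 1 / 2) * (1 - s ^ 2) = 4 * (ρ * (1 - s ^ 2)) - (1 - s ^ 2) / 2 := by ring
    rw [this, hρs]
    ring
  have h5 : 0 < 1 - s ^ 2 := by nlinarith
  have h6 : (2 + 1 : ℝ) * (1 - s ^ 2) ^ 2 ≤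
      (4 * ρ - 1 / 2) * (ρ * ((1 - s) ^ 2 * (1 + 2 * s))) * (1 - s ^ 2) ^ 2 := by
    have h7 : (4 * ρ - 1 / 2) * (ρ * ((1 - s) ^ 2 * (1 + 2 * s))) * (1 - s ^ 2) ^ 2 =
        ((4 * ρ - 1 / 2) * (1 - s ^ 2)) * (ρ * (1 - s ^ 2)) * ((1 - s) ^ 2 * (1 + 2 * s)) := by ring
    rw [h7, h4, hρs]
    have h8 : (7 + s ^ 2) / 2 * 1 * ((1 - s) ^ 2 * (1 + 2 * s)) - (2 + 1) * (1 - s ^ 2) ^ 2 =
        (1 - s) ^ 3 * (1 + 3 * s - 2 * s ^ 2) / 2 := by ring
    have h9 : 0 ≤ (1 - s) ^ 3 * (1 + 3 * s - 2 * s ^ 2) / 2 := by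
      have : 0 ≤ 1 - s := by linarith
      have : 0 ≤ 1 + 3 * s - 2 * s ^ 2 := by nlinarith
      positivity
    linarith
  exact le_of_mul_le_mul_right h6 (by positivity)

section

variable {K : Type} [Field K] [NumberField K]

/-- The inequality for the points of the cone of `J` off the zeros of `Z`, at places with
`ρ_w ≤ ρ`. -/
def BdC {n q : ℕ} (r : ℕ) (ρ κ ε : ℝ) (F : Fin q → MvPolynomial (Fin n) K) (d : Fin q → ℕ)
    (J : Ideal (MvPolynomial (Fin n) K)) (Z : MvPolynomial (Fin n) K) : Prop :=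
  ∀ S : Finset (Pl K), ∃ C : ℝ, 0 ≤ C ∧ ∀ (L : Type) [Field L] [NumberField L] [Algebra K L],
    finrank K L ≤ r → ∀ x : Fin n → L, x ≠ 0 → (∀ p ∈ J, aeval x p = 0) →
    IntermediateField.adjoin K {z | ∃ i j, z = x i / x j} = ⊤ → aeval x Z ≠ 0 →
    (∀ i, aeval x (F i) ≠ 0) →
    ∀ (T : Finset (Pl L)) (V : Pl L → Pl K), (∀ w ∈ T, V w ∈ S ∧ Ov (V w) w) →
    (∀ w ∈ T, finrank K L / nn (V w) w ≤ ρ) →
    ∑ w ∈ T, wt w * (∑ i, lam (av w) (d i) (bc L (F i)) x / d i) ≤ (κ + ε) * logHeight x + C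

lemma Bd.toC {n q r : ℕ} {kk : ℝ → ℝ} {ε1 ρ κ ε : ℝ} {F : Fin q → MvPolynomial (Fin n) K}
    {d : Fin q → ℕ} {J : Ideal (MvPolynomial (Fin n) K)} {Z : MvPolynomial (Fin n) K}
    (h : Bd r kk ε1 F d J Z) (hk1 : ∀ s : ℝ, 1 ≤ s → s ≤ r → 1 ≤ kk s)
    (hd : ∀ i, 1 ≤ d i) (hF : ∀ i, (F i).IsHomogeneous (d i)) (hκ : 0 ≤ κ)
    (hkκ : ∀ s : ℝ, 1 ≤ s → s ≤ ρ → kk s ≤ κ) (hεε : ε1 * κ ≤ ε) (hε1 : 0 ≤ ε1) :
    BdC r ρ κ ε F d J Z := by
  intro S
  obtain ⟨C, hC0, hC⟩ := h S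
  obtain ⟨C', hC'0, hC'⟩ := Bd.unif hk1 F d hd hF κ ε hκ hεε hε1 S C hC0
  refine ⟨C', hC'0, ?_⟩
  intro L _ _ _ hrL x hx hJ hadj hZ hFx T V hT hρT
  refine hC' L hrL x hx hFx T V hT (hC L hrL x hx hJ hadj hZ hFx T V hT) κ hκ le_rfl ?_
  intro w hw
  exact hkκ _ (RR_one_le (rho_mem (r := r) hrL (mem_ab.2 (hT w hw).2))) (hρT w hw)

lemma BdC.glue {n q r : ℕ} {ρ κ ε : ℝ} {F : Fin q → MvPolynomial (Fin n) K} {d : Fin q → ℕ}
    {J : Ideal (MvPolynomial (Fin n) K)} {Z : MvPolynomial (Fin n) K}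
    (h1 : BdC r ρ κ ε F d J Z) (h2 : BdC r ρ κ ε F d (J ⊔ Ideal.span {Z}) 1) :
    BdC r ρ κ ε F d J 1 := by
  intro S
  obtain ⟨C1, hC1, h1⟩ := h1 S
  obtain ⟨C2, hC2, h2⟩ := h2 S
  refine ⟨C1 + C2, by positivity, ?_⟩
  intro L _ _ _ hrL x hx hJ hadj h1x hFx T V hT hρT
  by_cases hZ : aeval x Z = 0
  · have h3 := h2 L hrL x hx (by
      intro p hp
      rw [sup_comm, Ideal.mem_span_singleton_sup] at hp
      obtain ⟨a, b, hb, rfl⟩ := hp
      rw [map_add, map_mul, hZ, mul_zero, hJ b hb, add_zero]) hadj h1x hFx T V hT hρT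
    linarith
  · have h3 := h1 L hrL x hx hJ hadj hZ hFx T V hT hρT
    linarith

lemma BdC.red {n q r : ℕ} {ρ κ ε : ℝ} {F : Fin q → MvPolynomial (Fin n) K} {d : Fin q → ℕ}
    {J : Ideal (MvPolynomial (Fin n) K)} {a b : MvPolynomial (Fin n) K} (hab : a * b ∈ J)
    (h1 : BdC r ρ κ ε F d (J ⊔ Ideal.span {a}) 1) (h2 : BdC r ρ κ ε F d (J ⊔ Ideal.span {b}) 1) :
    BdC r ρ κ ε F d J 1 := by
  intro S
  obtain ⟨C1, hC1, h1⟩ := h1 S
  obtain ⟨C2, hC2, h2⟩ := h2 S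
  refine ⟨C1 + C2, by positivity, ?_⟩
  intro L _ _ _ hrL x hx hJ hadj h1x hFx T V hT hρT
  have h3 := hJ _ hab
  rw [map_mul, mul_eq_zero] at h3
  rcases h3 with h3 | h3
  · have h3 := h1 L hrL x hx (by
      intro p hp
      rw [sup_comm, Ideal.mem_span_singleton_sup] at hp
      obtain ⟨a, b, hb, rfl⟩ := hp
      rw [map_add, map_mul, h3, mul_zero, hJ b hb, add_zero]) hadj h1x hFx T V hT hρT
    linarith
  · have h3 := h2 L hrL x hx (by
      intro p hp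
      rw [sup_comm, Ideal.mem_span_singleton_sup] at hp
      obtain ⟨a, b, hb, rfl⟩ := hp
      rw [map_add, map_mul, h3, mul_zero, hJ b hb, add_zero]) hadj h1x hFx T V hT hρT
    linarith

/-- at most one line with large multiplicity -/
lemma unique_pair {K : Type} [Field K] {q d : ℕ} (ℓ : Fin q → MvPolynomial (Fin 4) K)
    (hℓ : ∀ i, (ℓ i).IsHomogeneous 1)
    (hgp : ∀ (k : ℕ), k ≤ 4 → ∀ e : Fin k ↪ Fin q, LinearIndependent K (fun i => ℓ (e i)))
    (F : MvPolynomial (Fin 4) K) (hF0 : F ≠ 0) (hF : F.IsHomogeneous d)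
    (hdvd : ∀ i, ¬ ℓ i ∣ F) {a b a' b' : Fin q} (hab : a ≠ b) (hab' : a' ≠ b') {j j' : ℕ}
    (hj : d < 2 * j) (hj' : d < 2 * j') (h1 : F ∈ (Ideal.span {ℓ a, ℓ b}) ^ j)
    (h2 : F ∈ (Ideal.span {ℓ a', ℓ b'}) ^ j') : a = a' ∨ a = b' := by
  by_contra hcon
  push Not at hcon
  obtain ⟨h3, h4⟩ := hcon
  -- a coplanar configuration
  have hcop : ∀ c : Fin q, b ≠ c → a ≠ c → F ∈ (Ideal.span {ℓ b, ℓ c}) ^ j' → False := by
    intro c hbc hac hc
    have hinj : Function.Injective (![b, a, c] : Fin 3 → Fin q) := by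
      intro i i' hii
      fin_cases i <;> fin_cases i' <;> simp_all
    have hi := hgp 3 (by norm_num) ⟨_, hinj⟩
    have h5 := S5.pair_coplanar F hF (fun i => ℓ ((![b, a, c] : Fin 3 → Fin q) i))
      (fun i => hℓ _) hi (hdvd _) j j' (by
        have e1 : ({ℓ ((![b, a, c] : Fin 3 → Fin q) 0), ℓ ((![b, a, c] : Fin 3 → Fin q) 1)} :
            Set (MvPolynomial (Fin 4) K)) = {ℓ a, ℓ b} := by
          simp [Set.pair_comm]
        rw [e1]
        exact h1) (by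
        simpa using hc)
    omega
  by_cases h5 : b = a'
  · refine hcop b' (by rw [h5]; exact hab') h4 ?_
    rw [h5]
    exact h2
  by_cases h6 : b = b'
  · refine hcop a' h5 h3 ?_
    rw [h6, Set.pair_comm]
    exact h2
  · have hinj : Function.Injective (![a, b, a', b'] : Fin 4 → Fin q) := by
      intro i i' hii
      fin_cases i <;> fin_cases i' <;> simp_all
    have hi := hgp 4 le_rfl ⟨_, hinj⟩
    have h7 := S5.pair_disjoint F hF0 hF (fun i => ℓ ((![a, b, a', b'] : Fin 4 → Fin q) i))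
      (fun i => hℓ _) hi j j' (by simpa using h1) (by simpa using h2)
    omega

/-- four independent linear forms have no common zero -/
lemma no_zero {K : Type} [Field K] (ℓ : Fin 4 → MvPolynomial (Fin 4) K)
    (hℓ : ∀ i, (ℓ i).IsHomogeneous 1) (hind : LinearIndependent K ℓ) (L : Type) [Field L]
    [Algebra K L] (x : Fin 4 → L) (h : ∀ i, aeval x (ℓ i) = 0) : x = 0 := by
  obtain ⟨ψ, h1, -, h3⟩ := S3.exists_inv ℓ hℓ hind
  funext j
  have h4 := congrArg (aeval x) (h1 (X j))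
  rw [aeval_X] at h4
  have h5 : aeval x (aeval ℓ (ψ (X j))) = aeval (fun i => aeval x (ℓ i)) (ψ (X j)) := by
    have h6 : (aeval x : MvPolynomial (Fin 4) K →ₐ[K] L).comp (aeval ℓ) =
        aeval (fun i => aeval x (ℓ i)) := by
      apply MvPolynomial.algHom_ext
      intro i
      simp
    exact DFunLike.congr_fun h6 _
  rw [h5] at h4
  have h6 := h3 (X j) 1 (isHomogeneous_X K j)
  have h7 : aeval (fun i => aeval x (ℓ i)) (ψ (X j)) = 0 := by
    rw [aeval_def, eval₂_eq]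
    refine Finset.sum_eq_zero fun β hβ => ?_
    have hdeg : β.degree = 1 := by
      have := h6 (mem_support_iff.1 hβ)
      exact (DFunLike.congr_fun (Finsupp.degree_eq_weight_one (σ := Fin 4) (R := ℕ)) β).trans this
    have h8 : β ≠ 0 := by
      rintro rfl
      simp at hdeg
    obtain ⟨i, hi⟩ := Finsupp.ne_iff.1 h8
    rw [Finset.prod_eq_zero (i := i) (Finsupp.mem_support_iff.2 hi)]
    · rw [mul_zero]
    · rw [h i]
      exact zero_pow hi
  rw [h7] at h4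
  exact h4.symm

/-- the first estimate: the largest and the third term -/
theorem stepA {r : ℕ} (hr : 1 ≤ r) {Sy : Type} [Fintype Sy] [Nonempty Sy]
    (ℓ : Sy → Fin 4 → MvPolynomial (Fin 4) K) (hℓ : ∀ e i, (ℓ e i).IsHomogeneous 1)
    (hind : ∀ e, LinearIndependent K (ℓ e))
    (F : MvPolynomial (Fin 4) K) {d : ℕ} (hF : F.IsHomogeneous d)
    (hprime : (Ideal.span {F}).IsPrime)
    (htr : Algebra.trdeg K (MvPolynomial (Fin 4) K ⧸ Ideal.span {F}) = (3 : ℕ))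
    (hℓF : ∀ e i, ℓ e i ∉ Ideal.span {F}) (ε : ℝ) (hε : 0 < ε) :
    ∃ Z : MvPolynomial (Fin 4) K, Z ∉ Ideal.span {F} ∧ (∃ t, Z.IsHomogeneous t) ∧
      ∀ S : Finset (Pl K), ∃ C : ℝ, 0 ≤ C ∧ ∀ (L : Type) [Field L] [NumberField L] [Algebra K L],
        finrank K L ≤ r → ∀ x : Fin 4 → L, x ≠ 0 → aeval x F = 0 →
        IntermediateField.adjoin K {z | ∃ i j, z = x i / x j} = ⊤ → aeval x Z ≠ 0 →
        (∀ e i, aeval x (ℓ e i) ≠ 0) →
        ∀ e : Pl L → Sy, ∀ (T : Finset (Pl L)) (V : Pl L → Pl K),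
        (∀ w ∈ T, V w ∈ S ∧ Ov (V w) w) →
        (∀ w ∈ T, ∀ i j : Fin 4, i ≤ j →
          lam (av w) 1 (bc L (ℓ (e w) j)) x ≤ lam (av w) 1 (bc L (ℓ (e w) i)) x) →
        ∀ ρ : ℝ, 1 ≤ ρ → (∀ w ∈ T, finrank K L / nn (V w) w ≤ ρ) →
        ∑ w ∈ T, wt w * (lam (av w) 1 (bc L (ℓ (e w) 0)) x + lam (av w) 1 (bc L (ℓ (e w) 2)) x) ≤
          cstR 2 ρ * ((1 + ε) * logHeight x + C) := by
  classical
  set G : Fin 1 → MvPolynomial (Fin 4) K := fun _ => F with hG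
  have hGs : Ideal.span (Set.range G) = Ideal.span {F} := by
    rw [hG, Set.range_const]
  have hGh : ∀ k, (G k).IsHomogeneous ((fun _ : Fin 1 => d) k) := fun _ => hF
  have hprime' : (Ideal.span (Set.range G)).IsPrime := by rw [hGs]; exact hprime
  have htr' : Algebra.trdeg K (MvPolynomial (Fin 4) K ⧸ Ideal.span (Set.range G)) =
      ((2 + 1 : ℕ) : Cardinal) := by rw [hGs, htr]
  have h0ℓ : ∀ e, ∀ (L : Type) [Field L] [Algebra K L] (x : Fin 4 → L),
      (∀ k, aeval x (G k) = 0) → (∀ k, aeval x (ℓ e k) = 0) → x = 0 := fun e L _ _ x _ h2 =>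
    no_zero (ℓ e) (hℓ e) (hind e) L x h2
  have hsys := fun e => S1.exists_systems le_rfl G (fun _ => d) hGh hprime' htr' (ℓ e) (hℓ e)
    (by rw [hGs]; exact hℓF e 0) (h0ℓ e)
  choose c hc0 hctri hcz using fun e => (hsys e).2
  set y : Sy → Fin (2 + 1) → MvPolynomial (Fin 4) K := fun e j =>
    ∑ i, C (c e j i) * ℓ e i with hy
  have hyh : ∀ e k, (y e k).IsHomogeneous 1 := by
    intro e k
    refine IsHomogeneous.sum _ _ _ fun i _ => ?_
    have := (isHomogeneous_C (Fin 4) (c e k i)).mul (hℓ e i)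
    rwa [zero_add] at this
  have h0y : ∀ e, ∀ (L : Type) [Field L] [Algebra K L] (x : Fin 4 → L),
      (∀ k, aeval x (G k) = 0) → (∀ k, aeval x (y e k) = 0) → x = 0 := fun e L _ _ x h1 h2 =>
    hcz e L x h1 h2
  have hyI : ∀ e k, y e k ∉ Ideal.span (Set.range G) := by
    intro e k h
    have h1 := (alg_ind G (fun _ => d) hGh 1 le_rfl (y e) (hyh e) (h0y e) hprime' htr').ne_zero k
    exact h1 (Ideal.Quotient.eq_zero_iff_mem.2 h)
  obtain ⟨Z1, hZ1, ⟨t1, hZ1h⟩, hmain⟩ := sys_main (by norm_num : 1 ≤ 2) hr le_rfl G (fun _ => d) hGh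
    hprime' htr' y hyh h0y ε hε
  have hZh : (Z1 * ∏ e, ∏ k, y e k).IsHomogeneous (t1 + ∑ _e : Sy, ∑ _k : Fin (2 + 1), 1) :=
    hZ1h.mul (IsHomogeneous.prod _ _ _ fun e _ => IsHomogeneous.prod _ _ _ fun k _ => hyh e k)
  rw [← hGs]
  refine ⟨Z1 * ∏ e, ∏ k, y e k, ?_, ⟨_, hZh⟩, ?_⟩
  · intro h
    rcases hprime'.mem_or_mem h with h | h
    · exact hZ1 h
    · rw [hprime'.prod_mem_iff] at h
      obtain ⟨e, _, h⟩ := h
      rw [hprime'.prod_mem_iff] at h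
      obtain ⟨k, _, h⟩ := h
      exact hyI e k h
  intro S
  obtain ⟨C1, hC10, hC1⟩ := hmain S
  choose Cb hCb0 hCb using fun t : Sy × Fin 4 => form_ub (ℓ t.1 t.2) (hℓ t.1 t.2)
  choose Cc hCc0 hCc using fun (t : Sy × Fin (2 + 1)) =>
    comb_lam (D := 1) (ℓ t.1) (y t.1 t.2) (c t.1 t.2) (by
      simp only [hy]
      exact Finset.sum_congr rfl fun i _ => by rw [← MvPolynomial.smul_eq_C_mul])
  have hCbs : 0 ≤ ∑ i, Cb i := Finset.sum_nonneg fun e _ => hCb0 e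
  have hCcs : 0 ≤ ∑ e, Cc e := Finset.sum_nonneg fun e _ => hCc0 e
  set Q : ℝ := (finrank ℚ K : ℝ) * r with hQ
  have hQ0 : 0 ≤ Q := by positivity
  set W : ℝ := (∑ i, Cb i + ∑ e, Cc e) * Q with hW
  have hW0 : 0 ≤ W := by positivity
  refine ⟨C1 + S.card * (r * (6 * W)), by positivity, ?_⟩
  intro L _ _ _ hrL x hx hFx hadj hZx hℓx e T V hT hsort ρ hρ1 hρT
  have hGx : ∀ k, aeval x (G k) = 0 := fun _ => hFx
  have hfq : (finrank ℚ L : ℝ) ≤ Q := by
    have h1 : finrank ℚ K * finrank K L = finrank ℚ L := finrank_mul_finrank ℚ K L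
    rw [hQ, ← h1]
    push_cast
    exact mul_le_mul_of_nonneg_left (by exact_mod_cast hrL) (Nat.cast_nonneg _)
  rw [map_mul] at hZx
  have hyx : ∀ e k, aeval x (y e k) ≠ 0 := by
    have h1 := right_ne_zero_of_mul hZx
    rw [map_prod, Finset.prod_ne_zero_iff] at h1
    intro e k
    have h2 := h1 e (Finset.mem_univ _)
    rw [map_prod, Finset.prod_ne_zero_iff] at h2
    exact h2 k (Finset.mem_univ _)
  have hcard : (T.card : ℝ) ≤ S.card * r := by
    have h1 : T ⊆ S.biUnion fun v => ab L v := by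
      intro w hw
      obtain ⟨hv, hvw⟩ := hT w hw
      exact Finset.mem_biUnion.2 ⟨V w, hv, mem_ab.2 hvw⟩
    have h2 := (Finset.card_le_card h1).trans Finset.card_biUnion_le
    have h3 : ∑ v ∈ S, (ab L v).card ≤ ∑ _v ∈ S, r :=
      Finset.sum_le_sum fun v _ => (card_ab_le L v).trans hrL
    rw [Finset.sum_const, smul_eq_mul] at h3
    exact_mod_cast h2.trans h3
  have hWb : ∀ t, Cb t * finrank ℚ L ≤ W := by
    intro t
    refine (mul_le_mul_of_nonneg_left hfq (hCb0 _)).trans ?_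
    rw [hW]
    refine mul_le_mul_of_nonneg_right ?_ hQ0
    have := Finset.single_le_sum (f := Cb) (fun e _ => hCb0 e) (Finset.mem_univ t)
    linarith
  have hWc : ∀ t, Cc t * finrank ℚ L ≤ W := by
    intro t
    refine (mul_le_mul_of_nonneg_left hfq (hCc0 _)).trans ?_
    rw [hW]
    refine mul_le_mul_of_nonneg_right ?_ hQ0
    have := Finset.single_le_sum (f := Cc) (fun e _ => hCc0 e) (Finset.mem_univ t)
    linarith
  have hlow : ∀ w t, 0 ≤ wt w * lam (av w) 1 (bc L (ℓ (Prod.fst t) (Prod.snd t))) x + W := by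
    intro w t
    have h2 := (hCb t L w x hx (hℓx t.1 t.2)).trans (hWb t)
    linarith
  have hcc := one_le_cstR (ν := 2) (by norm_num) hρ1
  have hcc1 : 1 ≤ cstR 2 ρ := by
    push_cast at hcc
    linarith
  -- one place
  have hplace : ∀ w ∈ T, wt w * (lam (av w) 1 (bc L (ℓ (e w) 0)) x +
      lam (av w) 1 (bc L (ℓ (e w) 2)) x) ≤
      cstR 2 ρ * (((∑ k, (wt w * lam (av w) 1 (bc L (y (e w) k)) x)) / (1 : ℕ)) /
          cstR 2 (finrank K L / nn (V w) w) + 6 * W) := by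
    intro w hw
    have hwt := wt_pos w
    have hX : ∀ (j : Fin (2 + 1)) (i : Fin 4), (i : ℕ) + 2 = 3 + j →
        wt w * lam (av w) 1 (bc L (ℓ (e w) i)) x ≤
        wt w * lam (av w) 1 (bc L (y (e w) j)) x + W := by
      intro j i hij
      have h1 := hCc (e w, j) L w x (wt w * lam (av w) 1 (bc L (ℓ (e w) i)) x) hx (hyx _ _)
        (hℓx (e w)) (by
        intro i' hi'
        have h2 : (i' : ℕ) ≤ i := by
          by_contra hcon
          push Not at hcon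
          exact hi' (hctri (e w) j i' (by omega))
        exact mul_le_mul_of_nonneg_left (hsort w hw i' i h2) hwt.le)
      exact h1.trans (add_le_add le_rfl (hWc _))
    have hX0 : wt w * lam (av w) 1 (bc L (ℓ (e w) 0)) x ≤
        wt w * lam (av w) 1 (bc L (y (e w) 0)) x + W := by
      have h1 := hCc (e w, 0) L w x (wt w * lam (av w) 1 (bc L (ℓ (e w) 0)) x) hx (hyx _ _)
        (hℓx (e w)) (by
        intro i' hi'
        have h2 : i' = 0 := by
          by_contra hcon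
          apply hi'
          show c (e w) 0 i' = 0
          rw [hc0]
          exact Pi.single_eq_of_ne hcon _
        rw [h2])
      exact h1.trans (add_le_add le_rfl (hWc _))
    have hX1 := hX 1 2 (by norm_num)
    have hX2 := hX 2 3 (by norm_num)
    have hl3 := hlow w (e w, 3)
    have hl2 := hlow w (e w, 2)
    have hl0 := hlow w (e w, 0)
    simp only at hl3 hl2 hl0
    have hsum : ∑ k, (wt w * lam (av w) 1 (bc L (y (e w) k)) x) =
        wt w * lam (av w) 1 (bc L (y (e w) 0)) x + wt w * lam (av w) 1 (bc L (y (e w) 1)) x +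
        wt w * lam (av w) 1 (bc L (y (e w) 2)) x := by
      rw [Fin.sum_univ_three]
    set X : ℝ := ∑ k, (wt w * lam (av w) 1 (bc L (y (e w) k)) x) with hXd
    have h1 : wt w * (lam (av w) 1 (bc L (ℓ (e w) 0)) x + lam (av w) 1 (bc L (ℓ (e w) 2)) x) ≤
        X + 4 * W := by
      rw [hsum, mul_add]
      linarith
    have h2 : 0 ≤ X + 6 * W := by
      rw [hsum]
      linarith
    have hρw : 1 ≤ (finrank K L : ℝ) / nn (V w) w :=
      RR_one_le (rho_mem hrL (mem_ab.2 (hT w hw).2))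
    have h3 := one_le_cstR (ν := 2) (by norm_num) hρw
    have h4 := cstR_mono (ν := 2) (by norm_num) hρw (hρT w hw)
    set cw : ℝ := cstR 2 (finrank K L / nn (V w) w) with hcw
    have hcw1 : 1 ≤ cw := by
      push_cast at h3
      linarith
    have hcw0 : 0 < cw := by linarith
    have h5 : X + 6 * W = cw * ((X + 6 * W) / cw) := by field_simp
    have h6 : 0 ≤ (X + 6 * W) / cw := div_nonneg h2 hcw0.le
    have h7 : cw * ((X + 6 * W) / cw) ≤ cstR 2 ρ * ((X + 6 * W) / cw) :=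
      mul_le_mul_of_nonneg_right h4 h6
    have h8 : (X + 6 * W) / cw ≤ X / (1 : ℕ) / cw + 6 * W := by
      rw [add_div, Nat.cast_one, div_one]
      exact add_le_add le_rfl (div_le_self (by positivity) hcw1)
    have h9 := mul_le_mul_of_nonneg_left h8 (by linarith : (0 : ℝ) ≤ cstR 2 ρ)
    linarith
  refine (Finset.sum_le_sum hplace).trans ?_
  rw [← Finset.mul_sum, Finset.sum_add_distrib, Finset.sum_const, nsmul_eq_mul]
  refine mul_le_mul_of_nonneg_left ?_ (by linarith)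
  have h1 := hC1 L hrL x hx hGx hadj (left_ne_zero_of_mul hZx) e (fun w k => hyx (e w) k) T V hT
  have h2 : (T.card : ℝ) * (6 * W) ≤ S.card * (r * (6 * W)) := by
    have := mul_le_mul_of_nonneg_right hcard (by positivity : 0 ≤ 6 * W)
    linarith
  linarith

end

end Pool.Agent.H426.Ru
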