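import Pool.Agent.H426.Ru.Surf

/-!
The inequality on surfaces in `ℙ³`, and on `ℙ³`.
-/

set_option autoImplicit false

namespace Pool.Agent.H426.Ru

open MvPolynomial Finset NumberField IsDedekindDomain Height Module
open Pool.Agent.W180.OP Pool.Agent.W180.TP Pool.Agent.NH28
open Pool.Agent.TH875 (not_all form_ub comb_le alg_ind)

section

variable {K : Type} [Field K] [NumberField K]

theorem surf_step {q r : ℕ} (hr : 1 ≤ r) (hq : 4 ≤ q) (ℓ : Fin q → MvPolynomial (Fin 4) K)
    (hℓ : ∀ i, (ℓ i).IsHomogeneous 1)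
    (hgp : ∀ (k : ℕ), k ≤ 4 → ∀ e : Fin k ↪ Fin q, LinearIndependent K (fun i => ℓ (e i)))
    (F : MvPolynomial (Fin 4) K) (hF0 : F ≠ 0) {d : ℕ} (hd : 1 ≤ d) (hF : F.IsHomogeneous d)
    (hprime : (Ideal.span {F}).IsPrime)
    (htr : Algebra.trdeg K (MvPolynomial (Fin 4) K ⧸ Ideal.span {F}) = (3 : ℕ))
    (hℓF : ∀ i, ℓ i ∉ Ideal.span {F}) (ρ : ℝ) (hρ : 1 ≤ ρ) (ε : ℝ) (hε : 0 < ε) :
    ∃ (Z : MvPolynomial (Fin 4) K) (t : ℕ), Z.IsHomogeneous t ∧ Z ∉ Ideal.span {F} ∧
      BdC r ρ (6 * ρ) ε ℓ (fun _ => 1) (Ideal.span {F}) Z := by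
  classical
  have hne : Nonempty (Fin 4 ↪ Fin q) := ⟨Fin.castLEEmb hq⟩
  set ε1 : ℝ := ε / (6 * ρ) with hε1
  have hε10 : 0 < ε1 := by positivity
  have hεε : 6 * ρ * ε1 = ε := by
    rw [hε1]
    field_simp
  have hind : ∀ e : Fin 4 ↪ Fin q, LinearIndependent K (fun i => ℓ (e i)) := hgp 4 le_rfl
  obtain ⟨ZA, hZA, ⟨tA, hZAh⟩, hA⟩ := stepA hr (fun (e : Fin 4 ↪ Fin q) i => ℓ (e i))
    (fun e i => hℓ _) hind F hF hprime htr (fun e i => hℓF _) ε1 hε10
  obtain ⟨κ, hκ, hκ2, ZB, hZB, ⟨tB, hZBh⟩, hB⟩ := second_level hr F hF0 hd hF hprime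
    (fun (e : Fin 4 ↪ Fin q) i => ℓ (e i)) (fun e i => hℓ _) hind ε1 hε10
  -- no plane is a component
  have hFp : Prime F := (Ideal.span_singleton_prime hF0).1 hprime
  have hdvd : ∀ i, ¬ ℓ i ∣ F := by
    intro i hi
    obtain ⟨A, hAF⟩ := hi
    rcases hFp.irreducible.isUnit_or_isUnit hAF with h | h
    · have h1 : (ℓ i).totalDegree = 1 := (hℓ i).totalDegree (by
        intro h0
        rw [h0] at h
        exact not_isUnit_zero h)
      rw [MvPolynomial.isUnit_iff_totalDegree_of_isReduced] at h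
      omega
    · apply hℓF i
      rw [Ideal.mem_span_singleton]
      obtain ⟨u, rfl⟩ := h
      refine ⟨(↑u⁻¹ : MvPolynomial (Fin 4) K), ?_⟩
      rw [hAF, mul_assoc, Units.mul_inv, mul_one]
  refine ⟨ZA * ZB, tA + tB, hZAh.mul hZBh, fun h => ?_, ?_⟩
  · rcases hprime.mem_or_mem h with h | h
    · exact hZA h
    · exact hZB h
  intro S
  obtain ⟨CA, hCA0, hCA⟩ := hA S
  obtain ⟨CB, hCB0, hCB⟩ := hB S
  choose Ca hCa0 hCa using fun e : Fin 4 ↪ Fin q => not_all (by norm_num : 0 < 4)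
    (fun _ : Fin 1 => F) (fun _ => d) (fun _ => hF) (fun i => ℓ (e i)) (D := 1) (fun i => hℓ _)
    (fun L _ _ x _ h2 => no_zero (fun i => ℓ (e i)) (fun i => hℓ _) (hind e) L x h2)
  choose Cb hCb0 hCb using fun i : Fin q => form_ub (ℓ i) (hℓ i)
  choose Cl hCl0 hCl using fun i : Fin q => liou_u (ℓ i) 1 (hℓ i)
  have hCas : 0 ≤ ∑ e, Ca e := Finset.sum_nonneg fun e _ => hCa0 e
  have hCbs : 0 ≤ ∑ i, Cb i := Finset.sum_nonneg fun e _ => hCb0 e
  have hCls : 0 ≤ ∑ i, Cl i := Finset.sum_nonneg fun e _ => hCl0 e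
  set Q : ℝ := (finrank ℚ K : ℝ) * r with hQ
  have hQ0 : 0 ≤ Q := by positivity
  set W : ℝ := (∑ e, Ca e + ∑ i, Cb i + ∑ e, Cl e) * Q with hW
  have hW0 : 0 ≤ W := by positivity
  have hρ0 : 0 < ρ := by linarith
  refine ⟨4 * ρ * CA + 2 * ρ * (CB + S.card * (r * W)) + W + S.card * (r * ((q + 1) * W)),
    by positivity, ?_⟩
  intro L _ _ _ hrL x hx hIx hadj hZx hℓx T V hT hρT
  have hFx : aeval x F = 0 := hIx F (Ideal.subset_span rfl)
  have hfq : (finrank ℚ L : ℝ) ≤ Q := by
    have h1 : finrank ℚ K * finrank K L = finrank ℚ L := finrank_mul_finrank ℚ K L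
    rw [hQ, ← h1]
    push_cast
    exact mul_le_mul_of_nonneg_left (by exact_mod_cast hrL) (Nat.cast_nonneg _)
  rw [map_mul] at hZx
  choose e hanti he using fun w : Pl L => top_sorted hq (fun i => lam (av w) 1 (bc L (ℓ i)) x)
  have hcard : (T.card : ℝ) ≤ S.card * r := by
    have h1 : T ⊆ S.biUnion fun v => ab L v := by
      intro w hw
      obtain ⟨hv, hvw⟩ := hT w hw
      exact Finset.mem_biUnion.2 ⟨V w, hv, mem_ab.2 hvw⟩
    have h2 := (Finset.card_le_card h1).trans Finset.card_biUnion_le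
    have h3 : ∑ v ∈ S, (ab L v).card ≤ ∑ _v ∈ S, r :=
      Finset.sum_le_sum fun v _ => (card_ab_le L v).trans hrL
    rw [Finset.sum_const, smul_eq_mul] at h3
    exact_mod_cast h2.trans h3
  have hWa : ∀ e, Ca e * finrank ℚ L ≤ W := by
    intro e
    refine (mul_le_mul_of_nonneg_left hfq (hCa0 _)).trans ?_
    rw [hW]
    refine mul_le_mul_of_nonneg_right ?_ hQ0
    have := Finset.single_le_sum (f := Ca) (fun e _ => hCa0 e) (Finset.mem_univ e)
    linarith
  have hWb : ∀ i, Cb i * finrank ℚ L ≤ W := by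
    intro i
    refine (mul_le_mul_of_nonneg_left hfq (hCb0 _)).trans ?_
    rw [hW]
    refine mul_le_mul_of_nonneg_right ?_ hQ0
    have := Finset.single_le_sum (f := Cb) (fun e _ => hCb0 e) (Finset.mem_univ i)
    linarith
  have hWl : ∀ i, Cl i * finrank ℚ L ≤ W := by
    intro i
    refine (mul_le_mul_of_nonneg_left hfq (hCl0 _)).trans ?_
    rw [hW]
    refine mul_le_mul_of_nonneg_right ?_ hQ0
    have := Finset.single_le_sum (f := Cl) (fun e _ => hCl0 e) (Finset.mem_univ i)
    linarith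
  have hh := logHeight_nonneg x
  set h : ℝ := logHeight x with hhd
  set a : Pl L → Fin q → ℝ := fun w i => wt w * lam (av w) 1 (bc L (ℓ i)) x with ha
  have hanti' : ∀ w (i j : Fin 4), i ≤ j → a w (e w j) ≤ a w (e w i) := fun w i j hij =>
    mul_le_mul_of_nonneg_left (hanti w i j hij) (wt_nonneg w)
  have hlow : ∀ w i, 0 ≤ a w i + W := by
    intro w i
    have h2 := (hCb i L w x hx (hℓx i)).trans (hWb i)
    simp only [ha]
    linarith
  -- one place
  have hplace : ∀ w : Pl L, wt w * (∑ i, lam (av w) 1 (bc L (ℓ i)) x / ((1 : ℕ) : ℝ)) ≤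
      (a w (e w 0) + a w (e w 2)) + a w (e w 1) + (q + 1) * W := by
    intro w
    obtain ⟨k1, hk1⟩ := hCa (e w) L w x hx (fun _ => hFx) (fun i => hℓx _)
    have hak1 : a w (e w k1) ≤ W := hk1.trans (hWa _)
    have h3 : a w (e w 3) ≤ W := by
      refine (hanti' w k1 3 ?_).trans hak1
      exact Fin.le_last k1
    have hrest : ∀ j, j ∉ Set.range (e w) → a w j ≤ W := by
      intro j hj
      exact (mul_le_mul_of_nonneg_left (he w j hj k1) (wt_nonneg w)).trans hak1
    have e1 : wt w * (∑ i, lam (av w) 1 (bc L (ℓ i)) x / ((1 : ℕ) : ℝ)) =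
        ∑ i ∈ Finset.univ.map (e w), a w i +
        ∑ i ∈ Finset.univ.filter (fun i => i ∉ Finset.univ.map (e w)), a w i := by
      rw [Finset.mul_sum,
        ← Finset.sum_filter_add_sum_filter_not Finset.univ (fun i => i ∈ Finset.univ.map (e w))]
      congr 1
      · refine Finset.sum_congr ?_ fun i _ => ?_
        · ext i
          simp
        · rw [Nat.cast_one, div_one]
      · refine Finset.sum_congr rfl fun i _ => ?_
        rw [Nat.cast_one, div_one]
    rw [e1, Finset.sum_map, Fin.sum_univ_four]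
    have h1 : ∑ i ∈ Finset.univ.filter (fun i => i ∉ Finset.univ.map (e w)), a w i ≤ q * W := by
      have h1 : ∑ i ∈ Finset.univ.filter (fun i => i ∉ Finset.univ.map (e w)), a w i ≤
          ∑ _i ∈ Finset.univ.filter (fun i : Fin q => i ∉ Finset.univ.map (e w)), W := by
        refine Finset.sum_le_sum fun i hi => hrest i ?_
        have h2 := (Finset.mem_filter.1 hi).2
        simpa using h2
      refine h1.trans ?_
      rw [Finset.sum_const, nsmul_eq_mul]
      refine mul_le_mul_of_nonneg_right ?_ hW0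
      have h3 := Finset.card_le_univ
        (Finset.univ.filter fun i : Fin q => i ∉ Finset.univ.map (e w))
      rw [Fintype.card_fin] at h3
      exact_mod_cast h3
    linarith
  -- the first estimate
  have hSA : ∑ w ∈ T, (a w (e w 0) + a w (e w 2)) ≤ (4 * ρ - 1 / 2) * ((1 + ε1) * h + CA) := by
    have h1 := hCA L hrL x hx hFx hadj (left_ne_zero_of_mul hZx) (fun e i => hℓx _) e T V hT
      (fun w _ i j hij => hanti w i j hij) ρ hρ hρT
    have h2 : ∑ w ∈ T, (a w (e w 0) + a w (e w 2)) = ∑ w ∈ T, wt w *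
        (lam (av w) 1 (bc L (ℓ (e w 0))) x + lam (av w) 1 (bc L (ℓ (e w 2))) x) := by
      refine Finset.sum_congr rfl fun w _ => ?_
      simp only [ha]
      ring
    rw [h2]
    refine h1.trans (mul_le_mul_of_nonneg_right (cstR_two_le hρ) ?_)
    have : 0 ≤ (1 + ε1) * h := mul_nonneg (by linarith) hh
    linarith
  -- the second estimate
  have hSB : ∑ w ∈ T, a w (e w 1) / κ (e w) ≤
      2 * ρ * ((1 + ε1) * h + CB + S.card * (r * W)) := by
    have h1 := hCB L hrL x hx hFx hadj (right_ne_zero_of_mul hZx) (fun e i => hℓx _) e T V hT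
      (fun w _ => hanti w 0 1 (by decide))
    have h2 : ∀ w ∈ T, a w (e w 1) / κ (e w) ≤
        2 * ρ * (wt w * lam (av w) 1 (bc L (ℓ (e w 1))) x /
          (2 * κ (e w) * (finrank K L / nn (V w) w)) + W) := by
      intro w hw
      have hρw : 1 ≤ (finrank K L : ℝ) / nn (V w) w :=
        RR_one_le (rho_mem hrL (mem_ab.2 (hT w hw).2))
      have hρw' := hρT w hw
      set ρw : ℝ := (finrank K L : ℝ) / nn (V w) w with hρwd
      have hκ1 : 1 ≤ κ (e w) := by rcases hκ (e w) with h | h <;> rw [h] <;> norm_num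
      have hκ0 : 0 < κ (e w) := by linarith
      have h3 : wt w * lam (av w) 1 (bc L (ℓ (e w 1))) x = a w (e w 1) := rfl
      rw [h3]
      have h4 := hlow w (e w 1)
      have h5 : a w (e w 1) / κ (e w) ≤ (a w (e w 1) + W) / κ (e w) :=
        div_le_div_of_nonneg_right (by linarith) hκ0.le
      have h6 : (a w (e w 1) + W) / κ (e w) = 2 * ρ * ((a w (e w 1) + W) / (2 * κ (e w) * ρ)) := by
        field_simp
      have h7 : (a w (e w 1) + W) / (2 * κ (e w) * ρ) ≤ (a w (e w 1) + W) / (2 * κ (e w) * ρw) := by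
        refine div_le_div_of_nonneg_left h4 (by positivity) ?_
        exact mul_le_mul_of_nonneg_left hρw' (by positivity)
      have h8 : (a w (e w 1) + W) / (2 * κ (e w) * ρw) ≤ a w (e w 1) / (2 * κ (e w) * ρw) + W := by
        rw [add_div]
        refine add_le_add le_rfl (div_le_self hW0 ?_)
        nlinarith
      have h9 := mul_le_mul_of_nonneg_left (h7.trans h8) (by positivity : 0 ≤ 2 * ρ)
      linarith
    refine (Finset.sum_le_sum h2).trans ?_
    rw [← Finset.mul_sum, Finset.sum_add_distrib, Finset.sum_const, nsmul_eq_mul]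
    refine mul_le_mul_of_nonneg_left ?_ (by positivity)
    have h3 : (T.card : ℝ) * W ≤ S.card * (r * W) := by
      have := mul_le_mul_of_nonneg_right hcard hW0
      linarith
    linarith
  -- the special line
  have hSC : ∑ w ∈ T.filter (fun w => κ (e w) = 2), a w (e w 1) ≤ h + W := by
    rcases (T.filter (fun w => κ (e w) = 2)).eq_empty_or_nonempty with h0 | ⟨w0, hw0⟩
    · rw [h0, Finset.sum_empty]
      linarith
    · have hw02 := (Finset.mem_filter.1 hw0).2
      set i0 : Fin q := e w0 0 with hi0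
      have h1 : ∀ w ∈ T.filter (fun w => κ (e w) = 2), a w (e w 1) ≤
          wt w * max 0 (lam (av w) 1 (bc L (ℓ i0)) x) := by
        intro w hw
        have hw2 := (Finset.mem_filter.1 hw).2
        obtain ⟨j, hj, hjF⟩ := hκ2 _ hw02
        obtain ⟨j', hj', hjF'⟩ := hκ2 _ hw2
        have h2 := unique_pair ℓ hℓ hgp F hF0 hF hdvd
          (a := e w0 0) (b := e w0 1) (a' := e w 0) (b' := e w 1)
          (fun h => absurd ((e w0).injective h) (by decide))
          (fun h => absurd ((e w).injective h) (by decide)) hj hj' hjF hjF'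
        have h3 : a w (e w 1) ≤ a w i0 := by
          rcases h2 with h2 | h2
          · rw [hi0, h2]
            exact hanti' w 0 1 (by decide)
          · rw [hi0, h2]
        refine h3.trans ?_
        exact mul_le_mul_of_nonneg_left (le_max_right _ _) (wt_nonneg w)
      refine (Finset.sum_le_sum h1).trans ?_
      refine (hCl i0 L _ x hx (hℓx i0)).trans ?_
      rw [Nat.cast_one, one_mul]
      exact add_le_add le_rfl (hWl i0)
  have hsplit : ∑ w ∈ T, a w (e w 1) = ∑ w ∈ T, a w (e w 1) / κ (e w) +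
      (∑ w ∈ T.filter (fun w => κ (e w) = 2), a w (e w 1)) / 2 := by
    rw [Finset.sum_filter, Finset.sum_div, ← Finset.sum_add_distrib]
    refine Finset.sum_congr rfl fun w _ => ?_
    rcases hκ (e w) with h | h
    · rw [h, if_neg (by norm_num)]
      ring
    · rw [h, if_pos rfl]
      ring
  refine (Finset.sum_le_sum fun w _ => hplace w).trans ?_
  rw [Finset.sum_add_distrib, Finset.sum_add_distrib, Finset.sum_const, nsmul_eq_mul, hsplit]
  have h2 : (T.card : ℝ) * ((q + 1) * W) ≤ S.card * (r * ((q + 1) * W)) := by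
    have := mul_le_mul_of_nonneg_right hcard (by positivity : 0 ≤ ((q : ℝ) + 1) * W)
    linarith
  have h3 : (4 * ρ - 1 / 2) * ((1 + ε1) * h + CA) + 2 * ρ * ((1 + ε1) * h + CB + S.card * (r * W)) +
      (h + W) / 2 ≤ (6 * ρ + ε) * h + (4 * ρ * CA + 2 * ρ * (CB + S.card * (r * W)) + W) := by
    have h4 : 0 ≤ ε1 * h := mul_nonneg hε10.le hh
    have h5 : ε * h = 6 * ρ * (ε1 * h) := by rw [← hεε]; ring
    nlinarith
  linarith

end

end Pool.Agent.H426.Ru
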