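import Pool.Graph.R_pool_sql_team_seeded_3dad9d7b.NH28.Mono

/-!
The subspace theorem for the points of bounded degree and arbitrary systems of parameters.
-/

set_option autoImplicit false

namespace Pool.Agent.H426.Ru

open MvPolynomial Finset NumberField IsDedekindDomain Height Module
open Pool.Agent.W180.OP Pool.Agent.W180.TP Pool.Agent.NH28

theorem sys_main {K : Type} [Field K] [NumberField K] {n m ν r D : ℕ} (hν : 1 ≤ ν) (hr : 1 ≤ r)
    (hD : 1 ≤ D) (G : Fin m → MvPolynomial (Fin n) K) (g : Fin m → ℕ)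
    (hG : ∀ k, (G k).IsHomogeneous (g k))
    (hprime : (Ideal.span (Set.range G)).IsPrime)
    (htr : Algebra.trdeg K (MvPolynomial (Fin n) K ⧸ Ideal.span (Set.range G)) = (ν + 1 : ℕ))
    {Sy : Type} [Fintype Sy] [Nonempty Sy] (y : Sy → Fin (ν + 1) → MvPolynomial (Fin n) K)
    (hyh : ∀ e k, (y e k).IsHomogeneous D)
    (h0y : ∀ e, ∀ (L : Type) [Field L] [Algebra K L] (x : Fin n → L),
      (∀ k, aeval x (G k) = 0) → (∀ k, aeval x (y e k) = 0) → x = 0) (ε : ℝ) (hε : 0 < ε) :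
    ∃ Z : MvPolynomial (Fin n) K, Z ∉ Ideal.span (Set.range G) ∧ (∃ t, Z.IsHomogeneous t) ∧
      ∀ S : Finset (Pl K), ∃ C : ℝ, 0 ≤ C ∧ ∀ (L : Type) [Field L] [NumberField L] [Algebra K L],
        finrank K L ≤ r → ∀ x : Fin n → L, x ≠ 0 → (∀ k, aeval x (G k) = 0) →
        IntermediateField.adjoin K {z | ∃ i j, z = x i / x j} = ⊤ → aeval x Z ≠ 0 →
        ∀ e : Pl L → Sy, (∀ w k, aeval x (y (e w) k) ≠ 0) →
        ∀ (T : Finset (Pl L)) (V : Pl L → Pl K), (∀ w ∈ T, V w ∈ S ∧ Ov (V w) w) →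
        ∑ w ∈ T, ((∑ k, (wt w * lam (av w) D (bc L (y (e w) k)) x)) / D) /
          cstR ν (finrank K L / nn (V w) w) ≤ (1 + ε) * logHeight x + C := by
  classical
  obtain ⟨Z, hZ, hZh, hmain⟩ := main_w hr hD G g hG hprime htr y hyh h0y
    (fun _ Λ ρ => (∑ k, Λ k) / ((|cstR ν ρ| + ε) * D))
    (fun _ Λ ρ hΛ _ => div_nonneg (Finset.sum_nonneg fun k _ => hΛ k) (by positivity))
    (gain_div hν hD ε hε)
  refine ⟨Z, hZ, hZh, fun S => ?_⟩
  obtain ⟨C, c0, hC0, hc00, hC⟩ := hmain S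
  refine ⟨(1 + ε) * C, by positivity, ?_⟩
  intro L _ _ _ hrL x hx hGx hadj hZx e hyx T V hT
  have hD1 : (1 : ℝ) ≤ D := by exact_mod_cast hD
  have hD0 : (0 : ℝ) < D := by linarith
  -- all places
  set A : Pl K → Finset (Pl L) := fun v => (ab L v).filter fun w => w ∈ T with hA
  obtain ⟨hpos, hfin⟩ := hC L hrL x hx hGx hadj hZx e hyx
  have h1 := hfin A (fun v => Finset.filter_subset _ _)
  have hTS : T = S.biUnion A := by
    ext w
    rw [Finset.mem_biUnion]
    constructor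
    · intro hw
      obtain ⟨hv, hvw⟩ := hT w hw
      exact ⟨V w, hv, Finset.mem_filter.2 ⟨mem_ab.2 hvw, hw⟩⟩
    · rintro ⟨v, _, hw⟩
      exact (Finset.mem_filter.1 hw).2
  have hdisj : (S : Set (Pl K)).PairwiseDisjoint A := by
    intro v _ v' _ hne
    rw [Function.onFun, Finset.disjoint_left]
    intro w hw hw'
    exact hne (ov_unique (mem_ab.1 (Finset.mem_filter.1 hw).1) (mem_ab.1 (Finset.mem_filter.1 hw').1))
  have hterm : ∀ v ∈ S, ∀ w ∈ A v, ((∑ k, (wt w * lam (av w) D (bc L (y (e w) k)) x)) / D) /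
      cstR ν (finrank K L / nn (V w) w) ≤
      (1 + ε) * (nn v w * ((∑ k, LL v w c0 D (y (e w) k) x) /
        ((|cstR ν (finrank K L / nn v w)| + ε) * D))) := by
    intro v _ w hw
    have hwab := (Finset.mem_filter.1 hw).1
    have hwT := (Finset.mem_filter.1 hw).2
    have hVw : V w = v := ov_unique (hT w hwT).2 (mem_ab.1 hwab)
    have hov := mem_ab.1 hwab
    rw [hVw]
    have hρ : 1 ≤ (finrank K L : ℝ) / nn v w := RR_one_le (rho_mem hrL hwab)
    have hc := one_le_cstR hν hρ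
    have hν0 : (0 : ℝ) ≤ ν := Nat.cast_nonneg _
    set c : ℝ := cstR ν (finrank K L / nn v w) with hcd
    have hc1 : 1 ≤ c := by linarith
    have hc0 : 0 < c := by linarith
    rw [abs_of_pos hc0]
    have hnn : 0 < nn v w := by
      have := one_le_nn hov
      linarith
    have e1 : nn v w * ((∑ k, LL v w c0 D (y (e w) k) x) / ((c + ε) * D)) =
        (∑ k, (wt w * lam (av w) D (bc L (y (e w) k)) x + c0)) / ((c + ε) * D) := by
      have e2 : ∑ k, LL v w c0 D (y (e w) k) x =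
          (∑ k, (wt w * lam (av w) D (bc L (y (e w) k)) x + c0)) / nn v w := by
        rw [Finset.sum_div]
        rfl
      rw [e2]
      field_simp
    rw [e1]
    set X : ℝ := ∑ k, (wt w * lam (av w) D (bc L (y (e w) k)) x + c0) with hX
    have hX0 : 0 ≤ X := Finset.sum_nonneg fun k _ => hpos w k
    have h2 : (∑ k, (wt w * lam (av w) D (bc L (y (e w) k)) x)) / D ≤ X / D := by
      refine div_le_div_of_nonneg_right ?_ hD0.le
      exact Finset.sum_le_sum fun k _ => by linarith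
    have h3 : ((∑ k, (wt w * lam (av w) D (bc L (y (e w) k)) x)) / D) / c ≤ (X / D) / c :=
      div_le_div_of_nonneg_right h2 hc0.le
    refine h3.trans ?_
    rw [div_div, mul_div_assoc', div_le_div_iff₀ (by positivity) (by positivity)]
    have h4 : c + ε ≤ (1 + ε) * c := by nlinarith
    have h5 := mul_le_mul_of_nonneg_left h4 (mul_nonneg hX0 hD0.le)
    nlinarith
  rw [hTS, Finset.sum_biUnion hdisj]
  refine (Finset.sum_le_sum fun v hv => Finset.sum_le_sum fun w hw => hterm v hv w hw).trans ?_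
  have h3 : ∑ v ∈ S, ∑ w ∈ A v, (1 + ε) * (nn v w * ((∑ k, LL v w c0 D (y (e w) k) x) /
        ((|cstR ν (finrank K L / nn v w)| + ε) * D))) =
      (1 + ε) * (∑ v ∈ S, ∑ w ∈ A v, (nn v w * ((∑ k, LL v w c0 D (y (e w) k) x) /
        ((|cstR ν (finrank K L / nn v w)| + ε) * D)))) := by
    rw [Finset.mul_sum]
    refine Finset.sum_congr rfl fun v _ => ?_
    rw [Finset.mul_sum]
  rw [h3]
  have h5 := mul_le_mul_of_nonneg_left h1 (by linarith : (0 : ℝ) ≤ 1 + ε)
  have h6 : (1 + ε) * (logHeight x + C) = (1 + ε) * logHeight x + (1 + ε) * C := by ring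
  rw [h6] at h5
  exact h5

end Pool.Agent.H426.Ru
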