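import Pool.Agent.H426.Ru.Lin

set_option autoImplicit false

/-!
# Hyperplanes in `ℙ³` and ALL points of bounded degree

For hyperplanes `H i`, `i < q`, in general position in `ℙ^n`, `n ≤ 3`, over a number field `K`, every
point `x` of degree at most `r` over `K` which is in no `H i` satisfies
`∑ i, m_{S, H i}(x) ≤ (2 n r + ε) h(x) + C`. There is no exceptional set. More precisely the factor
`r` may be replaced by the largest `ρ_w = [L : K] / [L_w : K_v] ≤ r` at the places `w` which are used,
`L` the residue field of `x`.

Method: Noetherian induction on the subvarieties of `ℙ³`. Points, curves and `ℙ³` itself: combinations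
of the linear forms which are smallest at a place, and the theorem for systems of parameters. For a
surface `V` of degree `d` this gives only `8 r`. Here two estimates are combined. (1) `y_0, y_1, y_2`
without common zero on `V`, `y_0` the smallest and `y_2` the fourth smallest form, bound the first
and the third proximity by `c(2, ρ) ≤ 4 ρ - 1/2`. (2) A filtration of the forms of high degree on `V`
along the line `y_0 = y_1 = 0`, with the subspace theorem for families of bases (library) and the
filtration of the residue field of `L` over `K`, bounds the second proximity by `2 ρ`, if `V` has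
multiplicity at most `d / 2` along the line, and by `4 ρ` in general. At most one of the lines has
larger multiplicity, up to a common plane, and there the first main theorem is used once more.
-/

namespace Pool.Agent.Results.MP_71c16a_nt.ThreeSpace

open NumberField IsDedekindDomain

/-- The places of a number field: the archimedean places and the primes. -/
abbrev Place (L : Type) [Field L] [NumberField L] : Type :=
  InfinitePlace L ⊕ HeightOneSpectrum (𝓞 L)

/-- The place is archimedean or lies over a prime in `S`. -/
def Above {K L : Type} [Field K] [NumberField K] [Field L] [NumberField L] [Algebra K L]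
    (S : Finset (HeightOneSpectrum (𝓞 K))) : Place L → Prop
  | Sum.inl _ => True
  | Sum.inr w => ∃ v ∈ S, w.asIdeal.LiesOver v.asIdeal

/-- The absolute value of a place. At a prime it is the normalised one, with the value
`(N v) ^ (-ord_v x)` at `x ≠ 0`. -/
noncomputable def absv {L : Type} [Field L] [NumberField L] : Place L → L → ℝ
  | Sum.inl w => fun x => w x
  | Sum.inr v => fun x => FinitePlace.mk v x

/-- The exponent of the absolute value of a place in the product formula: `1` at real places and at
primes, `2` at complex places. -/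
noncomputable def weight {L : Type} [Field L] [NumberField L] : Place L → ℝ
  | Sum.inl w => w.mult
  | Sum.inr _ => 1

/-- The degree of the completion of `L` at a place over the completion of `K` at the place below:
the quotient of the degrees over `ℝ` at an archimedean place, `e f` at a prime. -/
noncomputable def localDegree (K : Type) {L : Type} [Field K] [NumberField K] [Field L]
    [NumberField L] [Algebra K L] : Place L → ℝ
  | Sum.inl w => w.mult / (w.comap (algebraMap K L)).mult
  | Sum.inr w => ((w.asIdeal.under (𝓞 K)).ramificationIdx' w.asIdeal *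
      (w.asIdeal.under (𝓞 K)).inertiaDeg' w.asIdeal : ℕ)

/-- `ρ_w = [L : K] / [L_w : K_v]`. -/
noncomputable def ratio (K : Type) {L : Type} [Field K] [NumberField K] [Field L] [NumberField L]
    [Algebra K L] (p : Place L) : ℝ :=
  Module.finrank K L / localDegree K p

/-- The value at `x` of the linear form with coefficients `a`. -/
def form {K L : Type} [Field K] [Field L] [Algebra K L] {n : ℕ} (a : Fin n → K) (x : Fin n → L) :
    L :=
  ∑ j, algebraMap K L (a j) * x j

/-- The local height of the hyperplane with equation `a` at the point with homogeneous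
coordinates `x`. -/
noncomputable def weil {K L : Type} [Field K] [Field L] [NumberField L] [Algebra K L] {n : ℕ}
    (p : Place L) (a : Fin n → K) (x : Fin n → L) : ℝ :=
  Real.log ((⨆ j, absv p (x j)) / absv p (form a x))

/-- The sum of the proximity functions of the hyperplanes `a i` at `x`, in absolute normalisation,
for the finite set `T` of places of `L`. -/
noncomputable def proximity {K L : Type} [Field K] [Field L] [NumberField L] [Algebra K L]
    {n q : ℕ} (T : Finset (Place L)) (a : Fin q → Fin n → K) (x : Fin n → L) : ℝ :=
  (∑ p ∈ T, weight p * ∑ i, weil p (a i) x) / Module.finrank ℚ L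

/-- The absolute logarithmic height. -/
noncomputable def height {L : Type} [Field L] [NumberField L] {n : ℕ} (x : Fin n → L) : ℝ :=
  Height.logHeight x / Module.finrank ℚ L

/-- The residue field over `K` of the point with homogeneous coordinates `x` in `L` is `L`. -/
def ResidueField (K : Type) {L : Type} [Field K] [Field L] [Algebra K L] {n : ℕ}
    (x : Fin n → L) : Prop :=
  IntermediateField.adjoin K {z : L | ∃ i j, z = x i / x j} = ⊤

/-- Let `K` be a number field, `1 ≤ n ≤ 3` and `r ≥ 1`, and let `a i`, `i < q`, be hyperplanes of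
`ℙ^n` over `K` in general position: any `n + 1` or fewer of the forms are linearly independent. For
all `ρ ≥ 1` and `ε > 0` and every finite set `S` of primes of `K` there is `C` such that for EVERY
point `x` of `ℙ^n` of degree at most `r` over `K` (with residue field `L`) which is on none of the
hyperplanes, and every finite set `T` of places of `L` which are archimedean or lie over `S`:

* `∑ i, m_{T, H i}(x) ≤ (2 n r + ε) h(x) + C`;
* `∑ i, m_{T, H i}(x) ≤ (2 n ρ + ε) h(x) + C` if `[L : K] / [L_w : K_v] ≤ ρ` for all `w` in `T`. -/
theorem result (K : Type) [Field K] [NumberField K] (n q r : ℕ) (hn1 : 1 ≤ n) (hn : n ≤ 3)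
    (hr : 1 ≤ r) (a : Fin q → Fin (n + 1) → K)
    (hgp : ∀ s : Finset (Fin q), s.card ≤ n + 1 → LinearIndependent K (fun i : s => a i))
    (ρ : ℝ) (hρ : 1 ≤ ρ) (ε : ℝ) (hε : 0 < ε) (S : Finset (HeightOneSpectrum (𝓞 K))) :
    ∃ C : ℝ, ∀ (L : Type) [Field L] [NumberField L] [Algebra K L], Module.finrank K L ≤ r →
      ∀ x : Fin (n + 1) → L, x ≠ 0 → ResidueField K x → (∀ i, form (a i) x ≠ 0) →
        ∀ T : Finset (Place L), (∀ p ∈ T, Above S p) →
          proximity T a x ≤ (2 * n * r + ε) * height x + C ∧
          ((∀ p ∈ T, ratio K p ≤ ρ) → proximity T a x ≤ (2 * n * ρ + ε) * height x + C) := by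
  classical
  have hweil : ∀ (L : Type) [Field L] [NumberField L] [Algebra K L] (p : Place L)
      (b : Fin (n + 1) → K) (x : Fin (n + 1) → L), weil p b x =
      Pool.Agent.W180.OP.lam (Pool.Agent.W180.OP.av p) 1
        (Pool.Agent.W180.OP.bc L (Pool.Agent.H426.Ru.lin b)) x := by
    intro L _ _ _ p b x
    unfold weil Pool.Agent.W180.OP.lam
    rw [Pool.Agent.W180.OP.eval_bc, Pool.Agent.H426.Ru.aeval_lin, pow_one]
    cases p <;> rfl
  have hw : ∀ (L : Type) [Field L] [NumberField L] (p : Place L),
      weight p = Pool.Agent.W180.OP.wt p := by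
    intro L _ _ p
    cases p <;> rfl
  have hprox : ∀ (L : Type) [Field L] [NumberField L] [Algebra K L] (T : Finset (Place L))
      (x : Fin (n + 1) → L), proximity T a x =
      (∑ p ∈ T, Pool.Agent.W180.OP.wt p * (∑ i,
      Pool.Agent.W180.OP.lam (Pool.Agent.W180.OP.av p) 1
        (Pool.Agent.W180.OP.bc L (Pool.Agent.H426.Ru.lin (a i))) x / ((1 : ℕ) : ℝ))) /
          Module.finrank ℚ L := by
    intro L _ _ _ T x
    unfold proximity
    congr 1
    refine Finset.sum_congr rfl fun p _ => ?_
    rw [hw]
    congr 1
    exact Finset.sum_congr rfl fun i _ => by rw [hweil, Nat.cast_one, div_one]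
  have hlo : ∀ (L : Type) [Field L] [NumberField L] [Algebra K L] (p : Place L),
      localDegree K p = Pool.Agent.NH28.lo K p := by
    intro L _ _ _ p
    cases p <;> rfl
  set S' : Finset (Pool.Agent.W180.OP.Pl K) := Finset.univ.image Sum.inl ∪ S.image Sum.inr with hS'
  have hr1 : (1 : ℝ) ≤ r := by exact_mod_cast hr
  obtain ⟨C1, hC10, hC1⟩ := Pool.Agent.H426.Ru.pn_all hn1 hn hr a hgp r hr1 ε hε S'
  obtain ⟨C2, hC20, hC2⟩ := Pool.Agent.H426.Ru.pn_all hn1 hn hr a hgp ρ hρ ε hε S'
  refine ⟨C1 + C2, ?_⟩
  intro L _ _ _ hrL x hx hres hax T hT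
  have hN : (1 : ℝ) ≤ Module.finrank ℚ L := by
    exact_mod_cast (Module.finrank_pos : 0 < Module.finrank ℚ L)
  have hN0 : (0 : ℝ) < Module.finrank ℚ L := by linarith
  obtain ⟨V, hV⟩ := Pool.Agent.NH28.exists_V S' T (by
    intro w hw
    have h2 := hT w hw
    cases w with
    | inl w =>
      refine ⟨Sum.inl (w.comap (algebraMap K L)), ?_, rfl⟩
      exact Finset.mem_union_left _ (Finset.mem_image_of_mem _ (Finset.mem_univ _))
    | inr w =>
      obtain ⟨v, hv, hvw⟩ := h2
      exact ⟨Sum.inr v, Finset.mem_union_right _ (Finset.mem_image_of_mem _ hv), hvw⟩)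
    (Sum.inl (Classical.arbitrary _))
  have hratio : ∀ w ∈ T, (Module.finrank K L : ℝ) / Pool.Agent.NH28.nn (V w) w = ratio K w := by
    intro w hw
    rw [Pool.Agent.NH28.nn_eq_lo (hV w hw).2, ← hlo]
    rfl
  have hbot : ∀ p ∈ (⊥ : Ideal (MvPolynomial (Fin (n + 1)) K)), MvPolynomial.aeval x p = 0 := by
    intro p hp
    rw [(Submodule.mem_bot _).1 hp, map_zero]
  have hax' : ∀ i, MvPolynomial.aeval x (Pool.Agent.H426.Ru.lin (a i)) ≠ 0 := by
    intro i
    rw [Pool.Agent.H426.Ru.aeval_lin]
    exact hax i
  have hle : ∀ {A B C : ℝ}, 0 ≤ C → C ≤ C1 + C2 → A ≤ B * Height.logHeight x + C →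
      A / Module.finrank ℚ L ≤ B * height x + (C1 + C2) := by
    intro A B C hC0 hC h
    rw [div_le_iff₀ hN0]
    have e1 : (B * height x + (C1 + C2)) * Module.finrank ℚ L =
        B * Height.logHeight x + (C1 + C2) * Module.finrank ℚ L := by
      unfold height
      field_simp
    rw [e1]
    have h2 : C1 + C2 ≤ (C1 + C2) * Module.finrank ℚ L := le_mul_of_one_le_right (by linarith) hN
    linarith
  rw [hprox]
  refine ⟨?_, fun hTρ => ?_⟩
  · exact hle hC10 (by linarith) (hC1 L hrL x hx hbot hres (by rw [map_one]; exact one_ne_zero) hax'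
      T V hV fun w hw => Pool.Agent.H426.Ru.ratio_le hrL (hV w hw).2)
  · exact hle hC20 (by linarith) (hC2 L hrL x hx hbot hres (by rw [map_one]; exact one_ne_zero) hax'
      T V hV fun w hw => by rw [hratio w hw]; exact hTρ w hw)

end Pool.Agent.Results.MP_71c16a_nt.ThreeSpace
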